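import Pool.Agent.J4H78.HG.Stm2
import Pool.Agent.J4H74.GP.Mix0
import Pool.Agent.J4H57.GP.Gap

/-!
# Project HG2: DEN
-/

set_option autoImplicit false

open NumberField Complex

namespace Pool.Agent.J4H78.HG

open Pool.Agent.J4H78.GP (QD S_HB)
open Pool.Agent.J4H21.GP (ext ext_apply)
open Pool.Agent.J4H57.GP (triv triv_of_ne isCl_ext)

variable {K : Type} [Field K] [NumberField K]

open Classical in
/-- the antisymmetric type -/
noncomputable def asy (w : InfinitePlace K) (r : ℝ) : InfinitePlace K → ℝ := fun v => if v = w then r else -r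

theorem prod_two {w w' : InfinitePlace K} (h : w ≠ w') (hpl : ∀ v, v = w ∨ v = w') (F : InfinitePlace K → ℂ) :
    ∏ v, F v = F w * F w' := by
  classical
  have h1 : (Finset.univ : Finset (InfinitePlace K)) = {w, w'} := by
    ext v
    simp [hpl v]
  rw [h1, Finset.prod_pair h]

theorem pw_asy {w w' : InfinitePlace K} (h : w ≠ w') (hpl : ∀ v, v = w ∨ v = w') (r : ℝ) (x : K) :
    pw (asy w r) x = Complex.exp (((r * la w w' x : ℝ) : ℂ) * I) := by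
  unfold pw
  rw [prod_two h hpl]
  unfold asy
  rw [if_pos rfl, if_neg h.symm, ← Complex.exp_add]
  congr 1
  unfold la
  push_cast
  ring

theorem la_div {w w' : InfinitePlace K} {a b : K} (ha : a ≠ 0) (hb : b ≠ 0) :
    la w w' (b / a) = la w w' b - la w w' a := by
  unfold la
  rw [map_div₀, map_div₀, Real.log_div, Real.log_div]
  · ring
  · exact (map_ne_zero w').mpr hb
  · exact (map_ne_zero w').mpr ha
  · exact (map_ne_zero w).mpr hb
  · exact (map_ne_zero w).mpr ha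

theorem la_mul {w w' : InfinitePlace K} {a b : K} (ha : a ≠ 0) (hb : b ≠ 0) :
    la w w' (a * b) = la w w' a + la w w' b := by
  unfold la
  rw [map_mul, map_mul, Real.log_mul, Real.log_mul]
  · ring
  · exact (map_ne_zero w').mpr ha
  · exact (map_ne_zero w').mpr hb
  · exact (map_ne_zero w).mpr ha
  · exact (map_ne_zero w).mpr hb

theorem la_zpow {w w' : InfinitePlace K} (u : (𝓞 K)ˣ) (j : ℤ) :
    la w w' (((u ^ j : (𝓞 K)ˣ) : 𝓞 K) : K) = j * la w w' ((u : 𝓞 K) : K) := by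
  have h1 : (((u ^ j : (𝓞 K)ˣ) : 𝓞 K) : K) = ((u : 𝓞 K) : K) ^ j := by
    exact NumberField.Units.coe_zpow u j
  unfold la
  rw [h1, map_zpow₀, map_zpow₀, Real.log_zpow, Real.log_zpow]
  ring

theorem isHk_mul {μ : InfinitePlace K → ℝ} {ψ : Ideal (𝓞 K) →*₀ ℂ} (h : IsHk K μ ψ)
    (χ : ClassGroup (𝓞 K) →* ℂˣ) : IsHk K μ (ψ * ext χ) := by
  intro x hx
  change ψ (Ideal.span {x}) * ext χ (Ideal.span {x}) = _
  rw [h x hx, isCl_ext χ x hx, mul_one]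

/-- not the power of a norm -/
theorem notNorm_asy (hN : S_NNW) {p : ℕ} (hp : p.Prime) (hK : QD p K) {w w' : InfinitePlace K} (hw : w ≠ w')
    {r : ℝ} {ψ : Ideal (𝓞 K) →*₀ ℂ} (hψ : IsHk K (asy w r) ψ) (h : ¬ NotNorm ψ) :
    r = 0 ∧ ∀ 𝔞 : Ideal (𝓞 K), 𝔞 ≠ ⊥ → ψ 𝔞 = 1 := by
  obtain ⟨t, ht, h1⟩ := hN p K hp hK _ ψ hψ h
  have h2 := ht w
  have h3 := ht w'
  unfold asy at h2 h3
  rw [if_pos rfl] at h2
  rw [if_neg hw.symm] at h3
  have ht0 : t = 0 := by linarith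
  refine ⟨by linarith, fun 𝔞 h𝔞 => ?_⟩
  rw [h1 𝔞 h𝔞, ht0]
  simp

theorem char_one_of {χ : ClassGroup (𝓞 K) →* ℂˣ} (h : ∀ 𝔞 : Ideal (𝓞 K), 𝔞 ≠ ⊥ → ext χ 𝔞 = 1) : χ = 1 := by
  refine MonoidHom.ext fun g => ?_
  obtain ⟨𝔞, rfl⟩ := ClassGroup.mk0_surjective g
  have h1 := h 𝔞 (nonZeroDivisors.coe_ne_zero 𝔞)
  rw [ext_apply] at h1
  exact Units.ext h1

/-- the coefficient of the Fejer kernel -/
noncomputable def ck (n : ℕ) (k : ℤ) : ℝ := 1 - |(k : ℝ)| / (n + 1)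

theorem ck_norm {n : ℕ} {k : ℤ} (hk : k ∈ Finset.Icc (-(n : ℤ)) n) : ‖((ck n k : ℝ) : ℂ)‖ ≤ 1 := by
  rw [Finset.mem_Icc] at hk
  rw [Complex.norm_real, Real.norm_eq_abs]
  unfold ck
  have h1 : |(k : ℝ)| ≤ n := by
    rw [abs_le]
    constructor
    · exact_mod_cast hk.1
    · exact_mod_cast hk.2
  have h2 : |(k : ℝ)| / ((n : ℝ) + 1) ≤ 1 := by
    rw [div_le_one (by positivity)]
    linarith
  have h3 : 0 ≤ |(k : ℝ)| / ((n : ℝ) + 1) := by positivity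
  rw [abs_le]
  constructor <;> linarith

/-- the dual side of a pair of ideals of one class -/
theorem pair_val {w w' : InfinitePlace K} (hw : w ≠ w') (hpl : ∀ v, v = w ∨ v = w') {r : ℝ}
    {ψ : Ideal (𝓞 K) →*₀ ℂ} (hψ : IsHk K (asy w r) ψ) {𝔞 𝔟 : Ideal (𝓞 K)} (h𝔟 : ‖ψ 𝔟‖ = 1) {a b : 𝓞 K}
    (ha : a ≠ 0) (hb : b ≠ 0) (h : Ideal.span {a} * 𝔞 = Ideal.span {b} * 𝔟) :
    ψ 𝔞 * (starRingEnd ℂ) (ψ 𝔟) = Complex.exp (((r * la w w' ((b : K) / (a : K)) : ℝ) : ℂ) * I) := by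
  have h1 : ψ (Ideal.span {a}) * ψ 𝔞 = ψ (Ideal.span {b}) * ψ 𝔟 := by
    rw [← map_mul, ← map_mul, h]
  rw [hψ a ha, hψ b hb, pw_asy hw hpl, pw_asy hw hpl] at h1
  have h2 : ψ 𝔟 * (starRingEnd ℂ) (ψ 𝔟) = 1 := by
    rw [Complex.mul_conj, Complex.normSq_eq_norm_sq, h𝔟]
    simp
  have ha' : (a : K) ≠ 0 := by exact_mod_cast ha
  have hb' : (b : K) ≠ 0 := by exact_mod_cast hb
  have h3 : Complex.exp (((r * la w w' (a : K) : ℝ) : ℂ) * I) * (ψ 𝔞 * (starRingEnd ℂ) (ψ 𝔟)) =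
      Complex.exp (((r * la w w' (b : K) : ℝ) : ℂ) * I) := by
    rw [← mul_assoc, h1, mul_assoc, h2, mul_one]
  have h4 : Complex.exp (((r * la w w' (a : K) : ℝ) : ℂ) * I) ≠ 0 := Complex.exp_ne_zero _
  apply mul_left_cancel₀ h4
  rw [h3, la_div ha' hb', ← Complex.exp_add]
  congr 1
  push_cast
  ring

/-- units shift `la` by all multiples of `R` -/
theorem far_of_not_hit {w w' : InfinitePlace K} {R : ℝ} (hR : 0 < R) {u₀ : (𝓞 K)ˣ}
    (hu : la w w' ((u₀ : 𝓞 K) : K) = R) {S : Set (Ideal (𝓞 K))} {m : ℕ} {𝔟 : Ideal (𝓞 K)} {t d : ℝ}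
    (hno : ¬ Hit w w' S m 𝔟 t d) (f : Fin m → Ideal (𝓞 K)) (hf : ∀ j, f j ∈ S) {a b : 𝓞 K} (ha : a ≠ 0)
    (hb : b ≠ 0) (h : Ideal.span {a} * ∏ j, f j = Ideal.span {b} * 𝔟) (j : ℤ) :
    d / R ≤ |(la w w' ((b : K) / (a : K)) - t) / R - j| := by
  by_contra hcon
  rw [not_le] at hcon
  apply hno
  refine ⟨f, hf, a, b * (u₀ ^ (-j) : (𝓞 K)ˣ), ha, mul_ne_zero hb (Units.ne_zero _), ?_, ?_⟩
  · rw [h]
    congr 1
    exact (Ideal.span_singleton_mul_right_unit (Units.isUnit _) b).symm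
  · have ha' : (a : K) ≠ 0 := by exact_mod_cast ha
    have hb' : (b : K) ≠ 0 := by exact_mod_cast hb
    have hu' : (((u₀ ^ (-j) : (𝓞 K)ˣ) : 𝓞 K) : K) ≠ 0 := by
      exact_mod_cast (Units.ne_zero (u₀ ^ (-j)))
    have h1 : la w w' (((b * (u₀ ^ (-j) : (𝓞 K)ˣ) : 𝓞 K) : K) / (a : K)) =
        la w w' ((b : K) / (a : K)) - j * R := by
      have hm : ((b * (u₀ ^ (-j) : (𝓞 K)ˣ) : 𝓞 K) : K) = (b : K) * (((u₀ ^ (-j) : (𝓞 K)ˣ) : 𝓞 K) : K) :=
        map_mul (algebraMap (𝓞 K) K) _ _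
      rw [hm, la_div ha' (mul_ne_zero hb' hu'), la_mul hb' hu', la_zpow, hu, la_div ha' hb']
      push_cast
      ring
    rw [h1]
    have h2 : (la w w' ((b : K) / (a : K)) - t) / R - j = (la w w' ((b : K) / (a : K)) - j * R - t) / R := by
      field_simp
      ring
    rw [h2, abs_div, abs_of_pos hR, div_lt_div_iff_of_pos_right hR] at hcon
    exact hcon.le

theorem t_DEN : S_UNI → S_EXT → S_FEJ → S_NNW → S_NRM → S_HB → S_DEN := by
  intro hUNI hEXT hFEJ hNNW hNRM hHB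
  obtain ⟨C₁, hC₁, hUNI⟩ := hUNI
  obtain ⟨C₂, hC₂, hHB⟩ := hHB
  refine ⟨4 * C₂ + C₂ * C₁ ^ 2 + 100, by positivity, ?_⟩
  intro p K _ _ hp hK w w' hw S hS hSne n m T d hT hd hgap hc1 hc2 𝔟 h𝔟 t
  classical
  by_contra hno
  obtain ⟨hpl, R, hR1, hR2, ⟨u₀, hu₀⟩, hun⟩ := hUNI p K hp hK w w' hw
  have hR : 0 < R := by linarith
  -- the Hecke characters
  have hex : ∀ k : ℤ, ∃ ψ : Ideal (𝓞 K) →*₀ ℂ, IsHk K (asy w (2 * Real.pi * k / R)) ψ := by
    intro k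
    apply hEXT
    intro u
    rw [pw_asy hw hpl]
    obtain ⟨k', hk'⟩ := hun u
    rw [hk', Complex.exp_eq_one_iff]
    refine ⟨k * k', ?_⟩
    push_cast
    have : (R : ℂ) ≠ 0 := by exact_mod_cast hR.ne'
    field_simp
  choose ψ' hψ' using hex
  set Ψ : ℤ → (Ideal (𝓞 K) →*₀ ℂ) := fun k => if k = 0 then triv K else ψ' k with hΨdef
  have hΨ0 : Ψ 0 = triv K := by simp [hΨdef]
  have hΨ : ∀ k : ℤ, IsHk K (asy w (2 * Real.pi * k / R)) (Ψ k) := by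
    intro k
    by_cases hk : k = 0
    · subst hk
      rw [hΨ0]
      intro x hx
      have h0 : (Ideal.span {x} : Ideal (𝓞 K)) ≠ ⊥ := by
        rw [Ne, Ideal.span_singleton_eq_bot]
        exact hx
      rw [triv_of_ne h0, pw_asy hw hpl]
      simp
    · simp only [hΨdef, if_neg hk]
      exact hψ' k
  have := Pool.Agent.J4H74.GP.finite_chars (ClassGroup (𝓞 K))
  have : Fintype (ClassGroup (𝓞 K) →* ℂˣ) := Fintype.ofFinite _
  set Ξ : (ClassGroup (𝓞 K) →* ℂˣ) × ℤ → (Ideal (𝓞 K) →*₀ ℂ) := fun x => Ψ x.2 * ext x.1 with hΞdef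
  have hΞ : ∀ x, IsHk K (asy w (2 * Real.pi * x.2 / R)) (Ξ x) := fun x => isHk_mul (hΨ x.2) x.1
  have hΞn : ∀ x, ∀ 𝔞 : Ideal (𝓞 K), 𝔞 ≠ ⊥ → ‖Ξ x 𝔞‖ = 1 := fun x 𝔞 h => hNRM K _ _ (hΞ x) 𝔞 h
  have hΨn : ∀ k, ∀ 𝔞 : Ideal (𝓞 K), 𝔞 ≠ ⊥ → ‖Ψ k 𝔞‖ = 1 := fun k 𝔞 h => hNRM K _ _ (hΨ k) 𝔞 h
  -- the index set
  set X : Finset ((ClassGroup (𝓞 K) →* ℂˣ) × ℤ) := Finset.univ ×ˢ Finset.Icc (-(n : ℤ)) n with hXdef
  have hX0 : ((1, 0) : (ClassGroup (𝓞 K) →* ℂˣ) × ℤ) ∈ X := by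
    rw [hXdef, Finset.mem_product, Finset.mem_Icc]
    refine ⟨Finset.mem_univ _, ?_, ?_⟩ <;> simp
  set h : ℝ := (Nat.card (ClassGroup (𝓞 K)) : ℝ) with hhdef
  have hh0 : 0 ≤ h := Nat.cast_nonneg _
  have hXcard : (X.card : ℝ) = h * (2 * n + 1) := by
    rw [hXdef, Finset.card_product, Finset.card_univ, ← Nat.card_eq_fintype_card,
      CommGroup.card_monoidHom_of_hasEnoughRootsOfUnity (ClassGroup (𝓞 K)) ℂ, Int.card_Icc]
    have h1 : ((n : ℤ) + 1 - (-(n : ℤ))).toNat = 2 * n + 1 := by omega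
    rw [h1]
    push_cast
    rfl
  set θ : ℝ := t with hθ
  -- the coefficients
  set A : (ClassGroup (𝓞 K) →* ℂˣ) × ℤ → ℂ := fun x =>
    ((ck n x.2 : ℝ) : ℂ) * Complex.exp (((-(2 * Real.pi * x.2 / R * t) : ℝ) : ℂ) * I) *
      (starRingEnd ℂ) (Ξ x 𝔟) with hAdef
  have hAn : ∀ x ∈ X, ‖A x‖ ≤ 1 := by
    intro x hx
    rw [hXdef, Finset.mem_product] at hx
    simp only [hAdef]
    rw [norm_mul, norm_mul, RCLike.norm_conj, hΞn x 𝔟 h𝔟, Complex.norm_exp_ofReal_mul_I, mul_one, mul_one]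
    exact ck_norm hx.2
  have hA0 : A (1, 0) = 1 := by
    simp only [hAdef]
    have h1 : Ξ (1, 0) 𝔟 = 1 := by
      change Ψ 0 𝔟 * ext 1 𝔟 = 1
      rw [hΨ0, triv_of_ne h𝔟, one_mul]
      have h2 := ext_apply (1 : ClassGroup (𝓞 K) →* ℂˣ) ⟨𝔟, mem_nonZeroDivisors_of_ne_zero h𝔟⟩
      rw [MonoidHom.one_apply, Units.val_one] at h2
      exact h2
    rw [h1]
    simp [ck]
  -- the sum over the tuples
  set N : ℝ := (S.card : ℝ) with hNdef
  have hN1 : 1 ≤ N := by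
    rw [hNdef]
    exact_mod_cast Finset.card_pos.mpr hSne
  have hNm : 0 < N ^ m := by positivity
  set P : (Fin m → S) → Ideal (𝓞 K) := fun f => ∏ j, (f j : Ideal (𝓞 K)) with hPdef
  have hP0 : ∀ f, P f ≠ ⊥ := by
    intro f
    rw [hPdef]
    change (∏ j, (f j : Ideal (𝓞 K))) ≠ 0
    rw [Finset.prod_ne_zero_iff]
    intro j _
    exact hS _ (f j).2
  have e1 : ∑ f : Fin m → S, ∑ x ∈ X, A x * Ξ x (P f) = ∑ x ∈ X, A x * (∑ 𝔮 ∈ S, Ξ x 𝔮) ^ m := by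
    rw [Finset.sum_comm]
    refine Finset.sum_congr rfl fun x _ => ?_
    rw [← Finset.mul_sum]
    congr 1
    rw [← Finset.sum_coe_sort S, Fintype.sum_pow]
    refine Finset.sum_congr rfl fun f _ => ?_
    rw [hPdef]
    exact map_prod (Ξ x) _ _
  have e2 : ‖∑ x ∈ X, A x * (∑ 𝔮 ∈ S, Ξ x 𝔮) ^ m - ((N ^ m : ℝ) : ℂ)‖ ≤ h * (2 * n + 1) * T ^ m := by
    have h1 : A (1, 0) * (∑ 𝔮 ∈ S, Ξ (1, 0) 𝔮) ^ m = ((N ^ m : ℝ) : ℂ) := by
      rw [hA0, one_mul]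
      have h2 : ∑ 𝔮 ∈ S, Ξ (1, 0) 𝔮 = (S.card : ℂ) := by
        rw [Finset.card_eq_sum_ones, Nat.cast_sum]
        refine Finset.sum_congr rfl fun 𝔮 h𝔮 => ?_
        change Ψ 0 𝔮 * ext 1 𝔮 = _
        rw [hΨ0, triv_of_ne (hS 𝔮 h𝔮), one_mul, Nat.cast_one]
        have h2 := ext_apply (1 : ClassGroup (𝓞 K) →* ℂˣ) ⟨𝔮, mem_nonZeroDivisors_of_ne_zero (hS 𝔮 h𝔮)⟩
        rw [MonoidHom.one_apply, Units.val_one] at h2
        exact h2
      rw [h2, hNdef]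
      push_cast
      rfl
    rw [← Finset.add_sum_erase X _ hX0, h1, add_sub_cancel_left]
    calc ‖∑ x ∈ X.erase (1, 0), A x * (∑ 𝔮 ∈ S, Ξ x 𝔮) ^ m‖
        ≤ ∑ x ∈ X.erase (1, 0), ‖A x * (∑ 𝔮 ∈ S, Ξ x 𝔮) ^ m‖ := norm_sum_le _ _
      _ ≤ ∑ x ∈ X.erase (1, 0), T ^ m := by
          refine Finset.sum_le_sum fun x hx => ?_
          rw [Finset.mem_erase] at hx
          rw [norm_mul, norm_pow]
          have h2 : ‖∑ 𝔮 ∈ S, Ξ x 𝔮‖ ≤ T := by
            refine hgap _ _ (hΞ x) ?_ ?_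
            · by_contra hcon
              obtain ⟨h3, h4⟩ := notNorm_asy hNNW hp hK hw (hΞ x) hcon
              apply hx.1
              have h5 : (x.2 : ℝ) = 0 := by
                have hpi := Real.pi_pos
                rw [div_eq_zero_iff] at h3
                rcases h3 with h3 | h3
                · rcases mul_eq_zero.mp h3 with h6 | h6
                  · linarith
                  · exact h6
                · linarith
              have h6 : x.2 = 0 := by exact_mod_cast h5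
              have h7 : x.1 = 1 := by
                apply char_one_of
                intro 𝔞 h𝔞
                have h8 := h4 𝔞 h𝔞
                change Ψ x.2 𝔞 * ext x.1 𝔞 = 1 at h8
                rw [h6, hΨ0, triv_of_ne h𝔞, one_mul] at h8
                exact h8
              exact Prod.ext h7 h6
            · intro v
              rw [hXdef, Finset.mem_product, Finset.mem_Icc] at hx
              have h3 : |(x.2 : ℝ)| ≤ n := by
                rw [abs_le]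
                constructor
                · exact_mod_cast hx.2.2.1
                · exact_mod_cast hx.2.2.2
              have h4 : |asy w (2 * Real.pi * x.2 / R) v| = 2 * Real.pi * |(x.2 : ℝ)| / R := by
                have h5 : |2 * Real.pi * (x.2 : ℝ) / R| = 2 * Real.pi * |(x.2 : ℝ)| / R := by
                  rw [abs_div, abs_mul, abs_of_pos hR, abs_of_pos (by positivity : 0 < 2 * Real.pi)]
                unfold asy
                split_ifs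
                · exact h5
                · rw [abs_neg]
                  exact h5
              rw [h4, div_le_iff₀ hR]
              have h5 : Real.pi ≤ 4 := Real.pi_le_four
              have h6 : 2 * Real.pi * |(x.2 : ℝ)| ≤ 8 * (n + 1) := by
                have h7 : 0 ≤ |(x.2 : ℝ)| := abs_nonneg _
                nlinarith [Real.pi_pos]
              have h7 : 8 * ((n : ℝ) + 1) ≤ 100 * (n + 1) * R := by nlinarith
              have h8 : 100 * ((n : ℝ) + 1) * R ≤ (4 * C₂ + C₂ * C₁ ^ 2 + 100) * (n + 1) * R := by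
                gcongr
                nlinarith [mul_pos hC₂ (pow_pos hC₁ 2)]
              linarith
          calc ‖A x‖ * ‖∑ 𝔮 ∈ S, Ξ x 𝔮‖ ^ m ≤ 1 * T ^ m := by
                gcongr
                exact hAn x hx.2
            _ = T ^ m := one_mul _
      _ = ((X.erase (1, 0)).card : ℝ) * T ^ m := by rw [Finset.sum_const, nsmul_eq_mul]
      _ ≤ (X.card : ℝ) * T ^ m := by
          gcongr
          exact Finset.erase_subset _ _
      _ = h * (2 * n + 1) * T ^ m := by rw [hXcard]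
  -- the dual side
  have e3 : ∀ f : Fin m → S, (∑ x ∈ X, A x * Ξ x (P f)).re ≤ h * (1 / (4 * (n + 1) * (d / R) ^ 2)) := by
    intro f
    set g : ClassGroup (𝓞 K) := ClassGroup.mk0 ⟨P f, mem_nonZeroDivisors_of_ne_zero (hP0 f)⟩ *
      (ClassGroup.mk0 ⟨𝔟, mem_nonZeroDivisors_of_ne_zero h𝔟⟩)⁻¹ with hg
    have h1 : ∑ x ∈ X, A x * Ξ x (P f) = (∑ k ∈ Finset.Icc (-(n : ℤ)) n, ((ck n k : ℝ) : ℂ) *
        Complex.exp (((-(2 * Real.pi * k / R * t) : ℝ) : ℂ) * I) * (Ψ k (P f) * (starRingEnd ℂ) (Ψ k 𝔟))) *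
        ∑ χ : ClassGroup (𝓞 K) →* ℂˣ, ((χ g : ℂˣ) : ℂ) := by
      rw [hXdef, Finset.sum_product, Finset.sum_mul_sum, Finset.sum_comm]
      refine Finset.sum_congr rfl fun k _ => ?_
      refine Finset.sum_congr rfl fun χ _ => ?_
      simp only [hAdef]
      have h2 : Ξ (χ, k) (P f) = Ψ k (P f) * ((χ (ClassGroup.mk0 ⟨P f, mem_nonZeroDivisors_of_ne_zero (hP0 f)⟩) : ℂˣ) : ℂ) := by
        change Ψ k (P f) * ext χ (P f) = _
        congr 1
        exact ext_apply χ ⟨P f, mem_nonZeroDivisors_of_ne_zero (hP0 f)⟩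
      have h3 : Ξ (χ, k) 𝔟 = Ψ k 𝔟 * ((χ (ClassGroup.mk0 ⟨𝔟, mem_nonZeroDivisors_of_ne_zero h𝔟⟩) : ℂˣ) : ℂ) := by
        change Ψ k 𝔟 * ext χ 𝔟 = _
        congr 1
        exact ext_apply χ ⟨𝔟, mem_nonZeroDivisors_of_ne_zero h𝔟⟩
      have h4 : ((χ g : ℂˣ) : ℂ) = ((χ (ClassGroup.mk0 ⟨P f, mem_nonZeroDivisors_of_ne_zero (hP0 f)⟩) : ℂˣ) : ℂ) *
          (starRingEnd ℂ) ((χ (ClassGroup.mk0 ⟨𝔟, mem_nonZeroDivisors_of_ne_zero h𝔟⟩) : ℂˣ) : ℂ) := by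
        rw [hg, map_mul, map_inv, Units.val_mul, Units.val_inv_eq_inv_val]
        congr 1
        rw [Complex.inv_def, Complex.normSq_eq_norm_sq, Pool.Agent.J4H74.GP.norm_char]
        simp
      rw [h2, h3, h4, map_mul]
      ring
    rw [h1, Pool.Agent.J4H74.GP.orth g]
    have hrhs : 0 ≤ h * (1 / (4 * (n + 1) * (d / R) ^ 2)) := by positivity
    by_cases hg1 : g = 1
    · rw [if_pos hg1]
      have h2 : ClassGroup.mk0 (⟨P f, mem_nonZeroDivisors_of_ne_zero (hP0 f)⟩ : nonZeroDivisors (Ideal (𝓞 K))) =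
          ClassGroup.mk0 ⟨𝔟, mem_nonZeroDivisors_of_ne_zero h𝔟⟩ := by
        rw [hg, mul_inv_eq_one] at hg1
        exact hg1
      rw [ClassGroup.mk0_eq_mk0_iff] at h2
      obtain ⟨a, b, ha, hb, hab⟩ := h2
      have hab' : Ideal.span {a} * P f = Ideal.span {b} * 𝔟 := hab
      have h3 : ∑ k ∈ Finset.Icc (-(n : ℤ)) n, ((ck n k : ℝ) : ℂ) *
          Complex.exp (((-(2 * Real.pi * k / R * t) : ℝ) : ℂ) * I) * (Ψ k (P f) * (starRingEnd ℂ) (Ψ k 𝔟)) =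
          fej n ((la w w' ((b : K) / (a : K)) - t) / R) := by
        unfold fej
        refine Finset.sum_congr rfl fun k _ => ?_
        rw [pair_val hw hpl (hΨ k) (hΨn k 𝔟 h𝔟) ha hb hab', mul_assoc, ← Complex.exp_add]
        unfold ck
        congr 2
        push_cast
        have : (R : ℂ) ≠ 0 := by exact_mod_cast hR.ne'
        field_simp
        ring
      rw [h3]
      have h4 := hFEJ n ((la w w' ((b : K) / (a : K)) - t) / R)
      have h5 := h4.2.2 (d / R) (by positivity) (fun j => far_of_not_hit hR hu₀ hno (fun j => (f j : Ideal (𝓞 K)))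
        (fun j => (f j).2) ha hb hab' j)
      rw [Complex.mul_re]
      have h6 : ((Nat.card (ClassGroup (𝓞 K)) : ℂ)).re = h := by simp [hhdef]
      have h7 : ((Nat.card (ClassGroup (𝓞 K)) : ℂ)).im = 0 := by simp
      rw [h6, h7, mul_zero, sub_zero, mul_comm]
      gcongr
    · rw [if_neg hg1, mul_zero, Complex.zero_re]
      exact hrhs
  -- conclusion
  have hcardF : (Fintype.card (Fin m → S) : ℝ) = N ^ m := by
    rw [Fintype.card_fun, Fintype.card_fin, Fintype.card_coe]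
    push_cast
    rfl
  have e4 : (∑ f : Fin m → S, ∑ x ∈ X, A x * Ξ x (P f)).re ≤ N ^ m * (h * (1 / (4 * (n + 1) * (d / R) ^ 2))) := by
    rw [Complex.re_sum]
    calc ∑ f : Fin m → S, (∑ x ∈ X, A x * Ξ x (P f)).re
        ≤ ∑ _f : Fin m → S, h * (1 / (4 * (n + 1) * (d / R) ^ 2)) := Finset.sum_le_sum fun f _ => e3 f
      _ = N ^ m * (h * (1 / (4 * (n + 1) * (d / R) ^ 2))) := by
          rw [Finset.sum_const, nsmul_eq_mul, Finset.card_univ, hcardF]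
  have e5 : N ^ m - h * (2 * n + 1) * T ^ m ≤ (∑ f : Fin m → S, ∑ x ∈ X, A x * Ξ x (P f)).re := by
    rw [e1]
    have h1 := Complex.abs_re_le_norm (∑ x ∈ X, A x * (∑ 𝔮 ∈ S, Ξ x 𝔮) ^ m - ((N ^ m : ℝ) : ℂ))
    rw [Complex.sub_re, Complex.ofReal_re] at h1
    have h2 := (abs_le.mp (h1.trans e2)).1
    linarith
  have hh : h ≤ C₂ * (p : ℝ) ^ 2 := hHB p K hp hK
  have hp0 : 0 < (p : ℝ) := by exact_mod_cast hp.pos
  have hTm : 0 ≤ T ^ m := by positivity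
  have e6 : h * (2 * n + 1) * T ^ m ≤ N ^ m / 2 := by
    have h1 : h * (2 * n + 1) * T ^ m ≤ (C₂ * (p : ℝ) ^ 2) * (2 * (n + 1)) * T ^ m := by
      gcongr
      linarith
    have h2 : 4 * C₂ * (n + 1) * (p : ℝ) ^ 2 * T ^ m ≤
        (4 * C₂ + C₂ * C₁ ^ 2 + 100) * (n + 1) * (p : ℝ) ^ 2 * T ^ m := by
      gcongr
      nlinarith [mul_pos hC₂ (pow_pos hC₁ 2)]
    nlinarith
  have e7 : h * (1 / (4 * (n + 1) * (d / R) ^ 2)) ≤ 1 / 4 := by
    have h1 : h * (1 / (4 * (n + 1) * (d / R) ^ 2)) = h * R ^ 2 / (4 * ((n + 1) * d ^ 2)) := by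
      field_simp
    have hpos : 0 < ((n : ℝ) + 1) * d ^ 2 := by positivity
    rw [h1, div_le_iff₀ (by positivity)]
    have h2 : h * R ^ 2 ≤ (C₂ * (p : ℝ) ^ 2) * (C₁ * (p : ℝ) ^ 4) ^ 2 := by
      gcongr
    have h3 : (C₂ * (p : ℝ) ^ 2) * (C₁ * (p : ℝ) ^ 4) ^ 2 = C₂ * C₁ ^ 2 * (p : ℝ) ^ 10 := by ring
    have h4 : C₂ * C₁ ^ 2 * (p : ℝ) ^ 10 ≤ (4 * C₂ + C₂ * C₁ ^ 2 + 100) * (p : ℝ) ^ 10 := by
      gcongr
      linarith
    linarith
  have e8 : N ^ m * (h * (1 / (4 * (n + 1) * (d / R) ^ 2))) ≤ N ^ m * (1 / 4) := by gcongr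
  linarith

end Pool.Agent.J4H78.HG
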