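import Pool.Agent.J4H78.HG.Stm3
import Pool.Agent.J4H78.HG.Den

/-!
# Project HG3: CLS
-/

set_option autoImplicit false

open NumberField Complex

namespace Pool.Agent.J4H78.HG

open Pool.Agent.J4H78.GP (QD S_HB)
open Pool.Agent.J4H21.GP (ext ext_apply)
open Pool.Agent.J4H57.GP (triv triv_of_ne isCl_ext)

theorem t_CLS : S_NNW → S_CLS := by
  intro hNNW p K _ _ hp hK S hS m T hT hgap 𝔟 h𝔟
  classical
  set c : ↥(S : Set (Ideal (𝓞 K))) → ClassGroup (𝓞 K) := fun 𝔮 =>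
    ClassGroup.mk0 ⟨(𝔮 : Ideal (𝓞 K)), mem_nonZeroDivisors_of_ne_zero (hS _ 𝔮.2)⟩ with hc
  have h1 : ∀ χ : ClassGroup (𝓞 K) →* ℂˣ, χ ≠ 1 → ‖∑ i, ((χ (c i) : ℂˣ) : ℂ)‖ ≤ T := by
    intro χ hχ
    have h2 : ∑ i, ((χ (c i) : ℂˣ) : ℂ) = ∑ 𝔮 ∈ S, ext χ 𝔮 := by
      rw [← Finset.sum_coe_sort S]
      refine Fintype.sum_equiv (Equiv.refl _) _ _ fun 𝔮 => ?_
      exact (ext_apply χ ⟨(𝔮 : Ideal (𝓞 K)), mem_nonZeroDivisors_of_ne_zero (hS _ 𝔮.2)⟩).symm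
    rw [h2]
    have h3 : IsHk K (fun _ => 0) (ext χ) := by
      intro x hx
      rw [isCl_ext χ x hx]
      unfold pw
      simp
    refine hgap (fun _ => 0) (ext χ) h3 ?_ (fun v => by simp)
    by_contra hcon
    obtain ⟨t, ht, h4⟩ := hNNW p K hp hK _ _ h3 hcon
    apply hχ
    apply char_one_of
    intro 𝔞 h𝔞
    rw [h4 𝔞 h𝔞]
    obtain ⟨v⟩ : Nonempty (InfinitePlace K) := inferInstance
    rw [← ht v]
    simp
  have h2 := Pool.Agent.J4H74.GP.mix_core (ClassGroup (𝓞 K)) (S : Set (Ideal (𝓞 K))) c T hT h1 m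
    (ClassGroup.mk0 ⟨𝔟, mem_nonZeroDivisors_of_ne_zero h𝔟⟩)
  have h3 : (Fintype.card (S : Set (Ideal (𝓞 K))) : ℝ) = (S.card : ℝ) := by
    simp
  rw [h3] at h2
  have h4 : cls (S : Set (Ideal (𝓞 K))) m 𝔟 = Nat.card {f : Fin m → (S : Set (Ideal (𝓞 K))) //
      ∏ j, c (f j) = ClassGroup.mk0 ⟨𝔟, mem_nonZeroDivisors_of_ne_zero h𝔟⟩} := by
    unfold cls
    refine Nat.card_congr (Equiv.subtypeEquivRight fun f => ?_)
    have h5 : ∏ j, c (f j) = ClassGroup.mk0 (∏ j, (⟨(f j : Ideal (𝓞 K)),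
        mem_nonZeroDivisors_of_ne_zero (hS _ (f j).2)⟩ : nonZeroDivisors (Ideal (𝓞 K)))) := by
      rw [map_prod]
    rw [h5, ClassGroup.mk0_eq_mk0_iff]
    have h6 : ((∏ j, (⟨(f j : Ideal (𝓞 K)),
        mem_nonZeroDivisors_of_ne_zero (hS _ (f j).2)⟩ : nonZeroDivisors (Ideal (𝓞 K))) :
          nonZeroDivisors (Ideal (𝓞 K))) : Ideal (𝓞 K)) = ∏ j, (f j : Ideal (𝓞 K)) := by
      rw [Submonoid.coe_finsetProd]
    rw [h6]
    constructor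
    · rintro ⟨a, b, ha, hb, h⟩
      exact ⟨a, b, ha, hb, h⟩
    · rintro ⟨a, b, ha, hb, h⟩
      exact ⟨a, b, ha, hb, h⟩
  rw [h4]
  exact h2

end Pool.Agent.J4H78.HG
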