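import Pool.Agent.J4H78.HG.Stm4
import Pool.Agent.J4H4.HG.Fn4

/-! Project HG4 (helper78), piece FN6: equidistribution of the products of small primes in the Arakelov class
group, for almost all primes, for all sizes `y` (after `Pool.Agent.J4H80.HG.Fn5` of helper80 and
`Pool.Agent.J4H4.HG.Fn4` of helper4). -/

set_option autoImplicit false

open NumberField Complex Filter Topology MeasureTheory

namespace Pool.Agent.J4H78.HG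

open Pool.Agent.J4H78.GP (QD Spl S_LOW2 S_SPL S_HB Dense dense_univ)
open Pool.Agent.J4H4.HG (SmI_finite card_SmI)

lemma eqdY_of {C₀ : ℝ} (hC₀ : 0 < C₀)
    (hD : ∀ (p : ℕ) (K : Type) [Field K] [NumberField K], p.Prime → QD p K →
      ∀ w w' : InfinitePlace K, w ≠ w' → ∀ R : ℝ, IsReg w w' R → ∀ (S : Finset (Ideal (𝓞 K))), (∀ 𝔮 ∈ S, 𝔮 ≠ ⊥) →
      S.Nonempty → ∀ (n m : ℕ) (T d : ℝ), 0 ≤ T → 0 < d → d ≤ 1 / 10 → Bdd S (C₀ * (n + 1)) T →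
        C₀ * (p : ℝ) ^ 15 ≤ (n + 1) * d ^ 3 → C₀ * (n + 1) * (p : ℝ) ^ 7 * T ^ m ≤ d * (S.card : ℝ) ^ m →
        ∀ 𝔟 : Ideal (𝓞 K), 𝔟 ≠ ⊥ → ∀ t l : ℝ, d ≤ l → l ≤ R →
          |(Nat.card (ClassGroup (𝓞 K)) : ℝ) * R * cnt w w' (S : Set (Ideal (𝓞 K))) m 𝔟 t l -
            (S.card : ℝ) ^ m * l| ≤ (S.card : ℝ) ^ m * l / p)
    (hSPL : S_SPL) {A η c C B₀ : ℝ} {p : ℕ} (hp : p.Prime) (hB₀ : 0 < B₀)
    (hA : 0 < A) (hη : 0 < η) (hη1 : η < 1)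
    (hCH : C₀ * (C₀ + 2) ≤ p) (hlog : 1 < Real.log p)
    (hd10 : (p : ℝ) ^ (-B₀) ≤ 1 / 10) (hC : 2 * (23 + 4 * B₀) / η ≤ C) (hGH : GH (16 + 3 * B₀) Set.univ A η c p)
    (hlow : ∀ y : ℝ, (Real.log p) ^ A ≤ y → y ≤ (p : ℝ) ^ c → y ^ (1 - η / 2) ≤
      (({q : ℕ | q ∈ (Set.univ : Set ℕ) ∧ Spl p q ∧ (q : ℝ) ≤ y}.ncard : ℕ) : ℝ)) :
    EqdY A c C B₀ p := by
  intro K _ _ hK w w' hww R hR B hyB hrange
  have hlog0 : 0 < Real.log p := by linarith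
  have hB1' : 1 < B := lt_of_lt_of_le (Real.one_lt_rpow hlog hA) hyB
  have hB0 : 0 < B := by linarith
  have hB1 : 1 ≤ B := hB1'.le
  have hp1 : (1 : ℝ) < p := by exact_mod_cast hp.one_lt
  have hp0 : (0 : ℝ) < p := by linarith
  have hll : 0 < Real.log B := Real.log_pos hB1'
  obtain ⟨S, hS⟩ : ∃ S : Finset (Ideal (𝓞 K)), S = (SmI_finite Set.univ K B).toFinset := ⟨_, rfl⟩
  have hScoe : (S : Set (Ideal (𝓞 K))) = SmI Set.univ K B := by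
    rw [hS]
    simp
  have hNB : B ^ (1 - η / 2) ≤ (S.card : ℝ) := by
    refine (hlow B hyB hrange).trans ?_
    rw [hS]
    exact_mod_cast card_SmI hSPL hp hK B
  have hN1 : (1 : ℝ) ≤ S.card := (Real.one_le_rpow hB1 (by linarith)).trans hNB
  have hSne : S.Nonempty := by
    rw [← Finset.card_pos]
    exact_mod_cast (by linarith : (0 : ℝ) < S.card)
  have hSb : ∀ 𝔮 ∈ S, 𝔮 ≠ ⊥ := by
    intro 𝔮 h𝔮 h0
    have h1 : 𝔮 ∈ SmI Set.univ K B := by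
      rw [← hScoe]
      exact h𝔮
    have h2 : (Ideal.absNorm 𝔮).Prime := h1.1
    rw [h0, Ideal.absNorm_bot] at h2
    exact Nat.not_prime_zero h2
  obtain ⟨n, hn⟩ : ∃ n : ℕ, n = ⌈C₀ * (p : ℝ) ^ (15 + 3 * B₀)⌉₊ := ⟨_, rfl⟩
  have hpow1 : (1 : ℝ) ≤ (p : ℝ) ^ (15 + 3 * B₀) := Real.one_le_rpow hp1.le (by linarith)
  have hn1 : C₀ * (p : ℝ) ^ (15 + 3 * B₀) ≤ n + 1 := by
    rw [hn]
    have := Nat.le_ceil (C₀ * (p : ℝ) ^ (15 + 3 * B₀))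
    linarith
  have hn2 : (n : ℝ) + 1 ≤ (C₀ + 2) * (p : ℝ) ^ (15 + 3 * B₀) := by
    rw [hn]
    have := (Nat.ceil_lt_add_one (show 0 ≤ C₀ * (p : ℝ) ^ (15 + 3 * B₀) by positivity)).le
    nlinarith
  have hn3 : C₀ * ((n : ℝ) + 1) ≤ (p : ℝ) ^ (16 + 3 * B₀) := by
    calc C₀ * ((n : ℝ) + 1) ≤ C₀ * ((C₀ + 2) * (p : ℝ) ^ (15 + 3 * B₀)) := by gcongr
      _ = C₀ * (C₀ + 2) * (p : ℝ) ^ (15 + 3 * B₀) := by ring
      _ ≤ p * (p : ℝ) ^ (15 + 3 * B₀) := by gcongr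
      _ = (p : ℝ) ^ (16 + 3 * B₀) := by
        rw [show 16 + 3 * B₀ = 1 + (15 + 3 * B₀) by ring, Real.rpow_add hp0 1 (15 + 3 * B₀), Real.rpow_one]
  rw [← hScoe]
  refine ⟨by exact_mod_cast hSne, fun m hm 𝔟 h𝔟 t l hl hlR => ?_⟩
  have hcd : (Nat.card (S : Set (Ideal (𝓞 K))) : ℝ) = (S.card : ℝ) := by
    rw [Nat.card_coe_set_eq, Set.ncard_coe_finset]
  rw [hcd]
  refine hD p K hp hK w w' hww R hR S hSb hSne n m (B ^ (1 - η)) ((p : ℝ) ^ (-B₀)) (by positivity)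
    (by positivity) hd10 ?_ ?_ ?_ 𝔟 h𝔟 t l hl hlR
  · intro μ ψ hψ hnn hμ
    have h1 := hGH K hK μ (fun v => (hμ v).trans hn3) ψ hψ hnn B hyB hrange
    rw [finsum_mem_eq_finite_toFinset_sum _ (SmI_finite Set.univ K B)] at h1
    rw [hS]
    exact h1
  · have h6 : ((p : ℝ) ^ (-B₀)) ^ 3 = (p : ℝ) ^ (-(3 * B₀)) := by
      rw [← Real.rpow_natCast, ← Real.rpow_mul hp0.le]
      congr 1
      push_cast
      ring
    rw [h6]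
    calc C₀ * (p : ℝ) ^ 15 = C₀ * (p : ℝ) ^ (15 + 3 * B₀) * (p : ℝ) ^ (-(3 * B₀)) := by
          rw [mul_assoc, ← Real.rpow_add hp0, ← Real.rpow_natCast (p : ℝ) 15]
          congr 2
          push_cast
          ring
      _ ≤ ((n : ℝ) + 1) * (p : ℝ) ^ (-(3 * B₀)) := by gcongr
  · have hq : (p : ℝ) ^ (23 + 4 * B₀) ≤ (B ^ (η / 2)) ^ m := by
      have h1 : (p : ℝ) ^ (23 + 4 * B₀) = Real.exp ((23 + 4 * B₀) * Real.log p) := by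
        rw [Real.rpow_def_of_pos hp0, mul_comm]
      have h2 : (B ^ (η / 2)) ^ m = Real.exp (Real.log B * (η / 2) * m) := by
        rw [← Real.rpow_natCast, ← Real.rpow_mul hB0.le, Real.rpow_def_of_pos hB0]
        ring_nf
      rw [h1, h2, Real.exp_le_exp]
      have h3 : 2 * (23 + 4 * B₀) / η * Real.log p / Real.log B ≤ m := by
        refine le_trans ?_ hm
        gcongr
      rw [div_mul_eq_mul_div, div_div, div_le_iff₀ (by positivity)] at h3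
      nlinarith
    have hpow : (B ^ (1 - η)) ^ m * (B ^ (η / 2)) ^ m ≤ (S.card : ℝ) ^ m := by
      rw [← mul_pow, ← Real.rpow_add hB0]
      refine pow_le_pow_left₀ (by positivity) ?_ m
      rw [show 1 - η + η / 2 = 1 - η / 2 by ring]
      exact hNB
    have h5 : C₀ * ((n : ℝ) + 1) * (p : ℝ) ^ 7 ≤ (p : ℝ) ^ (-B₀) * (p : ℝ) ^ (23 + 4 * B₀) := by
      calc C₀ * ((n : ℝ) + 1) * (p : ℝ) ^ 7 ≤ (p : ℝ) ^ (16 + 3 * B₀) * (p : ℝ) ^ 7 := by gcongr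
        _ = (p : ℝ) ^ (-B₀) * (p : ℝ) ^ (23 + 4 * B₀) := by
          rw [← Real.rpow_natCast (p : ℝ) 7, ← Real.rpow_add hp0, ← Real.rpow_add hp0]
          congr 1
          push_cast
          ring
    have hpB : 0 < (p : ℝ) ^ (-B₀) := Real.rpow_pos_of_pos hp0 _
    calc C₀ * ((n : ℝ) + 1) * (p : ℝ) ^ 7 * (B ^ (1 - η)) ^ m
        ≤ ((p : ℝ) ^ (-B₀) * (p : ℝ) ^ (23 + 4 * B₀)) * (B ^ (1 - η)) ^ m := by gcongr
      _ ≤ ((p : ℝ) ^ (-B₀) * (B ^ (η / 2)) ^ m) * (B ^ (1 - η)) ^ m := by gcongr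
      _ = (p : ℝ) ^ (-B₀) * ((B ^ (1 - η)) ^ m * (B ^ (η / 2)) ^ m) := by ring
      _ ≤ (p : ℝ) ^ (-B₀) * (S.card : ℝ) ^ m := by gcongr

theorem t_FN6 : S_EQ1 → S_GAH → S_LOWY → S_SPL → S_FN6 := by
  intro hDEN hGAH hLOW hSPL
  intro δ B₀ hδ hB₀
  obtain ⟨C₀, hC₀, hD⟩ := hDEN
  obtain ⟨A₁, η, c₁, C₁, hA₁, hη, hη1, hc₁, hC₁, hG⟩ := hGAH δ (16 + 3 * B₀) hδ (by linarith)
  obtain ⟨A₀, C₂, hA₀, hC₂, hL⟩ := hLOW δ (η / 2) hδ (by linarith) (by linarith)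
  set A : ℝ := max A₁ A₀ with hA
  set c : ℝ := min c₁ 1 with hc
  have hc0 : 0 < c := lt_min hc₁ one_pos
  have hA1 : 1 ≤ A := hA₁.trans (le_max_left _ _)
  have hA0 : 0 < A := by linarith
  -- large primes
  obtain ⟨p₀, hp₀⟩ : ∃ p₀ : ℕ, ∀ p : ℕ, p₀ ≤ p → 1 < Real.log p ∧ C₀ * (C₀ + 2) ≤ p ∧
      (p : ℝ) ^ (-B₀) ≤ 1 / 10 := by
    have h1 : ∀ᶠ p : ℕ in atTop, 1 < Real.log p :=
      (Real.tendsto_log_atTop.comp tendsto_natCast_atTop_atTop).eventually_gt_atTop 1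
    have h2 : ∀ᶠ p : ℕ in atTop, C₀ * (C₀ + 2) ≤ (p : ℝ) :=
      tendsto_natCast_atTop_atTop.eventually_ge_atTop _
    have h6 : ∀ᶠ p : ℕ in atTop, (p : ℝ) ^ (-B₀) ≤ 1 / 10 :=
      ((tendsto_rpow_neg_atTop hB₀).comp tendsto_natCast_atTop_atTop).eventually
        (ge_mem_nhds (by norm_num : (0 : ℝ) < 1 / 10))
    exact eventually_atTop.mp (h1.and (h2.and h6))
  set C : ℝ := p₀ + C₁ + C₂ + 2 * (23 + 4 * B₀) / η with hCdef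
  have hC0 : 0 < C := by positivity
  refine ⟨A, c, C, hA0, hc0, hC0, fun x hx => ?_⟩
  have hx1 : (1 : ℝ) ≤ x := by exact_mod_cast hx
  have hxδ : (1 : ℝ) ≤ (x : ℝ) ^ δ := Real.one_le_rpow hx1 hδ.le
  have hpc : ∀ p : ℕ, p.Prime → (p : ℝ) ^ c ≤ (p : ℝ) ^ c₁ ∧ (p : ℝ) ^ c ≤ p := by
    intro p hp
    have h1 : (1 : ℝ) ≤ p := by exact_mod_cast hp.one_lt.le
    refine ⟨Real.rpow_le_rpow_of_exponent_le h1 (min_le_left _ _), ?_⟩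
    calc (p : ℝ) ^ c ≤ (p : ℝ) ^ (1 : ℝ) := Real.rpow_le_rpow_of_exponent_le h1 (min_le_right _ _)
      _ = p := Real.rpow_one _
  have hGA : ∀ p : ℕ, p.Prime → p₀ ≤ p → GH (16 + 3 * B₀) Set.univ A₁ η c₁ p →
      GH (16 + 3 * B₀) Set.univ A η c p := by
    intro p hpp hp h K _ _ hK μ hμ ψ h1 h2 y hy hy2
    refine h K hK μ hμ ψ h1 h2 y (le_trans ?_ hy) (hy2.trans (hpc p hpp).1)
    exact Real.rpow_le_rpow_of_exponent_le (hp₀ p hp).1.le (le_max_left _ _)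
  have hfin1 : {p : ℕ | p.Prime ∧ p ≤ x ∧ ¬ GH (16 + 3 * B₀) Set.univ A₁ η c₁ p}.Finite :=
    (Set.finite_Iic x).subset fun p hp => hp.2.1
  have hfin0 : (Set.Iio p₀ : Set ℕ).Finite := Set.finite_Iio p₀
  have hcard0 : (Set.Iio p₀ : Set ℕ).ncard = p₀ := by
    rw [← Finset.coe_Iio, Set.ncard_coe_finset, Nat.card_Iio]
  have hfin2 : {p : ℕ | p ≤ x ∧ p.Prime ∧ ∃ y : ℝ, (Real.log p) ^ A₀ ≤ y ∧ y ≤ p ∧
      (({q : ℕ | Spl p q ∧ (q : ℝ) ≤ y}.ncard : ℕ) : ℝ) < y ^ (1 - η / 2)}.Finite :=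
    (Set.finite_Iic x).subset fun p hp => hp.1
  have hp₀x : (p₀ : ℝ) ≤ p₀ * (x : ℝ) ^ δ := le_mul_of_one_le_right (Nat.cast_nonneg _) hxδ
  have hG' := hG Set.univ x hx
  have hxpos : 0 < (x : ℝ) ^ δ := by linarith
  have hL3 := hL x hx
  have hsub : {p : ℕ | p.Prime ∧ p ≤ x ∧ ¬ EqdY A c C B₀ p} ⊆
      ((Set.Iio p₀ : Set ℕ) ∪ {p : ℕ | p.Prime ∧ p ≤ x ∧ ¬ GH (16 + 3 * B₀) Set.univ A₁ η c₁ p}) ∪
        {p : ℕ | p ≤ x ∧ p.Prime ∧ ∃ y : ℝ, (Real.log p) ^ A₀ ≤ y ∧ y ≤ p ∧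
        (({q : ℕ | Spl p q ∧ (q : ℝ) ≤ y}.ncard : ℕ) : ℝ) < y ^ (1 - η / 2)} := by
    intro p hp
    by_cases h1 : p < p₀
    · exact Or.inl (Or.inl h1)
    · by_cases h2 : GH (16 + 3 * B₀) Set.univ A₁ η c₁ p
      · by_cases h3 : ∃ y : ℝ, (Real.log p) ^ A₀ ≤ y ∧ y ≤ p ∧
            (({q : ℕ | Spl p q ∧ (q : ℝ) ≤ y}.ncard : ℕ) : ℝ) < y ^ (1 - η / 2)
        · exact Or.inr ⟨hp.2.1, hp.1, h3⟩
        · exfalso
          apply hp.2.2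
          obtain ⟨g1, g2, g4⟩ := hp₀ p (not_lt.mp h1)
          refine eqdY_of hC₀ hD hSPL hp.1 hB₀ hA0 hη hη1 g2 g1 g4 ?_
            (hGA p hp.1 (not_lt.mp h1) h2) ?_
          · rw [hCdef]
            have : 0 ≤ (p₀ : ℝ) + C₁ + C₂ := by positivity
            linarith
          · intro y hy hy2
            by_contra hcon
            apply h3
            refine ⟨y, le_trans ?_ hy, hy2.trans (hpc p hp.1).2, ?_⟩
            · exact Real.rpow_le_rpow_of_exponent_le g1.le (le_max_right _ _)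
            · have h4 := not_le.mp hcon
              have h5 : {q : ℕ | q ∈ (Set.univ : Set ℕ) ∧ Spl p q ∧ (q : ℝ) ≤ y} =
                  {q : ℕ | Spl p q ∧ (q : ℝ) ≤ y} := by
                ext q
                simp
              rw [h5] at h4
              exact h4
      · exact Or.inl (Or.inr ⟨hp.1, hp.2.1, h2⟩)
  have h1 := (Set.ncard_le_ncard hsub ((hfin0.union hfin1).union hfin2)).trans
    ((Set.ncard_union_le _ _).trans (Nat.add_le_add_right (Set.ncard_union_le _ _) _))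
  rw [hcard0] at h1
  calc ({p : ℕ | p.Prime ∧ p ≤ x ∧ ¬ EqdY A c C B₀ p}.ncard : ℝ)
      ≤ (p₀ : ℝ) + ({p : ℕ | p.Prime ∧ p ≤ x ∧ ¬ GH (16 + 3 * B₀) Set.univ A₁ η c₁ p}.ncard : ℝ) +
        ({p : ℕ | p ≤ x ∧ p.Prime ∧ ∃ y : ℝ, (Real.log p) ^ A₀ ≤ y ∧ y ≤ p ∧
        (({q : ℕ | Spl p q ∧ (q : ℝ) ≤ y}.ncard : ℕ) : ℝ) < y ^ (1 - η / 2)}.ncard : ℝ) := by
        exact_mod_cast h1
    _ ≤ p₀ * (x : ℝ) ^ δ + C₁ * (x : ℝ) ^ δ + C₂ * (x : ℝ) ^ δ :=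
        add_le_add (add_le_add hp₀x hG') hL3
    _ ≤ C * (x : ℝ) ^ δ := by
        rw [hCdef]
        have h2 : 0 ≤ (2 * (23 + 4 * B₀) / η) * (x : ℝ) ^ δ := by positivity
        linarith

end Pool.Agent.J4H78.HG
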