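import Pool.Agent.J4H78.HG.Stm4
import Pool.Agent.J4H2.GP.Low2
import Pool.Agent.J4H78.GP.Dens

/-!
# Project HG4: LOWY (after `Pool.Agent.J4H2.GP.Low2` of helper2 and `Pool.Agent.J4H21.GP.Low` of helper21)
-/

set_option autoImplicit false
set_option linter.unusedVariables false

open Filter Topology
open Pool.Agent.J4H78.GP (Spl)
open Pool.Agent.H38R2.CG (PP IsFund)

namespace Pool.Agent.J4H78.HG

open Classical in
/-- the bound for large `x` and all `y` -/
lemma main_y {d κ A : ℝ} (hd : 0 < d) (hd1 : d ≤ 1) (hκ1 : κ < 1)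
    (hκ0 : 0 < κ) (hA1 : 1 ≤ A) (hAd : 13 / A + 6 * κ ≤ d) :
    ∃ C : ℝ, 0 < C ∧ ∃ x₀ : ℕ, ∀ x : ℕ, x₀ ≤ x → ∀ y : ℕ, (d * Real.log x) ^ A / 4 ≤ y → y ≤ x →
      (y : ℝ) ^ (1 - κ) ≤ ((PP y).card : ℝ) ∧
      (({p ∈ Finset.Icc 1 x | p.Prime ∧
        ((100 : ℝ) * ({q ∈ (PP y : Set ℕ) | Spl p q}.ncard : ℝ) < (PP y).card)} : Finset ℕ).card : ℝ) ≤
        C * (x : ℝ) ^ d := by
  obtain ⟨C₁, hC₁, y₁, hlow⟩ := Pool.Agent.N614.SP.t_LOW
  obtain ⟨y₂, hP2⟩ := Pool.Agent.J4H78.GP.dense_univ hκ0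
  have hA0 : 0 < A := by linarith
  have hlogN : Tendsto (fun x : ℕ => Real.log (x : ℝ)) atTop atTop :=
    Real.tendsto_log_atTop.comp tendsto_natCast_atTop_atTop
  have hyN : Tendsto (fun x : ℕ => (d * Real.log (x : ℝ)) ^ A / 4) atTop atTop :=
    ((tendsto_rpow_atTop hA0).comp (hlogN.const_mul_atTop hd)).atTop_div_const (by norm_num)
  have hκη : κ < (1 + κ) / 2 := by linarith
  have hη1 : (1 + κ) / 2 < 1 := by linarith
  have hev := (hlogN.eventually (Pool.Agent.J4H21.GP.params hA1)).and ((hyN.eventually (eventually_ge_atTop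
    (((max (max y₁ y₂) 2 : ℕ)) : ℝ))).and ((hlogN.eventually
      (Pool.Agent.J4H2.GP.params2 (η := (1 + κ) / 2) hA1 hd hκη)).and (eventually_ge_atTop 2)))
  obtain ⟨x₀, hx₀⟩ := eventually_atTop.mp hev
  refine ⟨C₁, hC₁, x₀, fun x hx y hyge hyx => ?_⟩
  obtain ⟨⟨e1, e2, e3, e4, e5, e6, e7, -, -, e10⟩, hy', ⟨f1, f2, f3⟩, hx2⟩ := hx₀ x hx
  obtain ⟨L, hL⟩ : ∃ L : ℝ, L = Real.log (x : ℝ) := ⟨_, rfl⟩
  rw [← hL] at e1 e2 e3 e4 e5 e6 e7 e10 hy' f1 f2 f3 hyge
  have hy : max (max y₁ y₂) 2 ≤ y := by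
    have := hy'.trans hyge
    exact_mod_cast this
  have hy1 : y₁ ≤ y := (le_max_left _ _).trans ((le_max_left _ _).trans hy)
  have hy2 : y₂ ≤ y := (le_max_right _ _).trans ((le_max_left _ _).trans hy)
  have hy3 : 2 ≤ y := (le_max_right _ _).trans hy
  have hL0 : 0 < L := by linarith
  have hLA : 0 < L ^ A := Real.rpow_pos_of_pos hL0 _
  have hy3' : (2 : ℝ) ≤ y := by exact_mod_cast hy3
  have hy0 : (0 : ℝ) < y := by linarith
  have hx1 : (2 : ℝ) ≤ x := by exact_mod_cast hx2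
  have hlogyx : Real.log y ≤ L := by
    rw [hL]
    exact Real.log_le_log hy0 (by exact_mod_cast hyx)
  have hlogy0 : 0 ≤ Real.log y := Real.log_nonneg (by linarith)
  have hQc : (y : ℝ) ^ (1 - κ) ≤ ((PP y).card : ℝ) := by
    refine (hP2 y hy2).trans (le_of_eq ?_)
    congr 2
    unfold Pool.Agent.H38R2.CG.PP
    ext q
    simp
  have hQmem : ∀ q ∈ PP y, q.Prime ∧ y < q ∧ q ≤ 2 * y := by
    intro q hq
    unfold Pool.Agent.H38R2.CG.PP at hq
    rw [Finset.mem_filter, Finset.mem_Ioc] at hq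
    exact ⟨hq.2, hq.1⟩
  have hone : (1 : ℝ) ≤ (L ^ A) ^ (1 - (1 + κ) / 2) := Real.one_le_rpow (by linarith) (by linarith)
  have hQcard : (35 : ℝ) ≤ ((PP y).card : ℝ) := by
    have h1 : ((d * L) ^ A / 4) ^ (1 - κ) ≤ (y : ℝ) ^ (1 - κ) :=
      Real.rpow_le_rpow (by positivity) hyge (by linarith)
    linarith
  have hQpos : (0 : ℝ) < ((PP y).card : ℝ) := by linarith
  refine ⟨hQc, ?_⟩
  have hlog2y : A / 2 * Real.log L ≤ Real.log (2 * y) := by
    rw [← Real.log_rpow hL0]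
    apply Real.log_le_log (Real.rpow_pos_of_pos hL0 _)
    linarith
  have hlL : 0 < Real.log L := by linarith
  have hlog2y0 : 0 < Real.log (2 * y) := lt_of_lt_of_le (by positivity) hlog2y
  obtain ⟨i, hi⟩ : ∃ i : ℕ, i = ⌈2 * Real.log (8 * x) / Real.log (2 * y)⌉₊ := ⟨_, rfl⟩
  have hlog8x : Real.log (8 * x) = Real.log 8 + L := by
    rw [Real.log_mul (by norm_num) (by linarith), hL]
  have hlog8 : 0 < Real.log 8 := Real.log_pos (by norm_num)
  have hi1 : 1 ≤ i := by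
    rw [hi, Nat.one_le_ceil_iff, hlog8x]
    positivity
  have hi2 := Nat.ceil_lt_add_one (a := 2 * Real.log (8 * x) / Real.log (2 * y)) (by
      rw [hlog8x]; positivity)
  rw [← hi] at hi2
  have hile : (i : ℝ) ≤ 6 * L / (A * Real.log L) := by
    have h2 : 2 * Real.log (8 * x) / Real.log (2 * y) ≤ 5 * L / (A * Real.log L) := by
      rw [hlog8x]
      calc 2 * (Real.log 8 + L) / Real.log (2 * y) ≤ (5 / 2 * L) / (A / 2 * Real.log L) :=
            div_le_div₀ (by positivity) (by linarith) (by positivity) hlog2y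
        _ = 5 * L / (A * Real.log L) := by field_simp
    have h3 : 6 * L / (A * Real.log L) = 5 * L / (A * Real.log L) + L / (A * Real.log L) := by
      ring
    linarith
  have hily : (i : ℝ) * Real.log y ≤ 6 * L := by
    have h1 : (i : ℝ) * Real.log y ≤ (2 * Real.log (8 * x) / Real.log (2 * y) + 1) * Real.log y :=
      mul_le_mul_of_nonneg_right hi2.le hlogy0
    have h2 : 2 * Real.log (8 * x) / Real.log (2 * y) * Real.log y ≤ 2 * Real.log (8 * x) := by
      rw [div_mul_eq_mul_div, div_le_iff₀ hlog2y0]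
      have h3 : Real.log y ≤ Real.log (2 * y) := Real.log_le_log hy0 (by linarith)
      have h4 : 0 ≤ 2 * Real.log (8 * x) := by rw [hlog8x]; positivity
      exact mul_le_mul_of_nonneg_left h3 h4
    rw [hlog8x] at h2 h1
    have h5 : (2 * (Real.log 8 + L) / Real.log (2 * y) + 1) * Real.log y =
        2 * (Real.log 8 + L) / Real.log (2 * y) * Real.log y + Real.log y := by ring
    linarith
  have hiL : (i : ℝ) ≤ L := hile.trans e6
  have hiA : (i : ℝ) * Real.log L ≤ 6 * L / A := by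
    have := mul_le_mul_of_nonneg_right hile hlL.le
    refine this.trans (le_of_eq ?_)
    field_simp
  have hcond : (8 * x : ℝ) ≤ ((2 * y : ℝ)) ^ ((i : ℝ) / 2) := by
    have h1 := Nat.le_ceil (2 * Real.log (8 * x) / Real.log (2 * y))
    rw [← hi, div_le_iff₀ hlog2y0] at h1
    rw [← Real.log_le_log_iff (by positivity) (Real.rpow_pos_of_pos (by positivity) _),
      Real.log_rpow (by positivity)]
    linarith
  have hne : (PP y).Nonempty := by
    rw [← Finset.card_pos]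
    exact_mod_cast hQpos
  have hmain := Pool.Agent.J4H21.GP.count_le (C := C₁) (y := y) (Q := PP y) (i := i) (x := x) (by omega)
    (fun q hq => ⟨(hQmem q hq).1, by have := (hQmem q hq).2.1; omega⟩)
    (by exact_mod_cast hQcard)
    (fun X hX => hlow y hy1 (PP y) (Finset.Subset.refl _) hne i hi1 X hX) hcond
  refine le_trans (le_trans (le_of_eq (by congr!)) hmain) ?_
  -- the size of the bound
  have hb1 : ((Nat.log 2 (4 * x) + 1 : ℕ) : ℝ) ≤ Real.exp (L / A) := by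
    have h1 : ((Nat.log 2 (4 * x) : ℕ) : ℝ) * Real.log 2 ≤ Real.log (4 * x) := by
      have h2 : 2 ^ Nat.log 2 (4 * x) ≤ 4 * x := Nat.pow_log_le_self 2 (by omega)
      have h3 : ((2 : ℝ) ^ Nat.log 2 (4 * x)) ≤ 4 * x := by exact_mod_cast h2
      rw [← Real.log_pow]
      exact Real.log_le_log (by positivity) h3
    have h4 : Real.log (4 * x) ≤ 2 * L := by
      rw [Real.log_mul (by norm_num) (by linarith), ← hL]
      have : Real.log 4 ≤ Real.log 8 := Real.log_le_log (by norm_num) (by norm_num)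
      linarith
    have h5 := Real.log_two_gt_d9
    have h6 : ((Nat.log 2 (4 * x) : ℕ) : ℝ) ≤ 4 * L := by
      have h0 : (0 : ℝ) ≤ ((Nat.log 2 (4 * x) : ℕ) : ℝ) := Nat.cast_nonneg _
      nlinarith
    push_cast
    linarith
  have hb2 : (i.factorial : ℝ) ≤ Real.exp (6 * L / A) := by
    have h1 : (i.factorial : ℝ) ≤ (i : ℝ) ^ i := by exact_mod_cast Nat.factorial_le_pow i
    have h2 : (i : ℝ) ^ i ≤ L ^ i := pow_le_pow_left₀ (Nat.cast_nonneg _) hiL i
    have h3 : L ^ i = Real.exp (i * Real.log L) := by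
      rw [Real.exp_nat_mul, Real.exp_log hL0]
    exact h1.trans (h2.trans (by rw [h3]; exact Real.exp_le_exp.mpr hiA))
  have hb3 : ((3 * y / ((PP y).card : ℝ)) ^ i : ℝ) ≤ Real.exp (6 * L / A + 6 * κ * L) := by
    have h1 : 3 * (y : ℝ) / ((PP y).card : ℝ) ≤ L * Real.exp (κ * Real.log y) := by
      rw [div_le_iff₀ hQpos]
      have h2 : (y : ℝ) = (y : ℝ) ^ κ * (y : ℝ) ^ (1 - κ) := by
        rw [← Real.rpow_add hy0]
        norm_num
      have h3 : (y : ℝ) ^ κ = Real.exp (κ * Real.log y) := by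
        rw [Real.rpow_def_of_pos hy0, mul_comm]
      have h4 : (y : ℝ) ≤ Real.exp (κ * Real.log y) * ((PP y).card : ℝ) := by
        conv_lhs => rw [h2, h3]
        exact mul_le_mul_of_nonneg_left hQc (Real.exp_pos _).le
      calc 3 * (y : ℝ) ≤ L * (Real.exp (κ * Real.log y) * ((PP y).card : ℝ)) :=
            mul_le_mul e3 h4 hy0.le hL0.le
        _ = _ := by ring
    have h3 : (3 * (y : ℝ) / ((PP y).card : ℝ)) ^ i ≤ (L * Real.exp (κ * Real.log y)) ^ i :=
      pow_le_pow_left₀ (by positivity) h1 i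
    have h4 : (L * Real.exp (κ * Real.log y)) ^ i = Real.exp (i * Real.log L + i * (κ * Real.log y)) := by
      rw [mul_pow, Real.exp_add, Real.exp_nat_mul, Real.exp_nat_mul, Real.exp_log hL0]
    have h5 : (i : ℝ) * (κ * Real.log y) ≤ 6 * κ * L := by
      have h6 : (i : ℝ) * (κ * Real.log y) = κ * (i * Real.log y) := by ring
      rw [h6]
      have h7 := mul_le_mul_of_nonneg_left hily hκ0.le
      linarith
    refine h3.trans ?_
    rw [h4]
    exact Real.exp_le_exp.mpr (add_le_add hiA h5)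
  have hxe : (x : ℝ) ^ d = Real.exp (d * L) := by
    rw [Real.rpow_def_of_pos (by linarith), ← hL, mul_comm]
  rw [hxe]
  have hexp : Real.exp (L / A) * (Real.exp (6 * L / A) * Real.exp (6 * L / A + 6 * κ * L)) ≤
      Real.exp (d * L) := by
    rw [← Real.exp_add, ← Real.exp_add, Real.exp_le_exp]
    have h1 : (13 / A + 6 * κ) * L ≤ d * L := mul_le_mul_of_nonneg_right hAd hL0.le
    have h2 : L / A + (6 * L / A + (6 * L / A + 6 * κ * L)) = (13 / A + 6 * κ) * L := by ring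
    linarith
  calc ((Nat.log 2 (4 * x) + 1 : ℕ) : ℝ) * (C₁ * (i.factorial : ℝ) *
        (3 * y / ((PP y).card : ℝ)) ^ i)
      ≤ Real.exp (L / A) * (C₁ * Real.exp (6 * L / A) * Real.exp (6 * L / A + 6 * κ * L)) := by
        gcongr
    _ = C₁ * (Real.exp (L / A) * (Real.exp (6 * L / A) * Real.exp (6 * L / A + 6 * κ * L))) := by ring
    _ ≤ C₁ * Real.exp (d * L) := mul_le_mul_of_nonneg_left hexp hC₁.le

theorem t_LOWY : S_LOWY := by
  classical
  intro δ η hδ hη0 hη1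
  obtain ⟨d, hd, hd1, hdδ⟩ : ∃ d : ℝ, 0 < d ∧ d ≤ 1 ∧ d ≤ δ / 2 :=
    ⟨min (δ / 2) 1, lt_min (by linarith) one_pos, min_le_right _ _, min_le_left _ _⟩
  obtain ⟨κ, hκ⟩ : ∃ κ : ℝ, κ = min (η / 2) (d / 12) := ⟨_, rfl⟩
  have hκ0 : 0 < κ := by rw [hκ]; positivity
  have hκη : κ < η := by
    have := min_le_left (η / 2) (d / 12)
    rw [← hκ] at this
    linarith
  have hκ1 : κ < 1 := by linarith
  have hκd : κ ≤ d / 12 := by rw [hκ]; exact min_le_right _ _
  obtain ⟨A, hA⟩ : ∃ A : ℝ, A = max 1 (26 / d) := ⟨_, rfl⟩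
  have hA1 : 1 ≤ A := by rw [hA]; exact le_max_left _ _
  have hA0 : 0 < A := by linarith
  have hAd : 13 / A + 6 * κ ≤ d := by
    have h1 : 26 / d ≤ A := by rw [hA]; exact le_max_right _ _
    rw [div_le_iff₀ hd] at h1
    have h2 : 13 / A ≤ d / 2 := by
      rw [div_le_iff₀ hA0]
      linarith
    linarith
  obtain ⟨C₁, hC₁, x₁, hx₁⟩ := main_y hd hd1 hκ1 hκ0 hA1 hAd
  have hlogN : Tendsto (fun x : ℕ => Real.log (x : ℝ)) atTop atTop :=
    Real.tendsto_log_atTop.comp tendsto_natCast_atTop_atTop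
  have hbig : Tendsto (fun x : ℕ => (d * Real.log (x : ℝ)) ^ (A * (η - κ))) atTop atTop :=
    (tendsto_rpow_atTop (mul_pos hA0 (by linarith))).comp (hlogN.const_mul_atTop hd)
  have hbig2 : Tendsto (fun x : ℕ => (d * Real.log (x : ℝ)) ^ A) atTop atTop :=
    (tendsto_rpow_atTop hA0).comp (hlogN.const_mul_atTop hd)
  have hlogb : ∀ᶠ x : ℕ in atTop, (Nat.log 2 x + 1 : ℝ) ≤ (x : ℝ) ^ (δ / 2) := by
    have h1 : ∀ᶠ y : ℝ in atTop, 3 * Real.log y ≤ y ^ (δ / 2) := by
      have h4 := (isLittleO_log_rpow_atTop (show 0 < δ / 2 by linarith)).bound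
        (show (0 : ℝ) < 1 / 3 by norm_num)
      filter_upwards [h4, eventually_ge_atTop (1 : ℝ)] with z hz hz1
      rw [Real.norm_of_nonneg (Real.log_nonneg hz1),
        Real.norm_of_nonneg (Real.rpow_nonneg (by linarith) _)] at hz
      linarith
    filter_upwards [tendsto_natCast_atTop_atTop.eventually h1, hlogN.eventually_ge_atTop 1,
      eventually_ge_atTop 1] with x g1 g2 g3
    have h2 : ((Nat.log 2 x : ℕ) : ℝ) * Real.log 2 ≤ Real.log x := by
      have h3 : 2 ^ Nat.log 2 x ≤ x := Nat.pow_log_le_self 2 (by omega)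
      have h4 : ((2 : ℝ) ^ Nat.log 2 x) ≤ x := by exact_mod_cast h3
      rw [← Real.log_pow]
      exact Real.log_le_log (by positivity) h4
    have h5 := Real.log_two_gt_d9
    have h0 : (0 : ℝ) ≤ ((Nat.log 2 x : ℕ) : ℝ) := Nat.cast_nonneg _
    nlinarith
  obtain ⟨x₀, hx₀⟩ := eventually_atTop.mp ((eventually_ge_atTop x₁).and
    ((hbig.eventually_ge_atTop 400).and ((hbig2.eventually_ge_atTop 2).and hlogb)))
  refine ⟨A, C₁ + 2 + x₀ + 1, hA1, by positivity, fun x hx1 => ?_⟩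
  have hx1' : (1 : ℝ) ≤ x := by exact_mod_cast hx1
  have hxδ : (1 : ℝ) ≤ (x : ℝ) ^ δ := Real.one_le_rpow hx1' hδ.le
  have hxdδ : (x : ℝ) ^ d ≤ (x : ℝ) ^ (δ / 2) := Real.rpow_le_rpow_of_exponent_le hx1' hdδ
  have hxd2 : (x : ℝ) ^ (δ / 2) ≤ (x : ℝ) ^ δ := Real.rpow_le_rpow_of_exponent_le hx1' (by linarith)
  obtain ⟨S, hS⟩ : ∃ S : Set ℕ, S = {p : ℕ | p ≤ x ∧ p.Prime ∧ ∃ y : ℝ, (Real.log p) ^ A ≤ y ∧ y ≤ p ∧
      (({q : ℕ | Spl p q ∧ (q : ℝ) ≤ y}.ncard : ℕ) : ℝ) < y ^ (1 - η)} := ⟨_, rfl⟩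
  rw [← hS]
  rcases lt_or_ge x x₀ with hlt | hge
  · have h1 : S ⊆ ((Finset.range (x₀ + 1) : Finset ℕ) : Set ℕ) := by
      intro p hp
      rw [hS] at hp
      have := hp.1
      simp only [Finset.coe_range, Set.mem_Iio]
      omega
    have h2 := Set.ncard_le_ncard h1 (Finset.finite_toSet _)
    rw [Set.ncard_coe_finset, Finset.card_range] at h2
    have h3 : (S.ncard : ℝ) ≤ x₀ + 1 := by exact_mod_cast h2
    have h4 : (x₀ : ℝ) + 1 ≤ (C₁ + 2 + x₀ + 1) * 1 := by linarith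
    exact h3.trans (h4.trans (mul_le_mul_of_nonneg_left hxδ (by positivity)))
  · obtain ⟨g1, g2, g3, g4⟩ := hx₀ x hge
    obtain ⟨E, hE⟩ : ∃ E : ℕ → Finset ℕ, E = fun y => {p ∈ Finset.Icc 1 x | p.Prime ∧
        ((100 : ℝ) * ({q ∈ (PP y : Set ℕ) | Spl p q}.ncard : ℝ) < (PP y).card)} := ⟨_, rfl⟩
    obtain ⟨J, hJ⟩ : ∃ J : Finset ℕ, J = (Finset.range (Nat.log 2 x + 1)).filter
        (fun j => (d * Real.log x) ^ A / 4 ≤ ((2 ^ j : ℕ) : ℝ) ∧ 2 ^ j ≤ x) := ⟨_, rfl⟩
    have hE3 : ∀ j ∈ J, ((E (2 ^ j)).card : ℝ) ≤ C₁ * (x : ℝ) ^ d := by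
      intro j hj
      rw [hJ, Finset.mem_filter] at hj
      have h1 := (hx₁ x g1 (2 ^ j) hj.2.1 hj.2.2).2
      rw [hE]
      refine le_trans (le_of_eq ?_) h1
      congr!
    have h1 : S ⊆ ((Finset.range (⌊(x : ℝ) ^ d⌋₊ + 1) ∪ J.biUnion (fun j => E (2 ^ j)) : Finset ℕ) : Set ℕ) := by
      intro p hp
      rw [hS] at hp
      obtain ⟨hpx, hpp, y, hy1, hy2, hlt⟩ := hp
      rw [Finset.coe_union, Set.mem_union]
      by_cases hsm : p ≤ ⌊(x : ℝ) ^ d⌋₊
      · left
        simp only [Finset.coe_range, Set.mem_Iio]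
        omega
      · right
        push Not at hsm
        have hp0 : (0 : ℝ) < p := by exact_mod_cast hpp.pos
        have hpd : (x : ℝ) ^ d < p := Nat.lt_of_floor_lt hsm
        have hlogp : d * Real.log x ≤ Real.log p := by
          rw [← Real.log_rpow (by linarith)]
          exact Real.log_le_log (Real.rpow_pos_of_pos (by linarith) _) hpd.le
        have hlogx0 : 0 ≤ Real.log x := Real.log_nonneg hx1'
        have hdl0 : 0 ≤ d * Real.log x := by positivity
        have hly : (d * Real.log x) ^ A ≤ y := (Real.rpow_le_rpow hdl0 hlogp hA0.le).trans hy1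
        have hy2' : (2 : ℝ) ≤ y := g3.trans hly
        have hy0 : (0 : ℝ) < y := by linarith
        -- the dyadic number
        obtain ⟨k, hk⟩ : ∃ k : ℕ, k = ⌊y⌋₊ := ⟨_, rfl⟩
        have hk1 : (k : ℝ) ≤ y := by rw [hk]; exact Nat.floor_le hy0.le
        have hk2 : y < k + 1 := by rw [hk]; exact Nat.lt_floor_add_one y
        have hk3 : 2 ≤ k := by rw [hk]; exact Nat.le_floor (by exact_mod_cast hy2')
        obtain ⟨e, he⟩ : ∃ e : ℕ, Nat.log 2 k = e + 1 :=
          ⟨Nat.log 2 k - 1, by have := Nat.log_pos one_lt_two hk3; omega⟩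
        have h2e : 2 ^ (e + 1) ≤ k := by rw [← he]; exact Nat.pow_log_le_self 2 (by omega)
        have h2e' : k < 2 ^ (e + 1 + 1) := by rw [← he]; exact Nat.lt_pow_succ_log_self one_lt_two k
        have h2r : 2 * ((2 ^ e : ℕ) : ℝ) ≤ y := by
          have h5 : ((2 ^ (e + 1) : ℕ) : ℝ) ≤ k := by exact_mod_cast h2e
          rw [pow_succ] at h5
          push_cast at h5 ⊢
          linarith
        have h2r' : y < 4 * ((2 ^ e : ℕ) : ℝ) := by
          have h5 : ((k + 1 : ℕ) : ℝ) ≤ ((2 ^ (e + 1 + 1) : ℕ) : ℝ) := by exact_mod_cast h2e'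
          rw [pow_succ, pow_succ] at h5
          push_cast at h5 ⊢
          linarith
        have hex : 2 ^ e ≤ x := by
          have h5 : ((2 ^ e : ℕ) : ℝ) ≤ x := by
            have h6 : (p : ℝ) ≤ x := by exact_mod_cast hpx
            linarith
          exact_mod_cast h5
        have heJ : e ∈ J := by
          rw [hJ, Finset.mem_filter, Finset.mem_range]
          refine ⟨?_, ?_, hex⟩
          · have := Nat.le_log_of_pow_le one_lt_two hex
            omega
          · linarith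
        obtain ⟨hc1, -⟩ := hx₁ x g1 (2 ^ e) (by linarith) hex
        simp only [Finset.coe_biUnion, Set.mem_iUnion]
        refine ⟨e, heJ, ?_⟩
        rw [hE]
        simp only [Finset.coe_filter, Finset.mem_Icc, Set.mem_ofPred_eq]
        refine ⟨⟨hpp.one_le, hpx⟩, hpp, ?_⟩
        have hfin : {q : ℕ | Spl p q ∧ (q : ℝ) ≤ y}.Finite := by
          apply (Finset.finite_toSet (Finset.range (⌊y⌋₊ + 1))).subset
          intro q hq
          simp only [Finset.coe_range, Set.mem_Iio]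
          have := Nat.le_floor hq.2
          omega
        have hsub : {q ∈ (PP (2 ^ e) : Set ℕ) | Spl p q} ⊆ {q : ℕ | Spl p q ∧ (q : ℝ) ≤ y} := by
          intro q hq
          have h5 : q ∈ PP (2 ^ e) := hq.1
          unfold Pool.Agent.H38R2.CG.PP at h5
          rw [Finset.mem_filter, Finset.mem_Ioc] at h5
          refine ⟨hq.2, ?_⟩
          have h6 : (q : ℝ) ≤ 2 * ((2 ^ e : ℕ) : ℝ) := by exact_mod_cast h5.1.2
          linarith
        have h2 : ({q ∈ (PP (2 ^ e) : Set ℕ) | Spl p q}.ncard : ℝ) ≤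
            (({q : ℕ | Spl p q ∧ (q : ℝ) ≤ y}.ncard : ℕ) : ℝ) := by
          exact_mod_cast Set.ncard_le_ncard hsub hfin
        have h3 : 100 * y ^ (1 - η) ≤ (((2 ^ e : ℕ) : ℝ)) ^ (1 - κ) := by
          have h5 : (y / 4) ^ (1 - κ) ≤ (((2 ^ e : ℕ) : ℝ)) ^ (1 - κ) :=
            Real.rpow_le_rpow (by positivity) (by linarith) (by linarith)
          have h6 : y ^ (1 - κ) / 4 ≤ (y / 4) ^ (1 - κ) := by
            rw [Real.div_rpow hy0.le (by norm_num)]
            have h7 : (4 : ℝ) ^ (1 - κ) ≤ 4 := by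
              calc (4 : ℝ) ^ (1 - κ) ≤ (4 : ℝ) ^ (1 : ℝ) :=
                    Real.rpow_le_rpow_of_exponent_le (by norm_num) (by linarith)
                _ = 4 := Real.rpow_one _
            exact div_le_div_of_nonneg_left (by positivity) (by positivity) h7
          have h8 : y ^ (1 - κ) = y ^ (η - κ) * y ^ (1 - η) := by
            rw [← Real.rpow_add hy0]
            congr 1
            ring
          have h9 : (400 : ℝ) ≤ y ^ (η - κ) := by
            refine g2.trans ?_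
            rw [Real.rpow_mul hdl0]
            exact Real.rpow_le_rpow (by positivity) hly (by linarith)
          have h10 : 400 * y ^ (1 - η) ≤ y ^ (η - κ) * y ^ (1 - η) := by gcongr
          linarith
        have h4 : (100 : ℝ) * ({q ∈ (PP (2 ^ e) : Set ℕ) | Spl p q}.ncard : ℝ) < ((PP (2 ^ e)).card : ℝ) := by
          linarith
        exact h4
    have h2 := Set.ncard_le_ncard h1 (Finset.finite_toSet _)
    rw [Set.ncard_coe_finset] at h2
    have h3 := h2.trans (Finset.card_union_le _ _)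
    rw [Finset.card_range] at h3
    have h3' : (J.biUnion (fun j => E (2 ^ j))).card ≤ ∑ j ∈ J, (E (2 ^ j)).card := Finset.card_biUnion_le
    have h4 : (S.ncard : ℝ) ≤ (⌊(x : ℝ) ^ d⌋₊ : ℝ) + 1 + ∑ j ∈ J, ((E (2 ^ j)).card : ℝ) := by
      have h5 := h3.trans (Nat.add_le_add_left h3' _)
      exact_mod_cast h5
    have h5 : (⌊(x : ℝ) ^ d⌋₊ : ℝ) ≤ (x : ℝ) ^ d := Nat.floor_le (by positivity)
    have h6 : ∑ j ∈ J, ((E (2 ^ j)).card : ℝ) ≤ (x : ℝ) ^ (δ / 2) * (C₁ * (x : ℝ) ^ (δ / 2)) := by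
      calc ∑ j ∈ J, ((E (2 ^ j)).card : ℝ) ≤ ∑ j ∈ J, C₁ * (x : ℝ) ^ d := Finset.sum_le_sum hE3
        _ = (J.card : ℝ) * (C₁ * (x : ℝ) ^ d) := by rw [Finset.sum_const, nsmul_eq_mul]
        _ ≤ (x : ℝ) ^ (δ / 2) * (C₁ * (x : ℝ) ^ (δ / 2)) := by
            have h7 : (J.card : ℝ) ≤ (x : ℝ) ^ (δ / 2) := by
              refine le_trans ?_ g4
              have h8 : J.card ≤ Nat.log 2 x + 1 := by
                rw [hJ]
                refine (Finset.card_filter_le _ _).trans ?_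
                rw [Finset.card_range]
              exact_mod_cast h8
            gcongr
    have h7 : (x : ℝ) ^ (δ / 2) * (C₁ * (x : ℝ) ^ (δ / 2)) = C₁ * (x : ℝ) ^ δ := by
      have h8 : (x : ℝ) ^ δ = (x : ℝ) ^ (δ / 2) * (x : ℝ) ^ (δ / 2) := by
        rw [← Real.rpow_add (by linarith)]
        congr 1
        ring
      rw [h8]
      ring
    rw [h7] at h6
    have h9 : (0 : ℝ) ≤ (x₀ + 1 : ℝ) * (x : ℝ) ^ δ := by positivity
    have h10 : (x : ℝ) ^ d ≤ (x : ℝ) ^ δ := hxdδ.trans hxd2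
    nlinarith

end Pool.Agent.J4H78.HG
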