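import Pool.Agent.J4H78.GP.Stm3

/-!
# Project HG (helper78), row MP_d0fd9b_nt: spectral gap for ALL unramified Hecke characters of `ℚ(√p)`, of finite
and of infinite order, for almost all primes `p`

THEOREM.  For all `δ, B > 0` there are `A, η, c, C` such that for every set `P` and all but at most `C x ^ δ` primes
`p ≤ x`: `|∑_{N𝔮 ∈ P prime, N𝔮 ≤ y} ψ(𝔮)| ≤ y ^ (1 - η)` for all `(log p) ^ A ≤ y ≤ p ^ c` and all unramified Hecke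
characters `ψ` of `ℚ(√p)` (`ψ((x)) = ∏_w |x|_w ^ (i μ_w)`, `|μ_w| ≤ p ^ B`) which are not a power `N𝔞 ^ (i t)`.
(For `h(p) = 1` the gap for the class group is empty; this is not: it is the gap in the Arakelov class group.)

Plan: as project GP (J4H78.GP.Stm, Stm2, Stm3), with the weight `V` (compact support) in the place of `W`, and lattice points
instead of theta functions.
-/

set_option autoImplicit false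

open NumberField Complex Filter Topology MeasureTheory
open Pool.Agent.Y773 (VM cc PIdl gen el cube rl)
open NumberField.Units

namespace Pool.Agent.J4H78.HG

open Pool.Agent.J4H78.GP (QD BQ eta cj res gg IsCf Spl ind PS)

/-! ## Definitions -/

/-- the tent function in `log r` -/
noncomputable def ph (r : ℝ) : ℝ := if 0 < r then max 0 (1 - |Real.log r|) else 0

/-- the weight: the integral of the product of four tents over `z_0 + z_1 + z_2 + z_3 = log u` -/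
noncomputable def V (u : ℝ) : ℝ :=
  ∫ y : Fin 3 → ℝ, ph (u ^ (1 / 4 : ℝ) * Real.exp (y 0)) * ph (u ^ (1 / 4 : ℝ) * Real.exp (y 1)) *
    ph (u ^ (1 / 4 : ℝ) * Real.exp (y 2)) * ph (u ^ (1 / 4 : ℝ) * Real.exp (-(y 0 + y 1 + y 2)))

/-- `∏_w |x|_w ^ (i μ_w)` -/
noncomputable def pw {K : Type} [Field K] [NumberField K] (μ : InfinitePlace K → ℝ) (x : K) : ℂ :=
  ∏ w, Complex.exp (((μ w * Real.log (w x) : ℝ) : ℂ) * I)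

/-- `η` is an unramified Hecke character of the type `μ`, as a function on the ideals (`η ⊥ = 0`) -/
def IsHk (K : Type) [Field K] [NumberField K] (μ : InfinitePlace K → ℝ) (η : Ideal (𝓞 K) →*₀ ℂ) : Prop :=
  ∀ x : 𝓞 K, x ≠ 0 → η (Ideal.span {x}) = pw μ (x : K)

/-- `η` is not a power `N𝔞 ^ (i t)` of the norm -/
def NotNorm {K : Type} [Field K] [NumberField K] (η : Ideal (𝓞 K) →*₀ ℂ) : Prop :=
  ∀ t : ℝ, ∃ 𝔞 : Ideal (𝓞 K), 𝔞 ≠ ⊥ ∧ η 𝔞 ≠ Complex.exp (((t * Real.log (Ideal.absNorm 𝔞) : ℝ) : ℂ) * I)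

/-- the square of `η` is not a power of the norm -/
def NotNorm2 {K : Type} [Field K] [NumberField K] (η : Ideal (𝓞 K) →*₀ ℂ) : Prop :=
  ∀ t : ℝ, ∃ 𝔞 : Ideal (𝓞 K), 𝔞 ≠ ⊥ ∧ η 𝔞 ^ 2 ≠ Complex.exp (((t * Real.log (Ideal.absNorm 𝔞) : ℝ) : ℂ) * I)

/-- `∏_w ph(|r_w|) |r_w| ^ (i μ_w)` -/
noncomputable def Ph {ι : Type} [Fintype ι] (μ : ι → ℝ) (r : ι → ℝ) : ℂ :=
  ∏ w, (((ph |r w| : ℝ) : ℂ) * Complex.exp (((μ w * Real.log |r w| : ℝ) : ℂ) * I))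

/-- the integral of `Ph` -/
noncomputable def kap {ι : Type} [Fintype ι] (μ : ι → ℝ) : ℂ := ∫ r : ι → ℝ, Ph μ r

/-- the sum over the lattice -/
noncomputable def tc {K : Type} [Field K] [NumberField K] (μ : InfinitePlace K → ℝ) (Ψ : 𝓞 K → ℂ)
    (y : InfinitePlace K → ℝ) : ℂ :=
  ∑' x : 𝓞 K, Ψ x * Ph μ (fun w => Real.exp (y w / 2) * w (x : K))

/-- its integral over the units (compare `Y773.hf`) -/
noncomputable def hc {K : Type} [Field K] [NumberField K] (Ψ : 𝓞 K → ℂ) (t : ℝ) : ℂ :=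
  ∫ θ in cube K, tc (fun _ => 0) Ψ (el K ((1 / 2) * Real.log t, θ))

/-- there is a Hecke character `ψ` of type at most `p ^ B`, whose square is not a power of the norm, with
`T ≤ |∑_{q ∈ Q} g(q)|` -/
def BigH (B : ℝ) (p : ℕ) (Q : Finset ℕ) (T : ℝ) : Prop :=
  ∃ (K : Type) (_ : Field K) (_ : NumberField K), QD p K ∧ ∃ (μ : InfinitePlace K → ℝ) (ψ : Ideal (𝓞 K) →*₀ ℂ),
    IsHk K μ ψ ∧ (∀ w, |μ w| ≤ (p : ℝ) ^ B) ∧ NotNorm2 ψ ∧ T ≤ ‖∑ q ∈ Q, gg p ψ q‖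

/-- a character sum over the primes of `P` up to `y` is large, for some `y` with `(log p) ^ A ≤ y ≤ p ^ c` -/
def BadH (B : ℝ) (P : Set ℕ) (A η c : ℝ) (p : ℕ) : Prop :=
  ∃ y : ℕ, (Real.log p) ^ A ≤ y ∧ (y : ℝ) ≤ (p : ℝ) ^ c ∧ BigH B p (PS P y) ((y : ℝ) ^ (1 - η))

/-- the nonzero ideals whose norm is a prime number of `P` and `≤ B` -/
def SmI (P : Set ℕ) (K : Type) [Field K] [NumberField K] (B : ℝ) : Set (Ideal (𝓞 K)) :=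
  {𝔮 | (Ideal.absNorm 𝔮).Prime ∧ Ideal.absNorm 𝔮 ∈ P ∧ ((Ideal.absNorm 𝔮 : ℕ) : ℝ) ≤ B}

/-- the spectral gap -/
def GH (B : ℝ) (P : Set ℕ) (A η c : ℝ) (p : ℕ) : Prop :=
  ∀ (K : Type) [Field K] [NumberField K], QD p K → ∀ μ : InfinitePlace K → ℝ, (∀ w, |μ w| ≤ (p : ℝ) ^ B) →
    ∀ ψ : Ideal (𝓞 K) →*₀ ℂ, IsHk K μ ψ → NotNorm ψ → ∀ y : ℝ, (Real.log p) ^ A ≤ y → y ≤ (p : ℝ) ^ c →
      ‖∑ᶠ 𝔮 ∈ SmI P K y, ψ 𝔮‖ ≤ y ^ (1 - η)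

/-! ## Lattice points in `ℝ⁴` (Mathlib only, sup norm) -/

/-- **COV**: covering radius.  If `z` is at distance `ρ` from the lattice, say `0` is (up to a translation) the nearest
point (exists: discrete), then for the points `z_j = (j λ / (2 ρ)) z`, `j = 0, 1, ...`, `j λ / 2 ≤ ρ`, the balls of radius
`λ / 8` around them are disjoint modulo the lattice: if `|z_i - z_j - v| < λ / 4`, `i > j`, `v ≠ 0` a lattice vector, then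
`|z_i - v| ≤ |z_j| + λ/4 < |z_i|`, but `0` is the nearest point of `z_i` too (triangle inequality); for `v = 0`
`|z_i - z_j| ≥ λ/2`.  So `(ρ / λ) (λ / 4) ^ 4 ≤ V` (volumes modulo the lattice; `ZSpan.fundamentalDomain`,
`|det b| = ` its volume). -/
def S_COV : Prop := ∃ C : ℝ, 0 < C ∧ ∀ (ι : Type) [Fintype ι] [DecidableEq ι], Fintype.card ι = 4 →
  ∀ (b : Module.Basis ι ℝ (ι → ℝ)) (l : ℝ), 0 < l →
    (∀ m : ι → ℤ, m ≠ 0 → l ≤ ‖∑ i, (m i : ℝ) • b i‖) →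
    ∀ z : ι → ℝ, ∃ m : ι → ℤ, ‖z - ∑ i, (m i : ℝ) • b i‖ ≤ C * |(Matrix.of fun i => b i).det| / l ^ 3

/-- **CTL**: the number of lattice points in a ball (the balls of radius `λ / 2` around them are disjoint). -/
def S_CTL : Prop := ∃ C : ℝ, 0 < C ∧ ∀ (ι : Type) [Fintype ι] [DecidableEq ι], Fintype.card ι = 4 →
  ∀ (b : Module.Basis ι ℝ (ι → ℝ)) (l : ℝ), 0 < l →
    (∀ m : ι → ℤ, m ≠ 0 → l ≤ ‖∑ i, (m i : ℝ) • b i‖) →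
    ∀ (z : ι → ℝ) (R : ℝ), 0 ≤ R → {m : ι → ℤ | ‖z - ∑ i, (m i : ℝ) • b i‖ ≤ R}.Finite ∧
      ({m : ι → ℤ | ‖z - ∑ i, (m i : ℝ) • b i‖ ≤ R}.ncard : ℝ) ≤ C * (1 + R / l) ^ 4

/-- **LAT** (from `S_COV`, `S_CTL`).  `S(z) = ∑_m F(z + b·m)` has period `b`; `∫_{fund. domain} S = ∫ F`; for every `z` take
`m` with `|z - b·m| ≤ ρ`, `ρ = C V / λ³`: `|S(z) - S(0)| = |S(z - b·m) - S(0)| ≤ (number of the terms) Lp ρ`. -/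
def S_LAT : Prop := ∃ C : ℝ, 0 < C ∧ ∀ (ι : Type) [Fintype ι] [DecidableEq ι], Fintype.card ι = 4 →
  ∀ (b : Module.Basis ι ℝ (ι → ℝ)) (l v : ℝ), 0 < l → v = |(Matrix.of fun i => b i).det| →
    (∀ m : ι → ℤ, m ≠ 0 → l ≤ ‖∑ i, (m i : ℝ) • b i‖) →
    ∀ (F : (ι → ℝ) → ℂ) (Lp R : ℝ), 0 ≤ Lp → 0 ≤ R → (∀ x y, ‖F x - F y‖ ≤ Lp * ‖x - y‖) →
      (∀ x, R < ‖x‖ → F x = 0) →
      (Summable fun m : ι → ℤ => F (∑ i, (m i : ℝ) • b i)) ∧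
      ‖∑' m : ι → ℤ, F (∑ i, (m i : ℝ) • b i) - ((1 / v : ℝ) : ℂ) * ∫ x, F x‖ ≤
        C * Lp * (v / l ^ 3) * (1 + (R + v / l ^ 3) / l) ^ 4

/-- **PHL**: `Ph μ` is a Lipschitz function (`r ↦ ph |r| e^(i μ log |r|)` has support in `1/e ≤ |r| ≤ e` and derivative
`≤ e (1 + |μ|)`), of absolute value `≤ 1`, zero for `|r| > e`. -/
def S_PHL : Prop := ∃ C : ℝ, 0 < C ∧ ∀ (ι : Type) [Fintype ι], Fintype.card ι = 4 → ∀ μ : ι → ℝ,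
  (∀ x y, ‖Ph μ x - Ph μ y‖ ≤ C * (1 + ∑ w, |μ w|) * ‖x - y‖) ∧ (∀ x, ‖Ph μ x‖ ≤ 1) ∧
  (∀ x, 3 < ‖x‖ → Ph μ x = 0) ∧ ‖kap μ‖ ≤ C ∧ 1 ≤ C * (kap (fun _ : ι => (0 : ℝ))).re ∧
  (kap (fun _ : ι => (0 : ℝ))).im = 0

/-- **VPR**: properties of the weight `V` (all four arguments of the tents have logarithms of absolute value `< 1` and sum
`log u`). -/
def S_VPR : Prop := (∀ u : ℝ, 0 ≤ V u) ∧ (∃ C : ℝ, 0 < C ∧ ∀ u : ℝ, V u ≤ C) ∧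
  (∀ u : ℝ, 0 ≤ u → u ≤ Real.exp (-4) → V u = 0) ∧ (∀ u : ℝ, Real.exp 4 ≤ u → V u = 0) ∧
  ∃ v₀ : ℝ, 0 < v₀ ∧ ∀ u : ℝ, Real.exp (-1) ≤ u → u ≤ 1 → v₀ ≤ V u

/-! ## Fields of degree four -/

/-- **BSI**: a basis of an ideal, and its determinant (`Ideal.natAbs_det_basis_change`, and the discriminant is the square of the
determinant of the embeddings; see `Y773/HK/Geo.lean` for `rl`, `card_place`, `Idx`, `embE`). -/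
def S_BSI : Prop := ∀ (L : Type) [Field L] [NumberField L] [IsTotallyReal L] (𝔟 : Ideal (𝓞 L)), 𝔟 ≠ ⊥ →
  ∃ f : InfinitePlace L → 𝓞 L, (∀ m : InfinitePlace L → ℤ, ∑ i, m i • f i = 0 → m = 0) ∧
    (∀ x : 𝓞 L, x ∈ 𝔟 ↔ ∃ m : InfinitePlace L → ℤ, x = ∑ i, m i • f i) ∧
    ∀ [DecidableEq (InfinitePlace L)],
      |(Matrix.of fun i w => rl w ((f i : 𝓞 L) : L)).det| = Real.sqrt |(discr L : ℝ)| * Ideal.absNorm 𝔟

/-- **LTC** (from `S_LAT`, `S_PHL`, `S_BSI`): the lattice `{(e^(y_w/2) rl w x)_w : x ∈ 𝔟}` has covolume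
`v = √|discr| N𝔟 e^(∑ y_w / 2) = √|discr| / X`, and its nonzero vectors have sup norm `≥ (∏_w ...) ^ (1/4) ≥ X ^ (-1/4) = λ`
(`|N x| ≥ N𝔟`); `ρ = v / λ³ = √|discr| X ^ (-1/4)`; `|rl w x| = w x`. -/
def S_LTC : Prop := ∃ C : ℝ, 0 < C ∧ ∀ (L : Type) [Field L] [NumberField L] [IsTotallyReal L],
  Module.finrank ℚ L = 4 → ∀ (μ : InfinitePlace L → ℝ) (𝔟 : Ideal (𝓞 L)), 𝔟 ≠ ⊥ → ∀ (y : InfinitePlace L → ℝ) (X : ℝ),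
    Real.exp (-4) ≤ X → X * (Ideal.absNorm 𝔟 * Real.exp (∑ w, y w / 2)) = 1 →
    (Summable fun x : 𝓞 L => ind 𝔟 x * Ph μ (fun w => Real.exp (y w / 2) * w (x : L))) ∧
    ‖tc μ (ind 𝔟) y - kap μ * ((X / Real.sqrt |(discr L : ℝ)| : ℝ) : ℂ)‖ ≤
      C * (1 + ∑ w, |μ w|) * |(discr L : ℝ)| ^ 4 * X ^ (3 / 4 : ℝ)

/-- **UNH**: unfolding (exactly as `J4H21/GP/Unf.lean` (`t_UNF`), with `ph` in the place of the Gaussian; all functions have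
compact support and the term `x = 0` vanishes). -/
def S_UNH : Prop := ∀ (L : Type) [Field L] [NumberField L] [IsTotallyReal L],
  Module.finrank ℚ L = 4 → ∃ c : ℝ, 0 < c ∧
    ∀ (Ψ : 𝓞 L → ℂ) (B : ℝ), (∀ x, ‖Ψ x‖ ≤ B) → (∀ (u : (𝓞 L)ˣ) (x : 𝓞 L), Ψ (u * x) = Ψ x) →
      ∀ t : ℝ, 0 < t →
        (Summable fun J : PIdl L => Ψ (gen J) * ((V ((Ideal.absNorm J.1 : ℝ) * t) : ℝ) : ℂ)) ∧
        hc Ψ t = c * ∑' J : PIdl L, Ψ (gen J) * ((V ((Ideal.absNorm J.1 : ℝ) * t) : ℝ) : ℂ)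

/-- **CUB**: if `pw μ` is `1` on the units and `μ` is not constant then the integral over the cube vanishes
(`μ · el(0, θ) / 2 = ∑ θ_i a_i` with `a_i = ∑_w μ_w log w(ε_i) ∈ 2π ℤ`, not all `0` since `el` is bijective (`elE`) and
`∑_w el_w = 0`). -/
def S_CUB : Prop := ∀ (L : Type) [Field L] [NumberField L] [IsTotallyReal L] (μ : InfinitePlace L → ℝ),
  (∀ u : (𝓞 L)ˣ, pw μ ((u : 𝓞 L) : L) = 1) → (¬ ∃ a : ℝ, ∀ w, μ w = a) →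
    ∫ θ in cube L, Complex.exp (((-(∑ w, μ w * (el L ((0 : ℝ), θ) w / 2)) : ℝ) : ℂ) * I) = 0

/-- **TH** (from `S_LTC`, `S_UNH`, `S_CUB`, `S_VPR`, `GP.S_ZB`; adapt `J4H57/GP/T.lean`, `T3.lean`: `Reps`, `Sc`, `sum_dec`,
`orth`).  With `Ψ = ind 𝔟 · pw μ` (unit invariant) and `τ = (1/2) log t`:
`hc Ψ t = e^(-i (∑ μ) log t / 4) ∫_θ e^(-i μ·el(0,θ)/2) tc μ (ind 𝔟) (el(τ,θ))`, and by `S_LTC` (`X = 1 / (N𝔟 t)`) this is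
`e^(...) kap μ X / √|discr| ∫_θ e^(-i μ·el(0,θ)/2) + error`; if `μ` is not constant the main term is `0` (`S_CUB`); if
`μ = a` is constant then `η N^(-i a)` is a nontrivial character of the class group and the main terms cancel in the sum over the
classes.  So `|T(X)| ≤ (h / c) C (1 + ∑|μ|) |discr| ^ 4 X ^ (3/4)` for `X ≥ e^(-4)` (and `T(X) = 0` for `X < e^(-4)`), and
`h / c ≤ C' |discr| ^ 15` from the same formula with `η = 1`, `μ = 0`, at `X = C'' |discr| ^ 18`, where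
`∑_𝔞 V(N𝔞 / X) ≤ C X ^ 2` (`S_ZB`) [any power of `|discr|` up to `40` in total is fine]. -/
def S_TH : Prop := ∃ C : ℝ, 0 < C ∧ ∀ (L : Type) [Field L] [NumberField L] [IsTotallyReal L],
  Module.finrank ℚ L = 4 → ∀ (μ : InfinitePlace L → ℝ) (η : Ideal (𝓞 L) →*₀ ℂ), IsHk L μ η → NotNorm η →
    ∀ X : ℝ, 0 < X → ‖∑' 𝔞 : Ideal (𝓞 L), η 𝔞 * ((V ((Ideal.absNorm 𝔞 : ℝ) / X) : ℝ) : ℂ)‖ ≤
      C * (1 + ∑ w, |μ w|) * |(discr L : ℝ)| ^ 40 * X ^ (3 / 4 : ℝ)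

/-- **NRM**: Hecke characters have absolute value one (finite class number). -/
def S_NRM : Prop := ∀ (K : Type) [Field K] [NumberField K] (μ : InfinitePlace K → ℝ) (η : Ideal (𝓞 K) →*₀ ℂ),
  IsHk K μ η → ∀ 𝔞 : Ideal (𝓞 K), 𝔞 ≠ ⊥ → ‖η 𝔞‖ = 1

/-- **REH** (from `S_TH`, `S_NRM`, `S_VPR`, `GP.S_ZB`; adapt `J4H57/GP/Res3.lean`): remove the at most `12` prime ideals
above `M`; each costs a factor `1 + N𝔮 ^ (-3/4) ≤ 2`. -/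
def S_REH : Prop := ∃ C : ℝ, 0 < C ∧ ∀ (L : Type) [Field L] [NumberField L] [IsTotallyReal L],
  Module.finrank ℚ L = 4 → ∀ (μ : InfinitePlace L → ℝ) (η : Ideal (𝓞 L) →*₀ ℂ), IsHk L μ η → NotNorm η →
    ∀ M : ℕ, 1 ≤ M → M.primeFactors.card ≤ 3 → ∀ X : ℝ, 0 < X →
    ‖∑' 𝔞 : Ideal (𝓞 L), res M η 𝔞 * ((V ((Ideal.absNorm 𝔞 : ℝ) / X) : ℝ) : ℂ)‖ ≤
      C * (1 + ∑ w, |μ w|) * |(discr L : ℝ)| ^ 40 * X ^ (3 / 4 : ℝ)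

/-- **TYP**: the type of `eta ψ ψ'` (`Ideal.relNorm_singleton`; the absolute value at `σ` of the relative norm of `x` is the
product of the `w x`, `w` above `σ`, `L` is totally real). -/
def S_TYP : Prop := ∀ (p p' : ℕ) (K K' L : Type) [Field K] [NumberField K] [Field K'] [NumberField K']
  [Field L] [NumberField L] [Algebra K L] [Algebra K' L] [IsTotallyReal L], BQ p p' K K' L →
    ∀ (μ : InfinitePlace K → ℝ) (μ' : InfinitePlace K' → ℝ) (ψ : Ideal (𝓞 K) →*₀ ℂ) (ψ' : Ideal (𝓞 K') →*₀ ℂ),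
      IsHk K μ ψ → IsHk K' μ' ψ' →
      IsHk L (fun w => μ (w.comap (algebraMap K L)) + μ' (w.comap (algebraMap K' L))) (eta (L := L) ψ ψ')

/-- **NTL**: `eta ψ ψ'` is not a power of the norm if `ψ' ^ 2` is not: for `𝔟 ⊆ 𝓞 K'`, `N_{L/K'}(𝔟 𝓞 L) = 𝔟²`,
`N_{L/K}(𝔟 𝓞 L) = (N𝔟)`, `N(𝔟 𝓞 L) = N𝔟 ^ 2` (see `J4H42/GP/Ch.lean`, `relNorm_map`), and `ψ((n)) = n ^ (i ∑ μ)` for `n ∈ ℕ`. -/
def S_NTL : Prop := ∀ (p p' : ℕ) (K K' L : Type) [Field K] [NumberField K] [Field K'] [NumberField K']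
  [Field L] [NumberField L] [Algebra K L] [Algebra K' L], BQ p p' K K' L →
    ∀ (μ : InfinitePlace K → ℝ) (ψ : Ideal (𝓞 K) →*₀ ℂ) (ψ' : Ideal (𝓞 K') →*₀ ℂ), IsHk K μ ψ →
      NotNorm2 ψ' → NotNorm (eta (L := L) ψ ψ')

/-- **ODH** (from `GP.S_ODD`): if `ψ ^ 2 = N ^ (i t)` then `2 μ_w = t` for all `w` (`(2 μ_w - t) log w(x)` summed over `w` is in
`2π ℤ` for all `x ∈ K`, `x ≠ 0`, and `K` is dense in `ℝ²`), so `ψ N ^ (-i t / 2)` is a character of the class group with square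
one; the class number is odd. -/
def S_ODH : Prop := ∀ (p : ℕ) (K : Type) [Field K] [NumberField K], p.Prime → QD p K →
  ∀ (μ : InfinitePlace K → ℝ) (ψ : Ideal (𝓞 K) →*₀ ℂ), IsHk K μ ψ → NotNorm ψ → NotNorm2 ψ

/-- **PAH** (from `GP.S_FLD`, `S_TYP`, `S_NTL`, `GP.S_MULT`, `GP.S_REC`, `S_REH`, `GP.S_EX`, `S_NRM`, `S_VPR`; adapt
`J4H78/GP/Pair3.lean`): `|discr| ^ 40 ≤ C (p p') ^ 80`. -/
def S_PAH : Prop := ∃ C : ℝ, 0 < C ∧ ∀ (p p' : ℕ) (K K' : Type) [Field K]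
  [NumberField K] [Field K'] [NumberField K'], p.Prime → p'.Prime → p ≠ p' → QD p K → QD p' K' →
  ∀ (μ : InfinitePlace K → ℝ) (μ' : InfinitePlace K' → ℝ) (ψ : Ideal (𝓞 K) →*₀ ℂ) (ψ' : Ideal (𝓞 K') →*₀ ℂ),
  IsHk K μ ψ → IsHk K' μ' ψ' → NotNorm2 ψ' → ∀ M : ℝ, (∀ w, |μ w| ≤ M) → (∀ w, |μ' w| ≤ M) →
  ∀ a : ℕ → ℂ, IsCf (fun d => gg p ψ d * (starRingEnd ℂ) (gg p' ψ' d)) a → ∀ X : ℝ, 0 < X →
    ‖∑' n : ℕ, ((V ((n : ℝ) / X) : ℝ) : ℂ) * a n‖ ≤ C * (1 + M) * ((p : ℝ) * p') ^ 80 * X ^ (3 / 4 : ℝ)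

/-! ## The large sieve -/

/-- **BAH** (from `S_PAH`, `GP.S_LS2`, `GP.S_BD`, `S_VPR`, `GP.S_EX`, `S_NRM`; adapt `J4H78/GP/Bas3.lean`): the weight is
`w n = ∑_{j ≤ J} V (n e^j / X)`, `J = ⌈log X⌉ + 1`, which is `≥ v₀` for `1 ≤ n ≤ X` and zero for `n ≥ e^4 X`;
`#terms · X ^ (3/4) ≤ C X ^ (4/5)`. -/
def S_BAH : Prop := ∀ B₀ ε : ℝ, 0 < B₀ → 0 < ε → ∃ C : ℝ, 0 < C ∧ ∀ (x k : ℕ) (X B T : ℝ) (Q E : Finset ℕ),
  1 ≤ X → 0 ≤ T → (∀ q ∈ Q, q.Prime ∧ (q : ℝ) ≤ B) → B ^ k ≤ X →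
  (∀ p ∈ E, p.Prime ∧ p ≤ x ∧ BigH B₀ p Q T) →
    (E.card : ℝ) * T ^ (2 * k) ≤
      C * (X ^ (1 + ε) + E.card * (x : ℝ) ^ (160 + B₀) * X ^ (4 / 5 : ℝ)) * (k.factorial * (Q.card : ℝ) ^ k)

/-- **CNH** (from `S_BAH`; adapt `J4H57/GP/Cnt2.lean` or `J4H6/GP/Cnt3.lean`).  `y ≥ ((δ/2) log x) ^ A`, `y ≤ x ^ c`; `X = y ^ k`,
`k = ⌈K log x / log y⌉` with `K = 10 (161 + B₀)`, so `x ^ K ≤ X ≤ x ^ (K + 1)` and `x ^ (160 + B₀) X ^ (4/5) ≤ X ^ (9/10)`;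
`k! ≤ k ^ k ≤ X ^ (1/A + ...)`; so `#E_y X ^ (1 - 2 η - 2/A) ≤ C (X ^ (1 + ε) + #E_y X ^ (9/10))`,
`#E_y ≤ 2 C X ^ (ε + 2 η + 2 / A) ≤ 2 C x ^ ((K + 1) (ε + 2 η + 2/A))`. -/
def S_CNH : Prop := ∀ δ B₀ : ℝ, 0 < δ → 0 < B₀ → ∃ A η c C : ℝ, 1 ≤ A ∧ 0 < η ∧ η < 1 ∧ 0 < c ∧ c < 1 ∧ 0 < C ∧
  ∀ (P : Set ℕ) (x : ℕ), 1 ≤ x → ∀ E : Finset ℕ,
    (∀ p ∈ E, p.Prime ∧ p ≤ x ∧ BadH B₀ P A η c p) → (E.card : ℝ) ≤ C * (x : ℝ) ^ δ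

/-- **GAH** (from `S_CNH`, `S_ODH`, `S_NRM`; adapt `J4H57/GP/Gap.lean`): the theorem.  The sum over the ideals in `SmI P K y` is
`∑_{q ∈ PS P ⌊y⌋} gg p ψ q` plus at most two terms of absolute value `1`, by `cc_prime`. -/
def S_GAH : Prop := ∀ δ B₀ : ℝ, 0 < δ → 0 < B₀ → ∃ A η c C : ℝ, 1 ≤ A ∧ 0 < η ∧ η < 1 ∧ 0 < c ∧ 0 < C ∧
  ∀ (P : Set ℕ) (x : ℕ), 1 ≤ x →
    ({p : ℕ | p.Prime ∧ p ≤ x ∧ ¬ GH B₀ P A η c p}.ncard : ℝ) ≤ C * (x : ℝ) ^ δ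

end Pool.Agent.J4H78.HG
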