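import Pool.Agent.J4H78.HG.Stm
import Pool.Agent.J4H78.GP.Stm3

/-!
# Project HG2 (helper78), row MP_d0fd9b_nt: products of small primes in the Arakelov class group of `ℚ(√p)`

THEOREM.  For all `δ, B > 0` there are `A, C` such that for all but at most `C x ^ δ` primes `p ≤ x`: for every ideal
`𝔟 ≠ 0` of `K = ℚ(√p)`, every real `t` and every `m ≥ C log p / log log p` there are `m` prime ideals of prime norm
`≤ (log p) ^ A` with product `α 𝔟`, `α ∈ K`, `|log |α / α'| - t| ≤ p ^ (-B)`.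
(Under GRH for all `p`: de Boer, Ducas, Pellet-Mary, Wesolowski.)
-/

set_option autoImplicit false

open NumberField Complex Filter Topology MeasureTheory

namespace Pool.Agent.J4H78.HG

open Pool.Agent.J4H78.GP (QD Spl S_LOW2 S_SPL S_HB)

/-- `log |x|_w - log |x|_w'` -/
noncomputable def la {K : Type} [Field K] [NumberField K] (w w' : InfinitePlace K) (x : K) : ℝ :=
  Real.log (w x) - Real.log (w' x)

/-- the Fejer kernel -/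
noncomputable def fej (n : ℕ) (θ : ℝ) : ℂ :=
  ∑ k ∈ Finset.Icc (-(n : ℤ)) n, ((1 - |(k : ℝ)| / (n + 1) : ℝ) : ℂ) *
    Complex.exp (((2 * Real.pi * k * θ : ℝ) : ℂ) * I)

/-- the product of `m` ideals of `S` can be `α 𝔟`, `α = b / a`, with `|log |α|_w - log |α|_w' - t| ≤ d` -/
def Hit {K : Type} [Field K] [NumberField K] (w w' : InfinitePlace K) (S : Set (Ideal (𝓞 K))) (m : ℕ)
    (𝔟 : Ideal (𝓞 K)) (t d : ℝ) : Prop :=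
  ∃ f : Fin m → Ideal (𝓞 K), (∀ j, f j ∈ S) ∧ ∃ a b : 𝓞 K, a ≠ 0 ∧ b ≠ 0 ∧
    Ideal.span {a} * ∏ j, f j = Ideal.span {b} * 𝔟 ∧ |la w w' ((b : K) / (a : K)) - t| ≤ d

/-- **EXT** (extension): the character `x ↦ pw μ x` of `Kˣ` is trivial on the units, so it is a character of the group of
the principal fractional ideals (`toPrincipalIdeal`), and it extends to all fractional ideals, since `ℂˣ` (or `Circle`, `ℝ/ℤ`) is
divisible (`AddCommGrpCat.injective_of_divisible` or by hand: the class group is finite, adjoin one ideal after another). -/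
def S_EXT : Prop := ∀ (K : Type) [Field K] [NumberField K] (μ : InfinitePlace K → ℝ),
  (∀ u : (𝓞 K)ˣ, pw μ ((u : 𝓞 K) : K) = 1) → ∃ ψ : Ideal (𝓞 K) →*₀ ℂ, IsHk K μ ψ

/-- **UN1**: a unit that is not too large.  With `M ^ 2 = ` the bound of Minkowski (`≤ C √p`), `s = 2 log M + 1`: for every
natural number `n` there is `x_n ≠ 0` in `𝓞 K` with `w x_n < M e^(s n)`, `w' x_n < M e^(-s n)` (see
`mixedEmbedding.exists_ne_zero_mem_ringOfIntegers_lt`), so `|la x_n - 2 s n| ≤ 2 log M` (`|N x_n| ≥ 1`); the number of ideals of norm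
`≤ M ^ 2` is `≤ (M ^ 2 + 1) ^ 2` (compare `J4H74/GP/Hb.lean`), so two of the `x_n`, `n ≤ (M ^ 2 + 1) ^ 2`, are associated. -/
def S_UN1 : Prop := ∃ C : ℝ, 0 < C ∧ ∀ (p : ℕ) (K : Type) [Field K] [NumberField K], p.Prime → QD p K →
  ∀ w w' : InfinitePlace K, w ≠ w' → ∃ u : (𝓞 K)ˣ, 0 < la w w' ((u : 𝓞 K) : K) ∧
    la w w' ((u : 𝓞 K) : K) ≤ C * (p : ℝ) ^ 4

/-- **UNI** (from `S_UN1`): `{la u}` is a subgroup of `ℝ` without elements in `(0, 1/10)` (for `la u = r`, `w u = e^(r/2)`,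
`w' u = e^(-r/2)`, and the trace `± e^(r/2) ± e^(-r/2)` is an integer), so it is cyclic (`AddSubgroup.cyclic_of_min` or
`AddSubgroup.dense_or_cyclic`); `K` has exactly two infinite places. -/
def S_UNI : Prop := ∃ C : ℝ, 0 < C ∧ ∀ (p : ℕ) (K : Type) [Field K] [NumberField K], p.Prime → QD p K →
  ∀ w w' : InfinitePlace K, w ≠ w' → (∀ v, v = w ∨ v = w') ∧ ∃ R : ℝ, 1 / 10 ≤ R ∧ R ≤ C * (p : ℝ) ^ 4 ∧
    (∃ u : (𝓞 K)ˣ, la w w' ((u : 𝓞 K) : K) = R) ∧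
    ∀ u : (𝓞 K)ˣ, ∃ k : ℤ, la w w' ((u : 𝓞 K) : K) = k * R

/-- **FEJ** (Mathlib only): `fej n θ = |∑_{j ≤ n} e(j θ)| ^ 2 / (n + 1)`, and `|∑_{j ≤ n} e(j θ)| ≤ 1 / |sin πθ| ≤ 1 / (2 δ)`. -/
def S_FEJ : Prop := ∀ (n : ℕ) (θ : ℝ), (fej n θ).im = 0 ∧ 0 ≤ (fej n θ).re ∧
  ∀ d : ℝ, 0 < d → (∀ j : ℤ, d ≤ |θ - j|) → (fej n θ).re ≤ 1 / (4 * (n + 1) * d ^ 2)

/-- **NNW** (from `per_zero` in `J4H19/HG/Odh.lean`): the type of a power of the norm is constant. -/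
def S_NNW : Prop := ∀ (p : ℕ) (K : Type) [Field K] [NumberField K], p.Prime → QD p K →
  ∀ (μ : InfinitePlace K → ℝ) (ψ : Ideal (𝓞 K) →*₀ ℂ), IsHk K μ ψ → ¬ NotNorm ψ → ∃ t : ℝ, (∀ w, μ w = t) ∧
    ∀ 𝔞 : Ideal (𝓞 K), 𝔞 ≠ ⊥ → ψ 𝔞 = Complex.exp (((t * Real.log (Ideal.absNorm 𝔞) : ℝ) : ℂ) * I)

/-- **DEN** (from `S_UNI`, `S_EXT`, `S_FEJ`, `S_NNW`, `S_NRM`, `S_HB`): for `f : Fin m → S`, `𝔞 = ∏ f j`,
`Φ 𝔞 = ∑_{χ, |k| ≤ n} c_k (ψ_k χ)(𝔞) conj ((ψ_k χ)(𝔟)) e(- k t / R)` (`χ` the characters of the class group, `ψ_k` of type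
`(2 π k / R, - 2 π k / R)`) is `h fej n ((la α - t) / R)` if `𝔞 = α 𝔟` and `0` if `𝔞`, `𝔟` are in different classes; sum over `f`. -/
def S_DEN : Prop := ∃ C : ℝ, 0 < C ∧ ∀ (p : ℕ) (K : Type) [Field K] [NumberField K], p.Prime → QD p K →
  ∀ w w' : InfinitePlace K, w ≠ w' → ∀ (S : Finset (Ideal (𝓞 K))), (∀ 𝔮 ∈ S, 𝔮 ≠ ⊥) → S.Nonempty →
  ∀ (n m : ℕ) (T d : ℝ), 0 ≤ T → 0 < d →
    (∀ (μ : InfinitePlace K → ℝ) (ψ : Ideal (𝓞 K) →*₀ ℂ), IsHk K μ ψ → NotNorm ψ →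
      (∀ v, |μ v| ≤ C * (n + 1)) → ‖∑ 𝔮 ∈ S, ψ 𝔮‖ ≤ T) →
    C * (n + 1) * (p : ℝ) ^ 2 * T ^ m ≤ (S.card : ℝ) ^ m → C * (p : ℝ) ^ 10 ≤ (n + 1) * d ^ 2 →
    ∀ 𝔟 : Ideal (𝓞 K), 𝔟 ≠ ⊥ → ∀ t : ℝ, Hit w w' (S : Set (Ideal (𝓞 K))) m 𝔟 t d

/-- for every `m ≥ C log p / log log p` the products of `m` prime ideals of prime norm `≤ (log p) ^ A` come near every point
of the Arakelov class group -/
def Arak (A C B : ℝ) (p : ℕ) : Prop := ∀ (K : Type) [Field K] [NumberField K], QD p K →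
  ∀ w w' : InfinitePlace K, w ≠ w' → ∀ m : ℕ, C * Real.log p / Real.log (Real.log p) ≤ m →
    ∀ 𝔟 : Ideal (𝓞 K), 𝔟 ≠ ⊥ → ∀ t : ℝ,
      Hit w w' (SmI Set.univ K ((Real.log p) ^ A)) m 𝔟 t ((p : ℝ) ^ (-B))

/-- **FN4** (from `S_DEN`, `S_GAH`, `S_LOW2`, `S_SPL`, `GP.dense_univ`; compare `J4H78/GP/Fin3.lean`): `S = ` the set
`SmI Set.univ K ((log p) ^ A')`, `A' = max A A₀`, of cardinal number `≥ ((log p) ^ A') ^ (1 - η/2)`, `T = ((log p) ^ A') ^ (1 - η)`,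
`d = p ^ (-B)`, `n + 1 = ⌈C p ^ (10 + 2 B)⌉`, `B₀ = 13 + 2 B`, `m ≥ C' log p / log log p`; finitely many small `p` go into `C'`. -/
def S_FN4 : Prop := ∀ δ B : ℝ, 0 < δ → 0 < B → ∃ A C : ℝ, 0 < A ∧ 0 < C ∧ ∀ x : ℕ, 1 ≤ x →
  ({p : ℕ | p.Prime ∧ p ≤ x ∧ ¬ Arak A C B p}.ncard : ℝ) ≤ C * (x : ℝ) ^ δ

end Pool.Agent.J4H78.HG
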