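import Pool.Agent.J4H78.HG.Stm2

/-!
# Project HG3 (helper78), row MP_d0fd9b_nt: equidistribution of the products of small primes in the Arakelov class
group of `ℚ(√p)`: the number of the `m`-tuples in a class and an interval of length `l ≥ p ^ (-B)` is
`N ^ m l (1 + O(1/p)) / (h R)`.
-/

set_option autoImplicit false

open NumberField Complex Filter Topology MeasureTheory

namespace Pool.Agent.J4H78.HG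

open Pool.Agent.J4H78.GP (QD Spl S_LOW2 S_SPL S_HB)

/-- a trigonometric polynomial -/
noncomputable def tp (g : ℤ → ℂ) (n : ℕ) (θ : ℝ) : ℂ :=
  ∑ k ∈ Finset.Icc (-(n : ℤ)) n, g k * Complex.exp (((2 * Real.pi * k * θ : ℝ) : ℂ) * I)

/-- the number of the `m`-tuples of ideals of `S` with product `α 𝔟`, `α = b / a` -/
noncomputable def cls {K : Type} [Field K] [NumberField K] (S : Set (Ideal (𝓞 K))) (m : ℕ)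
    (𝔟 : Ideal (𝓞 K)) : ℕ :=
  Nat.card {f : Fin m → S // ∃ a b : 𝓞 K, a ≠ 0 ∧ b ≠ 0 ∧
    Ideal.span {a} * ∏ j, (f j : Ideal (𝓞 K)) = Ideal.span {b} * 𝔟}

/-- the number of the `m`-tuples of ideals of `S` with product `α 𝔟`, `t ≤ log |α|_w - log |α|_w' ≤ t + l` -/
noncomputable def cnt {K : Type} [Field K] [NumberField K] (w w' : InfinitePlace K) (S : Set (Ideal (𝓞 K)))
    (m : ℕ) (𝔟 : Ideal (𝓞 K)) (t l : ℝ) : ℕ :=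
  Nat.card {f : Fin m → S // ∃ a b : 𝓞 K, a ≠ 0 ∧ b ≠ 0 ∧
    Ideal.span {a} * ∏ j, (f j : Ideal (𝓞 K)) = Ideal.span {b} * 𝔟 ∧
    t ≤ la w w' ((b : K) / (a : K)) ∧ la w w' ((b : K) / (a : K)) ≤ t + l}

/-- `{log |u|_w - log |u|_w' : u a unit} = R ℤ` -/
def IsReg {K : Type} [Field K] [NumberField K] (w w' : InfinitePlace K) (R : ℝ) : Prop :=
  1 / 10 ≤ R ∧ (∃ u : (𝓞 K)ˣ, la w w' ((u : 𝓞 K) : K) = R) ∧
    ∀ u : (𝓞 K)ˣ, ∃ k : ℤ, la w w' ((u : 𝓞 K) : K) = k * R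

/-- the character sums over `S` are at most `T`, for the types `≤ M` -/
def Bdd {K : Type} [Field K] [NumberField K] (S : Finset (Ideal (𝓞 K))) (M T : ℝ) : Prop :=
  ∀ (μ : InfinitePlace K → ℝ) (ψ : Ideal (𝓞 K) →*₀ ℂ), IsHk K μ ψ → NotNorm ψ → (∀ v, |μ v| ≤ M) →
    ‖∑ 𝔮 ∈ S, ψ 𝔮‖ ≤ T

/-- **MAJ** (from `S_FEJ`): `f θ = ∫_{a - r}^{b + r} fej n (θ - s) ds` (`= tp g n θ`, `g k = c_k ∫ e(- k s) ds`); `fej n ≥ 0`,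
`∫_0^1 fej n = 1`, and for `θ ∈ [a, b]` the part of a period around `θ` that is missing is at distance `≥ r`. -/
def S_MAJ : Prop := ∀ (n : ℕ) (a b r : ℝ), 0 < r → a ≤ b → b - a + 2 * r ≤ 1 →
  ∃ g : ℤ → ℂ, g 0 = ((b - a + 2 * r : ℝ) : ℂ) ∧ (∀ k, ‖g k‖ ≤ 1) ∧
    ∀ θ : ℝ, (tp g n θ).im = 0 ∧ 0 ≤ (tp g n θ).re ∧
      ∀ j : ℤ, a ≤ θ - j → θ - j ≤ b → 1 - 1 / (4 * (n + 1) * r ^ 2) ≤ (tp g n θ).re

/-- **UPB** (from `S_MAJ`, `S_UNI`, `S_EXT`, `S_NNW`, `S_NRM`; as `J4H78/HG/Den.lean`): helper78. -/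
def S_UPB : Prop := ∃ C : ℝ, 0 < C ∧ ∀ (p : ℕ) (K : Type) [Field K] [NumberField K], p.Prime → QD p K →
  ∀ w w' : InfinitePlace K, w ≠ w' → ∀ R : ℝ, IsReg w w' R → ∀ (S : Finset (Ideal (𝓞 K))), (∀ 𝔮 ∈ S, 𝔮 ≠ ⊥) →
  ∀ (n m : ℕ) (T r t l : ℝ), 0 ≤ T → 0 < r → 0 ≤ l → l + 2 * r * R ≤ R → Bdd S (C * (n + 1)) T →
    ∀ 𝔟 : Ideal (𝓞 K), 𝔟 ≠ ⊥ →
    (Nat.card (ClassGroup (𝓞 K)) : ℝ) * (1 - 1 / (4 * (n + 1) * r ^ 2)) * cnt w w' (S : Set (Ideal (𝓞 K))) m 𝔟 t l ≤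
      (S.card : ℝ) ^ m * (l / R + 2 * r) + (Nat.card (ClassGroup (𝓞 K)) : ℝ) * (2 * n + 1) * T ^ m

/-- **CLS** (from `J4H74.GP.mix_core` and the extension `ext` of the characters of the class group, see `J4H57/GP/Gap.lean`,
`isCl_ext`, and `char_one_of` in `J4H78/HG/Den.lean`; `S_NNW`: a power of the norm of type `0` is trivial). -/
def S_CLS : Prop := ∀ (p : ℕ) (K : Type) [Field K] [NumberField K], p.Prime → QD p K →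
  ∀ (S : Finset (Ideal (𝓞 K))), (∀ 𝔮 ∈ S, 𝔮 ≠ ⊥) → ∀ (m : ℕ) (T : ℝ), 0 ≤ T → Bdd S 0 T →
    ∀ 𝔟 : Ideal (𝓞 K), 𝔟 ≠ ⊥ →
    |(Nat.card (ClassGroup (𝓞 K)) : ℝ) * cls (S : Set (Ideal (𝓞 K))) m 𝔟 - (S.card : ℝ) ^ m| ≤
      (Nat.card (ClassGroup (𝓞 K)) : ℝ) * T ^ m

/-- **CMP**: change `b` by a unit; `t ≤ la - k R < t + R`. -/
def S_CMP : Prop := ∀ (K : Type) [Field K] [NumberField K] (w w' : InfinitePlace K) (R : ℝ), IsReg w w' R →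
  ∀ (S : Finset (Ideal (𝓞 K))) (m : ℕ) (𝔟 : Ideal (𝓞 K)) (t l : ℝ), 0 ≤ l → l ≤ R →
    cls (S : Set (Ideal (𝓞 K))) m 𝔟 ≤ cnt w w' (S : Set (Ideal (𝓞 K))) m 𝔟 t l +
      cnt w w' (S : Set (Ideal (𝓞 K))) m 𝔟 (t + l) (R - l) ∧
    cnt w w' (S : Set (Ideal (𝓞 K))) m 𝔟 t l ≤ cls (S : Set (Ideal (𝓞 K))) m 𝔟

/-- **EQ1** (from `S_UPB`, `S_CLS`, `S_CMP`, `S_HB`, `S_UNI` (for `R ≤ C p ^ 4`)): with `r = d / (16 p R)`,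
`ε = 1 / (4 (n+1) r ^ 2) ≤ d / (32 p R)`, `E = h (2n+1) T ^ m / N ^ m ≤ d / (16 p R)`: upper bound from `S_UPB` (for `l + 2 r R > R` from
`cnt ≤ cls`), lower bound from `cls ≤ cnt t l + cnt (t + l) (R - l)`. -/
def S_EQ1 : Prop := ∃ C : ℝ, 0 < C ∧ ∀ (p : ℕ) (K : Type) [Field K] [NumberField K], p.Prime → QD p K →
  ∀ w w' : InfinitePlace K, w ≠ w' → ∀ R : ℝ, IsReg w w' R → ∀ (S : Finset (Ideal (𝓞 K))), (∀ 𝔮 ∈ S, 𝔮 ≠ ⊥) →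
  S.Nonempty → ∀ (n m : ℕ) (T d : ℝ), 0 ≤ T → 0 < d → d ≤ 1 / 10 → Bdd S (C * (n + 1)) T →
    C * (p : ℝ) ^ 15 ≤ (n + 1) * d ^ 3 → C * (n + 1) * (p : ℝ) ^ 7 * T ^ m ≤ d * (S.card : ℝ) ^ m →
    ∀ 𝔟 : Ideal (𝓞 K), 𝔟 ≠ ⊥ → ∀ t l : ℝ, d ≤ l → l ≤ R →
      |(Nat.card (ClassGroup (𝓞 K)) : ℝ) * R * cnt w w' (S : Set (Ideal (𝓞 K))) m 𝔟 t l -
        (S.card : ℝ) ^ m * l| ≤ (S.card : ℝ) ^ m * l / p

/-- **REG**: `R` is twice the regulator (of a field of degree two with two infinite places: `Units.regulator`, rank one). -/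
def S_REG : Prop := ∀ (p : ℕ) (K : Type) [Field K] [NumberField K], p.Prime → QD p K →
  ∀ w w' : InfinitePlace K, w ≠ w' → ∀ R : ℝ, IsReg w w' R → R = 2 * NumberField.Units.regulator K

/-- equidistribution in the Arakelov class group -/
def Eqd (A C B : ℝ) (p : ℕ) : Prop := ∀ (K : Type) [Field K] [NumberField K], QD p K →
  ∀ w w' : InfinitePlace K, w ≠ w' → ∀ R : ℝ, IsReg w w' R → (SmI Set.univ K ((Real.log p) ^ A)).Nonempty ∧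
    ∀ m : ℕ, C * Real.log p / Real.log (Real.log p) ≤ m →
    ∀ 𝔟 : Ideal (𝓞 K), 𝔟 ≠ ⊥ → ∀ t l : ℝ, (p : ℝ) ^ (-B) ≤ l → l ≤ R →
      |(Nat.card (ClassGroup (𝓞 K)) : ℝ) * R * cnt w w' (SmI Set.univ K ((Real.log p) ^ A)) m 𝔟 t l -
        (Nat.card (SmI Set.univ K ((Real.log p) ^ A)) : ℝ) ^ m * l| ≤
          (Nat.card (SmI Set.univ K ((Real.log p) ^ A)) : ℝ) ^ m * l / p

/-- **FN5** (from `S_EQ1`, `S_GAH`, `S_LOW2`, `S_SPL`, `GP.dense_univ`; as `S_FN4`): `d = p ^ (-B)`, `n + 1 = ⌈C p ^ (15 + 3 B)⌉`,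
`B₀ = 17 + 3 B`. -/
def S_FN5 : Prop := ∀ δ B : ℝ, 0 < δ → 0 < B → ∃ A C : ℝ, 0 < A ∧ 0 < C ∧ ∀ x : ℕ, 1 ≤ x →
  ({p : ℕ | p.Prime ∧ p ≤ x ∧ ¬ Eqd A C B p}.ncard : ℝ) ≤ C * (x : ℝ) ^ δ

end Pool.Agent.J4H78.HG
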