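import Pool.Agent.J4H78.HG.Stm3

/-!
# Project HG4 (helper78), row MP_d0fd9b_nt: equidistribution in the Arakelov class group, uniformly in the size `y` of the
primes, `(log p) ^ A ≤ y ≤ p ^ c`, and all `m ≥ C log p / log y` (so a bounded number of primes `≤ p ^ c`).
-/

set_option autoImplicit false

open NumberField Complex Filter Topology MeasureTheory

namespace Pool.Agent.J4H78.HG

open Pool.Agent.J4H78.GP (QD Spl S_LOW2 S_SPL S_HB)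

/-- **LOWY** (from `Pool.Agent.N614.SP.t_LOW : E_LOW`, which is uniform in `y` and `i`; as `J4H2/GP/Low2.lean`): for
`2 ^ j`, `(log x) ^ A' ≤ 2 ^ j ≤ x`, `Q_j = ` the primes in `(2 ^ j, 2 ^ (j+1)]`, `i = ⌈2 log (8 x) / log (2 ^ (j+1))⌉`, the number
of the exceptional `p` is `≤ C i! (3 · 2 ^ j / #Q_j) ^ i ≤ C x ^ (3/A' + 8 κ)`; union over the at most `2 log x` numbers `j`. -/
def S_LOWY : Prop := ∀ δ η : ℝ, 0 < δ → 0 < η → η < 1 → ∃ A₀ C : ℝ, 1 ≤ A₀ ∧ 0 < C ∧ ∀ x : ℕ, 1 ≤ x →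
    ({p : ℕ | p ≤ x ∧ p.Prime ∧ ∃ y : ℝ, (Real.log p) ^ A₀ ≤ y ∧ y ≤ p ∧
      (({q : ℕ | Spl p q ∧ (q : ℝ) ≤ y}.ncard : ℕ) : ℝ) < y ^ (1 - η)}.ncard : ℝ) ≤ C * (x : ℝ) ^ δ

/-- equidistribution in the Arakelov class group, for all `y` -/
def EqdY (A c C B : ℝ) (p : ℕ) : Prop := ∀ (K : Type) [Field K] [NumberField K], QD p K →
  ∀ w w' : InfinitePlace K, w ≠ w' → ∀ R : ℝ, IsReg w w' R → ∀ y : ℝ, (Real.log p) ^ A ≤ y → y ≤ (p : ℝ) ^ c →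
    (SmI Set.univ K y).Nonempty ∧
    ∀ m : ℕ, C * Real.log p / Real.log y ≤ m →
    ∀ 𝔟 : Ideal (𝓞 K), 𝔟 ≠ ⊥ → ∀ t l : ℝ, (p : ℝ) ^ (-B) ≤ l → l ≤ R →
      |(Nat.card (ClassGroup (𝓞 K)) : ℝ) * R * cnt w w' (SmI Set.univ K y) m 𝔟 t l -
        (Nat.card (SmI Set.univ K y) : ℝ) ^ m * l| ≤ (Nat.card (SmI Set.univ K y) : ℝ) ^ m * l / p

/-- **FN6** (from `S_EQ1`, `S_GAH`, `S_LOWY`, `S_SPL`; as `J4H80/HG/Fn5.lean`). -/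
def S_FN6 : Prop := ∀ δ B : ℝ, 0 < δ → 0 < B → ∃ A c C : ℝ, 0 < A ∧ 0 < c ∧ 0 < C ∧ ∀ x : ℕ, 1 ≤ x →
  ({p : ℕ | p.Prime ∧ p ≤ x ∧ ¬ EqdY A c C B p}.ncard : ℝ) ≤ C * (x : ℝ) ^ δ

end Pool.Agent.J4H78.HG
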