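import Pool.Agent.J4H78.HG.Th2
import Pool.Agent.J4H21.GP.Unf

/-!
# Project HG: TH
-/

set_option autoImplicit false

open NumberField Complex Filter Topology MeasureTheory
open Pool.Agent.Y773 (VM cc PIdl gen Sc Reps exists_unique_class span_gen gen_ne_zero el cube)

namespace Pool.Agent.J4H78.HG

open Pool.Agent.J4H78.GP (QD BQ eta cj res gg IsCf Spl ind PS IsCl NonTriv)
open Pool.Agent.J4H57.GP (absNorm_pos' exists_reps orth sum_dec triv triv_of_ne t_ZB)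

variable {L : Type} [Field L] [NumberField L]

/-- the weights are summable -/
theorem sum_V (hV : S_VPR) : ∃ C : ℝ, 0 < C ∧ ∀ (L : Type) [Field L] [NumberField L], Module.finrank ℚ L = 4 →
    ∀ X : ℝ, 0 < X → ∀ η : Ideal (𝓞 L) →*₀ ℂ, (∀ 𝔞, ‖η 𝔞‖ ≤ 1) →
      (Summable fun 𝔞 : Ideal (𝓞 L) => η 𝔞 * ((V ((Ideal.absNorm 𝔞 : ℝ) / X) : ℝ) : ℂ)) ∧
      ‖∑' 𝔞 : Ideal (𝓞 L), η 𝔞 * ((V ((Ideal.absNorm 𝔞 : ℝ) / X) : ℝ) : ℂ)‖ ≤ C * X ^ 2 := by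
  obtain ⟨hV0, ⟨CV, hCV, hVC⟩, -, hVz, -⟩ := hV
  obtain ⟨C₂, hC₂, hZ⟩ := t_ZB
  refine ⟨CV * Real.exp 8 * C₂, by positivity, fun L _ _ hL X hX η hη => ?_⟩
  obtain ⟨hs, hC⟩ := hZ L hL
  have h2 : Summable fun 𝔞 : Ideal (𝓞 L) =>
      Set.indicator {𝔞 : Ideal (𝓞 L) | 𝔞 ≠ ⊥} (fun 𝔞 => (Ideal.absNorm 𝔞 : ℝ) ^ (-2 : ℝ)) 𝔞 :=
    (summable_subtype_iff_indicator (f := fun 𝔞 : Ideal (𝓞 L) => (Ideal.absNorm 𝔞 : ℝ) ^ (-2 : ℝ))
      (s := {𝔞 : Ideal (𝓞 L) | 𝔞 ≠ ⊥})).mp hs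
  have h3 : ∑' 𝔞 : Ideal (𝓞 L),
      Set.indicator {𝔞 : Ideal (𝓞 L) | 𝔞 ≠ ⊥} (fun 𝔞 => (Ideal.absNorm 𝔞 : ℝ) ^ (-2 : ℝ)) 𝔞 ≤ C₂ := by
    rw [← tsum_subtype {𝔞 : Ideal (𝓞 L) | 𝔞 ≠ ⊥} (fun 𝔞 => (Ideal.absNorm 𝔞 : ℝ) ^ (-2 : ℝ))]
    exact hC
  have h4 : ∀ 𝔞 : Ideal (𝓞 L), ‖η 𝔞 * ((V ((Ideal.absNorm 𝔞 : ℝ) / X) : ℝ) : ℂ)‖ ≤
      CV * Real.exp 8 * X ^ 2 *
        Set.indicator {𝔞 : Ideal (𝓞 L) | 𝔞 ≠ ⊥} (fun 𝔞 => (Ideal.absNorm 𝔞 : ℝ) ^ (-2 : ℝ)) 𝔞 := by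
    intro 𝔞
    by_cases h0 : 𝔞 = ⊥
    · rw [h0]
      have : η ⊥ = 0 := map_zero η
      rw [this, zero_mul, norm_zero]
      refine mul_nonneg (by positivity) ?_
      exact Set.indicator_nonneg (fun _ _ => Real.rpow_nonneg (Nat.cast_nonneg _) _) _
    · have hN := absNorm_pos' h0
      rw [Set.indicator_of_mem (show 𝔞 ∈ {𝔞 : Ideal (𝓞 L) | 𝔞 ≠ ⊥} from h0), norm_mul, Complex.norm_real,
        Real.norm_of_nonneg (hV0 _), Real.rpow_neg hN.le, Real.rpow_two]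
      have h5 : ‖η 𝔞‖ * V ((Ideal.absNorm 𝔞 : ℝ) / X) ≤ V ((Ideal.absNorm 𝔞 : ℝ) / X) := by
        have := mul_le_mul_of_nonneg_right (hη 𝔞) (hV0 ((Ideal.absNorm 𝔞 : ℝ) / X))
        rwa [one_mul] at this
      refine h5.trans ?_
      by_cases h6 : Real.exp 4 ≤ (Ideal.absNorm 𝔞 : ℝ) / X
      · rw [hVz _ h6]
        positivity
      · push Not at h6
        rw [div_lt_iff₀ hX] at h6
        have h7 : (Ideal.absNorm 𝔞 : ℝ) ^ 2 ≤ Real.exp 8 * X ^ 2 := by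
          have h8 : Real.exp 8 = Real.exp 4 ^ 2 := by
            rw [← Real.exp_nat_mul]
            norm_num
          rw [h8, ← mul_pow]
          exact pow_le_pow_left₀ hN.le h6.le 2
        calc V ((Ideal.absNorm 𝔞 : ℝ) / X) ≤ CV * 1 := by rw [mul_one]; exact hVC _
          _ ≤ CV * (Real.exp 8 * X ^ 2 * ((Ideal.absNorm 𝔞 : ℝ) ^ 2)⁻¹) := by
            apply mul_le_mul_of_nonneg_left _ hCV.le
            rw [← div_eq_mul_inv, le_div_iff₀ (by positivity), one_mul]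
            exact h7
          _ = _ := by ring
  have h5 := h2.mul_left (CV * Real.exp 8 * X ^ 2)
  have h6 := Summable.of_norm_bounded h5 h4
  refine ⟨h6, ?_⟩
  calc _ ≤ ∑' 𝔞 : Ideal (𝓞 L), CV * Real.exp 8 * X ^ 2 *
        Set.indicator {𝔞 : Ideal (𝓞 L) | 𝔞 ≠ ⊥} (fun 𝔞 => (Ideal.absNorm 𝔞 : ℝ) ^ (-2 : ℝ)) 𝔞 :=
        tsum_of_norm_bounded h5.hasSum h4
    _ = CV * Real.exp 8 * X ^ 2 * ∑' 𝔞 : Ideal (𝓞 L),
        Set.indicator {𝔞 : Ideal (𝓞 L) | 𝔞 ≠ ⊥} (fun 𝔞 => (Ideal.absNorm 𝔞 : ℝ) ^ (-2 : ℝ)) 𝔞 := by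
        rw [tsum_mul_left]
    _ ≤ CV * Real.exp 8 * X ^ 2 * C₂ := mul_le_mul_of_nonneg_left h3 (by positivity)
    _ = _ := by ring

/-- the twist by a power of the norm -/
noncomputable def twN (a : ℝ) (η : Ideal (𝓞 L) →*₀ ℂ) : Ideal (𝓞 L) →*₀ ℂ where
  toFun 𝔞 := η 𝔞 * Complex.exp (((-(a * Real.log (Ideal.absNorm 𝔞)) : ℝ) : ℂ) * I)
  map_zero' := by rw [map_zero, zero_mul]
  map_one' := by
    have h1 : Ideal.absNorm (1 : Ideal (𝓞 L)) = 1 := map_one _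
    rw [map_one, h1, Nat.cast_one, Real.log_one, mul_zero, neg_zero, Complex.ofReal_zero, zero_mul,
      Complex.exp_zero, mul_one]
  map_mul' 𝔞 𝔟 := by
    by_cases h1 : 𝔞 = 0
    · have h3 : η (𝔞 * 𝔟) = 0 := by rw [h1, zero_mul, map_zero]
      have h4 : η 𝔞 = 0 := by rw [h1, map_zero]
      rw [h3, h4, zero_mul, zero_mul, zero_mul]
    · by_cases h2 : 𝔟 = 0
      · have h3 : η (𝔞 * 𝔟) = 0 := by rw [h2, mul_zero, map_zero]
        have h4 : η 𝔟 = 0 := by rw [h2, map_zero]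
        rw [h3, h4, zero_mul, zero_mul, mul_zero]
      · have ha := absNorm_pos' (L := L) h1
        have hb := absNorm_pos' (L := L) h2
        have e : Complex.exp (((-(a * Real.log (Ideal.absNorm (𝔞 * 𝔟))) : ℝ) : ℂ) * I) =
            Complex.exp (((-(a * Real.log (Ideal.absNorm 𝔞)) : ℝ) : ℂ) * I) *
              Complex.exp (((-(a * Real.log (Ideal.absNorm 𝔟)) : ℝ) : ℂ) * I) := by
          rw [← Complex.exp_add, map_mul, Nat.cast_mul, Real.log_mul ha.ne' hb.ne']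
          congr 1
          push_cast
          ring
        rw [e, map_mul]
        ring

theorem twN_apply (a : ℝ) (η : Ideal (𝓞 L) →*₀ ℂ) (𝔞 : Ideal (𝓞 L)) :
    twN a η 𝔞 = η 𝔞 * Complex.exp (((-(a * Real.log (Ideal.absNorm 𝔞)) : ℝ) : ℂ) * I) := rfl

theorem twN_cl [IsTotallyReal L] {μ : InfinitePlace L → ℝ} {a : ℝ} (ha : ∀ w, μ w = a)
    {η : Ideal (𝓞 L) →*₀ ℂ} (h : IsHk L μ η) : IsCl L (twN a η) := by
  intro x hx
  rw [twN_apply, h x hx, pw_eq, ← Complex.exp_add, ← add_mul, ← Complex.ofReal_add]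
  have h1 : ∑ w, μ w * Real.log (w (x : L)) = a * Real.log (Ideal.absNorm (Ideal.span {x})) := by
    rw [← Pool.Agent.J4H21.GP.prod_av' hx, Real.log_prod (fun w _ => (Pool.Agent.Y773.av_pos hx w).ne'),
      Finset.mul_sum]
    refine Finset.sum_congr rfl fun w _ => ?_
    rw [ha]
    rfl
  rw [h1, add_neg_cancel]
  simp

theorem twN_nt {a : ℝ} {η : Ideal (𝓞 L) →*₀ ℂ} (h : NotNorm η) : NonTriv (twN a η) := by
  obtain ⟨𝔞, h1, h2⟩ := h a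
  refine ⟨𝔞, h1, fun h3 => h2 ?_⟩
  rw [twN_apply] at h3
  have h4 : Complex.exp (((-(a * Real.log (Ideal.absNorm 𝔞)) : ℝ) : ℂ) * I) *
      Complex.exp (((a * Real.log (Ideal.absNorm 𝔞) : ℝ) : ℂ) * I) = 1 := by
    rw [← Complex.exp_add]
    push_cast
    ring_nf
    exact Complex.exp_zero
  calc η 𝔞 = η 𝔞 * (Complex.exp (((-(a * Real.log (Ideal.absNorm 𝔞)) : ℝ) : ℂ) * I) *
      Complex.exp (((a * Real.log (Ideal.absNorm 𝔞) : ℝ) : ℂ) * I)) := by rw [h4, mul_one]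
    _ = _ := by rw [← mul_assoc, h3, one_mul]

/-- the general estimate -/
theorem gen_est [IsTotallyReal L] (hn : Module.finrank ℚ L = 4) (hP : S_PHL) (hV : S_VPR) {CL : ℝ}
    (hL : ∀ (μ : InfinitePlace L → ℝ) (𝔟 : Ideal (𝓞 L)), 𝔟 ≠ ⊥ → ∀ (y : InfinitePlace L → ℝ) (X : ℝ),
      Real.exp (-4) ≤ X → X * (Ideal.absNorm 𝔟 * Real.exp (∑ w, y w / 2)) = 1 →
      (Summable fun x : 𝓞 L => ind 𝔟 x * Ph μ (fun w => Real.exp (y w / 2) * w (x : L))) ∧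
      ‖tc μ (ind 𝔟) y - kap μ * ((X / Real.sqrt |(discr L : ℝ)| : ℝ) : ℂ)‖ ≤
        CL * (1 + ∑ w, |μ w|) * |(discr L : ℝ)| ^ 4 * X ^ (3 / 4 : ℝ))
    {c : ℝ}
    (hU : ∀ (Ψ : 𝓞 L → ℂ) (B : ℝ), (∀ x, ‖Ψ x‖ ≤ B) → (∀ (u : (𝓞 L)ˣ) (x : 𝓞 L), Ψ (u * x) = Ψ x) →
      ∀ t : ℝ, 0 < t →
        (Summable fun J : PIdl L => Ψ (gen J) * ((V ((Ideal.absNorm J.1 : ℝ) * t) : ℝ) : ℂ)) ∧
        hc Ψ t = c * ∑' J : PIdl L, Ψ (gen J) * ((V ((Ideal.absNorm J.1 : ℝ) * t) : ℝ) : ℂ))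
    {𝔟 : ClassGroup (𝓞 L) → Ideal (𝓞 L)} (hr : Reps 𝔟)
    {μ : InfinitePlace L → ℝ} {η : Ideal (𝓞 L) →*₀ ℂ} (h : IsHk L μ η) (h1 : ∀ 𝔞, 𝔞 ≠ ⊥ → ‖η 𝔞‖ = 1)
    {X : ℝ} (hX : Real.exp (-4) ≤ X) :
    ‖c * (∑' 𝔞 : Ideal (𝓞 L), η 𝔞 * ((V ((Ideal.absNorm 𝔞 : ℝ) / X) : ℝ) : ℂ)) -
      ∑ k, (η (𝔟 k))⁻¹ * (Complex.exp (((-((∑ w, μ w) *
        (Real.log (1 / ((Ideal.absNorm (𝔟 k) : ℝ) * X)) / 4)) : ℝ) : ℂ) * I) *
        (kap μ * ((X / Real.sqrt |(discr L : ℝ)| : ℝ) : ℂ)) * ZZ μ)‖ ≤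
      Fintype.card (ClassGroup (𝓞 L)) *
        (CL * (1 + ∑ w, |μ w|) * |(discr L : ℝ)| ^ 4 * X ^ (3 / 4 : ℝ)) := by
  have hX0 : 0 < X := (Real.exp_pos _).trans_le hX
  obtain ⟨C₃, hC₃, h3⟩ := sum_V hV
  have hle : ∀ 𝔞, ‖η 𝔞‖ ≤ 1 := by
    intro 𝔞
    by_cases h0 : 𝔞 = ⊥
    · rw [h0]
      have : η ⊥ = 0 := map_zero η
      rw [this, norm_zero]
      exact zero_le_one
    · exact (h1 𝔞 h0).le
  have hs := (h3 L hn X hX0 η hle).1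
  have hη0 : η ⊥ = 0 := map_zero η
  have e1 : (c : ℂ) * (∑' 𝔞 : Ideal (𝓞 L), η 𝔞 * ((V ((Ideal.absNorm 𝔞 : ℝ) / X) : ℝ) : ℂ)) =
      ∑ k, (η (𝔟 k))⁻¹ * hc (fun x => ind (𝔟 k) x * pw μ (x : L)) (1 / ((Ideal.absNorm (𝔟 k) : ℝ) * X)) := by
    rw [← sum_dec hr (f := fun 𝔞 => η 𝔞 * ((V ((Ideal.absNorm 𝔞 : ℝ) / X) : ℝ) : ℂ)) hs
      (by simp only [hη0, zero_mul]), Finset.mul_sum]
    refine Finset.sum_congr rfl fun k _ => ?_
    rw [stepA hU h (hr.ne_bot k) hX0]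
    have h5 : η (𝔟 k) ≠ 0 := by
      intro h6
      have := h1 _ (hr.ne_bot k)
      rw [h6, norm_zero] at this
      exact zero_ne_one this
    field_simp
  rw [e1, ← Finset.sum_sub_distrib]
  refine (norm_sum_le _ _).trans ?_
  have h6 : ∀ k ∈ (Finset.univ : Finset (ClassGroup (𝓞 L))),
      ‖(η (𝔟 k))⁻¹ * hc (fun x => ind (𝔟 k) x * pw μ (x : L)) (1 / ((Ideal.absNorm (𝔟 k) : ℝ) * X)) -
      (η (𝔟 k))⁻¹ * (Complex.exp (((-((∑ w, μ w) *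
        (Real.log (1 / ((Ideal.absNorm (𝔟 k) : ℝ) * X)) / 4)) : ℝ) : ℂ) * I) *
        (kap μ * ((X / Real.sqrt |(discr L : ℝ)| : ℝ) : ℂ)) * ZZ μ)‖ ≤
      CL * (1 + ∑ w, |μ w|) * |(discr L : ℝ)| ^ 4 * X ^ (3 / 4 : ℝ) := by
    intro k _
    rw [← mul_sub, norm_mul, norm_inv, h1 _ (hr.ne_bot k), inv_one, one_mul]
    exact stepC hn hP hL μ (hr.ne_bot k) hX
  refine (Finset.sum_le_sum h6).trans (le_of_eq ?_)
  rw [Finset.sum_const, nsmul_eq_mul, Finset.card_univ]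

theorem t_TH (hP : S_PHL) (hLT : S_LTC) (hUn : S_UNH) (hCu : S_CUB) (hV : S_VPR) (hNr : S_NRM) : S_TH := by
  obtain ⟨CL, hCL, hLL⟩ := hLT
  obtain ⟨C₃, hC₃, h3⟩ := sum_V hV
  obtain ⟨CP, hCP, hPP⟩ := id hP
  refine ⟨2 * CP * C₃ * (2 * CL * CP + 1) ^ 4 * CL, by positivity, ?_⟩
  intro L _ _ _ hn μ η h hnn X hX
  have hcard : Fintype.card (InfinitePlace L) = 4 := by rw [Pool.Agent.Y773.card_place, hn]
  set d : ℝ := |(discr L : ℝ)| with hd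
  have hd1 : 1 ≤ d := by
    have h1 : (1 : ℤ) ≤ |discr L| := Int.one_le_abs (discr_ne_zero L)
    have h2 : ((1 : ℤ) : ℝ) ≤ ((|discr L| : ℤ) : ℝ) := by exact_mod_cast h1
    rw [hd]
    rw [Int.cast_abs] at h2
    simpa using h2
  have hd0 : 0 < d := by linarith
  have hμ0 : 0 ≤ ∑ w, |μ w| := Finset.sum_nonneg fun w _ => abs_nonneg _
  have hη0 : η ⊥ = 0 := map_zero η
  -- small `X`
  by_cases hX4 : X < Real.exp (-4)
  · have hz : ∀ 𝔞 : Ideal (𝓞 L), η 𝔞 * ((V ((Ideal.absNorm 𝔞 : ℝ) / X) : ℝ) : ℂ) = 0 := by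
      intro 𝔞
      by_cases h0 : 𝔞 = ⊥
      · rw [h0, hη0, zero_mul]
      · have hN : (1 : ℝ) ≤ Ideal.absNorm 𝔞 := by
          have : Ideal.absNorm 𝔞 ≠ 0 := by rwa [Ne, Ideal.absNorm_eq_zero_iff]
          exact_mod_cast Nat.one_le_iff_ne_zero.mpr this
        rw [hV.2.2.2.1, Complex.ofReal_zero, mul_zero]
        rw [le_div_iff₀ hX]
        have h5 : Real.exp 4 * X ≤ 1 := by
          have h6 : Real.exp 4 * Real.exp (-4) = 1 := by rw [← Real.exp_add]; simp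
          calc Real.exp 4 * X ≤ Real.exp 4 * Real.exp (-4) := by gcongr
            _ = 1 := h6
        linarith
    simp only [hz, tsum_zero, norm_zero]
    positivity
  push Not at hX4
  have hL := hLL L hn
  obtain ⟨c, hc, hU⟩ := hUn L hn
  obtain ⟨𝔟, hr⟩ := exists_reps L
  have h1 := hNr L μ η h
  have hcl : (0 : ℝ) < Fintype.card (ClassGroup (𝓞 L)) := by exact_mod_cast Fintype.card_pos
  set hh : ℝ := (Fintype.card (ClassGroup (𝓞 L)) : ℝ) with hhh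
  -- the bound for `h / c`
  have hRB : hh ≤ c * (2 * CP * C₃ * (2 * CL * CP + 1) ^ 4 * d ^ 21) := by
    set Y : ℝ := 2 * CL * CP * d ^ 5 + 1 with hY
    have hY1 : 1 ≤ Y := by
      have : 0 ≤ 2 * CL * CP * d ^ 5 := by positivity
      linarith
    have hY0 : 0 < Y := by linarith
    set X₁ : ℝ := Y ^ 4 with hX₁
    have hX₁1 : 1 ≤ X₁ := one_le_pow₀ hY1
    have hX₁0 : 0 < X₁ := by linarith
    have hX₁e : Real.exp (-4) ≤ X₁ := by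
      have : Real.exp (-4) ≤ 1 := by rw [Real.exp_le_one_iff]; norm_num
      linarith
    have ht : IsHk L (fun _ => 0) (triv L) := by
      intro x hx
      have h5 : Ideal.span {x} ≠ ⊥ := by rwa [Ne, Ideal.span_singleton_eq_bot]
      rw [triv_of_ne h5]
      unfold pw
      simp
    have ht1 : ∀ 𝔞 : Ideal (𝓞 L), 𝔞 ≠ ⊥ → ‖triv L 𝔞‖ = 1 := fun 𝔞 h0 => by rw [triv_of_ne h0, norm_one]
    have h5 := gen_est hn hP hV hL hU hr ht ht1 hX₁e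
    have hZ : ZZ (L := L) (fun _ => (0 : ℝ)) = 1 := by
      unfold ZZ
      simp only [zero_mul, Finset.sum_const_zero, neg_zero, Complex.ofReal_zero, Complex.exp_zero]
      rw [setIntegral_const, Measure.real, cube_vol]
      simp
    have hk := hPP (InfinitePlace L) hcard (fun _ => 0)
    set κ : ℝ := (kap (fun _ : InfinitePlace L => (0 : ℝ))).re with hκ
    have hκe : kap (fun _ : InfinitePlace L => (0 : ℝ)) = (κ : ℂ) := by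
      apply Complex.ext
      · rw [Complex.ofReal_re]
      · rw [Complex.ofReal_im]
        exact hk.2.2.2.2.2
    have hκ1 : 1 ≤ CP * κ := hk.2.2.2.2.1
    have hκ0 : 0 < κ := by
      by_contra hcon
      push Not at hcon
      nlinarith
    have h6 : ∀ k, (triv L (𝔟 k))⁻¹ * (Complex.exp (((-((∑ w : InfinitePlace L, (fun _ => (0 : ℝ)) w) *
        (Real.log (1 / ((Ideal.absNorm (𝔟 k) : ℝ) * X₁)) / 4)) : ℝ) : ℂ) * I) *
        (kap (fun _ : InfinitePlace L => (0 : ℝ)) * ((X₁ / Real.sqrt d : ℝ) : ℂ)) * ZZ (L := L) (fun _ => (0 : ℝ))) =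
        ((κ * (X₁ / Real.sqrt d) : ℝ) : ℂ) := by
      intro k
      rw [triv_of_ne (hr.ne_bot k), hZ, hκe]
      simp
    rw [Finset.sum_congr rfl fun k _ => h6 k] at h5
    rw [Finset.sum_const, nsmul_eq_mul, Finset.card_univ] at h5
    have hs := (h3 L hn X₁ hX₁0 (triv L) (fun 𝔞 => Pool.Agent.J4H57.GP.norm_triv 𝔞)).2
    set T1 : ℂ := ∑' 𝔞 : Ideal (𝓞 L), triv L 𝔞 * ((V ((Ideal.absNorm 𝔞 : ℝ) / X₁) : ℝ) : ℂ) with hT1
    simp only [abs_zero, Finset.sum_const_zero, add_zero, mul_one] at h5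
    have hsq : 0 < Real.sqrt d := Real.sqrt_pos.mpr hd0
    have hsq1 : Real.sqrt d ≤ d := by
      rw [Real.sqrt_le_left hd0.le]
      nlinarith
    have h7 : hh * (κ * (X₁ / Real.sqrt d)) ≤ c * (C₃ * X₁ ^ 2) + hh * (CL * d ^ 4 * X₁ ^ (3 / 4 : ℝ)) := by
      have h8 : ‖((Fintype.card (ClassGroup (𝓞 L)) : ℕ) : ℂ) * ((κ * (X₁ / Real.sqrt d) : ℝ) : ℂ)‖ =
          hh * (κ * (X₁ / Real.sqrt d)) := by
        rw [norm_mul, Complex.norm_natCast, Complex.norm_real, Real.norm_of_nonneg (by positivity)]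
      rw [← h8]
      calc ‖((Fintype.card (ClassGroup (𝓞 L)) : ℕ) : ℂ) * ((κ * (X₁ / Real.sqrt d) : ℝ) : ℂ)‖ =
          ‖c * T1 - (c * T1 - ((Fintype.card (ClassGroup (𝓞 L)) : ℕ) : ℂ) *
            ((κ * (X₁ / Real.sqrt d) : ℝ) : ℂ))‖ := by rw [sub_sub_cancel]
        _ ≤ ‖(c : ℂ) * T1‖ + ‖c * T1 - ((Fintype.card (ClassGroup (𝓞 L)) : ℕ) : ℂ) *
            ((κ * (X₁ / Real.sqrt d) : ℝ) : ℂ)‖ := norm_sub_le _ _
        _ ≤ c * (C₃ * X₁ ^ 2) + hh * (CL * d ^ 4 * X₁ ^ (3 / 4 : ℝ)) := by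
          refine add_le_add ?_ h5
          rw [norm_mul, Complex.norm_real, Real.norm_of_nonneg hc.le]
          exact mul_le_mul_of_nonneg_left hs hc.le
    have hX34 : X₁ ^ (3 / 4 : ℝ) = Y ^ 3 := by
      rw [hX₁, ← Real.rpow_natCast, ← Real.rpow_natCast, ← Real.rpow_mul hY0.le]
      norm_num
    have h9 : CL * d ^ 4 * X₁ ^ (3 / 4 : ℝ) ≤ 1 / 2 * (κ * (X₁ / Real.sqrt d)) := by
      rw [hX34]
      have h10 : 2 * CL * CP * d ^ 5 ≤ Y := by linarith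
      have h11 : CL * d ^ 4 * Real.sqrt d * 2 ≤ κ * Y := by
        calc CL * d ^ 4 * Real.sqrt d * 2 ≤ CL * d ^ 4 * d * 2 := by gcongr
          _ = 2 * CL * d ^ 5 * 1 := by ring
          _ ≤ 2 * CL * d ^ 5 * (CP * κ) := by gcongr
          _ = (2 * CL * CP * d ^ 5) * κ := by ring
          _ ≤ Y * κ := by gcongr
          _ = κ * Y := by ring
      have h12 : 1 / 2 * (κ * (X₁ / Real.sqrt d)) = (κ * Y) * Y ^ 3 / (2 * Real.sqrt d) := by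
        rw [hX₁]
        field_simp
      rw [h12, le_div_iff₀ (by positivity)]
      calc CL * d ^ 4 * Y ^ 3 * (2 * Real.sqrt d) = (CL * d ^ 4 * Real.sqrt d * 2) * Y ^ 3 := by ring
        _ ≤ (κ * Y) * Y ^ 3 := by gcongr
    have h13 : hh * (1 / 2 * (κ * (X₁ / Real.sqrt d))) ≤ c * (C₃ * X₁ ^ 2) := by
      have := mul_le_mul_of_nonneg_left h9 hcl.le
      nlinarith
    have h14 : hh * X₁ ≤ c * (2 * CP * C₃ * d * X₁) * X₁ := by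
      have h15 : 1 / 2 * (κ * (X₁ / Real.sqrt d)) ≥ X₁ / (2 * CP * d) := by
        rw [ge_iff_le, div_le_iff₀ (by positivity)]
        have e : 1 / 2 * (κ * (X₁ / Real.sqrt d)) * (2 * CP * d) = (CP * κ) * (d / Real.sqrt d) * X₁ := by
          field_simp
        rw [e]
        have h16 : 1 ≤ d / Real.sqrt d := by rw [le_div_iff₀ hsq]; linarith
        have h17 : 1 ≤ (CP * κ) * (d / Real.sqrt d) := one_le_mul_of_one_le_of_one_le hκ1 h16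
        exact le_mul_of_one_le_left hX₁0.le h17
      have h18 : hh * (X₁ / (2 * CP * d)) ≤ c * (C₃ * X₁ ^ 2) :=
        (mul_le_mul_of_nonneg_left h15 hcl.le).trans h13
      rw [← mul_div_assoc, div_le_iff₀ (by positivity)] at h18
      calc hh * X₁ ≤ c * (C₃ * X₁ ^ 2) * (2 * CP * d) := h18
        _ = _ := by ring
    have h19 : hh ≤ c * (2 * CP * C₃ * d * X₁) := le_of_mul_le_mul_right h14 hX₁0
    refine h19.trans (mul_le_mul_of_nonneg_left ?_ hc.le)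
    have h20 : X₁ ≤ ((2 * CL * CP + 1) * d ^ 5) ^ 4 := by
      rw [hX₁, hY]
      apply pow_le_pow_left₀ (by positivity)
      have : 1 ≤ d ^ 5 := one_le_pow₀ hd1
      nlinarith
    calc 2 * CP * C₃ * d * X₁ ≤ 2 * CP * C₃ * d * ((2 * CL * CP + 1) * d ^ 5) ^ 4 := by gcongr
      _ = _ := by ring
  -- the main term vanishes
  have h5 := gen_est hn hP hV hL hU hr h h1 hX4
  have hmain : ∑ k, (η (𝔟 k))⁻¹ * (Complex.exp (((-((∑ w, μ w) *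
        (Real.log (1 / ((Ideal.absNorm (𝔟 k) : ℝ) * X)) / 4)) : ℝ) : ℂ) * I) *
        (kap μ * ((X / Real.sqrt d : ℝ) : ℂ)) * ZZ μ) = 0 := by
    by_cases hconst : ∃ a : ℝ, ∀ w, μ w = a
    · obtain ⟨a, ha⟩ := hconst
      have hor := orth (twN_cl ha h) (twN_nt (a := a) hnn) hr
      have h6 : ∀ k, (η (𝔟 k))⁻¹ * (Complex.exp (((-((∑ w, μ w) *
        (Real.log (1 / ((Ideal.absNorm (𝔟 k) : ℝ) * X)) / 4)) : ℝ) : ℂ) * I) *
        (kap μ * ((X / Real.sqrt d : ℝ) : ℂ)) * ZZ μ) =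
          (twN a η (𝔟 k))⁻¹ * (Complex.exp (((a * Real.log X : ℝ) : ℂ) * I) *
            (kap μ * ((X / Real.sqrt d : ℝ) : ℂ)) * ZZ μ) := by
        intro k
        have hN := absNorm_pos' (hr.ne_bot k)
        have hs : ∑ w, μ w = 4 * a := by
          rw [Finset.sum_congr rfl fun w _ => ha w, Finset.sum_const, nsmul_eq_mul, Finset.card_univ, hcard]
          norm_num
        have e1 : Complex.exp (((-((∑ w, μ w) *
            (Real.log (1 / ((Ideal.absNorm (𝔟 k) : ℝ) * X)) / 4)) : ℝ) : ℂ) * I) =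
            Complex.exp (((a * Real.log (Ideal.absNorm (𝔟 k)) : ℝ) : ℂ) * I) *
              Complex.exp (((a * Real.log X : ℝ) : ℂ) * I) := by
          rw [← Complex.exp_add, ← add_mul, ← Complex.ofReal_add]
          congr 3
          rw [hs, one_div, Real.log_inv, Real.log_mul hN.ne' hX.ne']
          ring
        have e2 : (twN a η (𝔟 k))⁻¹ = (η (𝔟 k))⁻¹ *
            Complex.exp (((a * Real.log (Ideal.absNorm (𝔟 k)) : ℝ) : ℂ) * I) := by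
          rw [twN_apply, mul_inv, ← Complex.exp_neg]
          congr 2
          push_cast
          ring
        rw [e1, e2]
        ring
      rw [Finset.sum_congr rfl fun k _ => h6 k, ← Finset.sum_mul, hor, zero_mul]
    · have hz : ZZ μ = 0 := hCu L μ (pw_unit h) hconst
      simp [hz]
  rw [hmain, sub_zero, norm_mul, Complex.norm_real, Real.norm_of_nonneg hc.le] at h5
  have hE0 : 0 ≤ CL * (1 + ∑ w, |μ w|) * d ^ 4 * X ^ (3 / 4 : ℝ) := by positivity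
  have h8 : c * ‖∑' 𝔞 : Ideal (𝓞 L), η 𝔞 * ((V ((Ideal.absNorm 𝔞 : ℝ) / X) : ℝ) : ℂ)‖ ≤
      c * ((2 * CP * C₃ * (2 * CL * CP + 1) ^ 4 * d ^ 21) *
        (CL * (1 + ∑ w, |μ w|) * d ^ 4 * X ^ (3 / 4 : ℝ))) := by
    have h7 := mul_le_mul_of_nonneg_right hRB hE0
    refine le_trans h5 (le_trans h7 (le_of_eq ?_))
    ring
  have h9 := le_of_mul_le_mul_left h8 hc
  refine h9.trans ?_
  have h10 : d ^ 25 ≤ d ^ 40 := pow_le_pow_right₀ hd1 (by norm_num)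
  have h11 : 0 ≤ X ^ (3 / 4 : ℝ) := Real.rpow_nonneg hX.le _
  calc (2 * CP * C₃ * (2 * CL * CP + 1) ^ 4 * d ^ 21) * (CL * (1 + ∑ w, |μ w|) * d ^ 4 * X ^ (3 / 4 : ℝ))
      = (2 * CP * C₃ * (2 * CL * CP + 1) ^ 4 * CL) * (1 + ∑ w, |μ w|) * d ^ 25 * X ^ (3 / 4 : ℝ) := by ring
    _ ≤ (2 * CP * C₃ * (2 * CL * CP + 1) ^ 4 * CL) * (1 + ∑ w, |μ w|) * d ^ 40 * X ^ (3 / 4 : ℝ) := by
      gcongr

end Pool.Agent.J4H78.HG
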