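import Pool.Agent.J4H57.GP.T
import Pool.Agent.J4H78.HG.Stm

/-!
# Project HG: TH, first part
-/

set_option autoImplicit false

open NumberField Complex Filter Topology MeasureTheory
open Pool.Agent.Y773 (VM cc PIdl gen Sc Reps exists_unique_class span_gen gen_ne_zero el cube)

namespace Pool.Agent.J4H78.HG

open Pool.Agent.J4H78.GP (QD BQ eta cj res gg IsCf Spl ind PS IsCl NonTriv)
open Pool.Agent.J4H57.GP (absNorm_pos' exists_reps orth sum_dec triv triv_of_ne)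

variable {L : Type} [Field L] [NumberField L]

theorem norm_cexp_I (r : ℝ) : ‖Complex.exp ((r : ℂ) * I)‖ = 1 := Complex.norm_exp_ofReal_mul_I r

theorem norm_pw (μ : InfinitePlace L → ℝ) (x : L) : ‖pw μ x‖ = 1 := by
  unfold pw
  rw [norm_prod]
  exact Finset.prod_eq_one fun w _ => norm_cexp_I _

theorem pw_eq (μ : InfinitePlace L → ℝ) (x : L) :
    pw μ x = Complex.exp (((∑ w, μ w * Real.log (w x) : ℝ) : ℂ) * I) := by
  unfold pw
  rw [← Complex.exp_sum]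
  congr 1
  push_cast
  rw [Finset.sum_mul]

theorem pw_mul (μ : InfinitePlace L → ℝ) {x y : L} (hx : x ≠ 0) (hy : y ≠ 0) :
    pw μ (x * y) = pw μ x * pw μ y := by
  unfold pw
  rw [← Finset.prod_mul_distrib]
  refine Finset.prod_congr rfl fun w _ => ?_
  rw [← Complex.exp_add, map_mul, Real.log_mul (by simpa using hx) (by simpa using hy)]
  congr 1
  push_cast
  ring

theorem pw_unit {μ : InfinitePlace L → ℝ} {η : Ideal (𝓞 L) →*₀ ℂ} (h : IsHk L μ η) (u : (𝓞 L)ˣ) :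
    pw μ ((u : 𝓞 L) : L) = 1 := by
  rw [← h (u : 𝓞 L) u.ne_zero, Ideal.span_singleton_eq_top.mpr u.isUnit, ← Ideal.one_eq_top, map_one]

/-- the sum over the principal ideals in `𝔟` -/
theorem sum_ind' {𝔟 : Ideal (𝓞 L)} (hb : 𝔟 ≠ ⊥) (g : Ideal (𝓞 L) → ℂ) :
    ∑' J : PIdl L, ind 𝔟 (gen J) * g J.1 = ∑' 𝔞 : Sc 𝔟, g ((𝔞 : Ideal (𝓞 L)) * 𝔟) := by
  classical
  let i : Sc 𝔟 → PIdl L := fun 𝔞 => ⟨𝔞.1 * 𝔟, mul_ne_zero 𝔞.2.1 hb, 𝔞.2.2⟩
  have hi : Function.Injective i := by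
    intro a b h
    have h1 : a.1 * 𝔟 = b.1 * 𝔟 := congrArg Subtype.val h
    exact Subtype.ext (mul_right_cancel₀ hb h1)
  rw [← hi.tsum_eq]
  · refine tsum_congr fun 𝔞 => ?_
    have h2 : (i 𝔞).1 = 𝔞.1 * 𝔟 := rfl
    have h1 : gen (i 𝔞) ∈ 𝔟 := by
      have h3 : gen (i 𝔞) ∈ (i 𝔞).1 := by
        rw [← span_gen (i 𝔞)]
        exact Ideal.mem_span_singleton_self _
      rw [h2] at h3
      exact Ideal.mul_le_right (I := 𝔞.1) (J := 𝔟) h3
    rw [h2]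
    unfold ind
    rw [if_pos h1, one_mul]
  · intro J hJ
    rw [Function.mem_support] at hJ
    have h1 : gen J ∈ 𝔟 := by
      by_contra h
      apply hJ
      unfold ind
      rw [if_neg h, zero_mul]
    have h2 : J.1 ≤ 𝔟 := by
      rw [← span_gen J, Ideal.span_singleton_le_iff_mem]
      exact h1
    obtain ⟨𝔞, h3⟩ := Ideal.dvd_iff_le.mpr h2
    refine ⟨⟨𝔞, ?_, ?_⟩, Subtype.ext ?_⟩
    · rintro rfl
      rw [Ideal.mul_bot] at h3
      exact J.2.1 h3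
    · rw [mul_comm, ← h3]
      exact J.2.2
    · change 𝔞 * 𝔟 = J.1
      rw [h3, mul_comm]

theorem norm_ind_le (𝔟 : Ideal (𝓞 L)) (x : 𝓞 L) : ‖ind 𝔟 x‖ ≤ 1 := by
  unfold ind
  split_ifs
  · rw [norm_one]
  · rw [norm_zero]
    exact zero_le_one

theorem ind_unit (𝔟 : Ideal (𝓞 L)) (u : (𝓞 L)ˣ) (x : 𝓞 L) : ind 𝔟 (u * x) = ind 𝔟 x := by
  unfold ind
  have h2 : (u : 𝓞 L) * x ∈ 𝔟 ↔ x ∈ 𝔟 := Ideal.unit_mul_mem_iff_mem 𝔟 u.isUnit
  by_cases h3 : x ∈ 𝔟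
  · rw [if_pos h3, if_pos (h2.mpr h3)]
  · rw [if_neg h3, if_neg fun h4 => h3 (h2.mp h4)]

/-- Step A -/
theorem stepA [IsTotallyReal L] {c : ℝ}
    (hU : ∀ (Ψ : 𝓞 L → ℂ) (B : ℝ), (∀ x, ‖Ψ x‖ ≤ B) → (∀ (u : (𝓞 L)ˣ) (x : 𝓞 L), Ψ (u * x) = Ψ x) →
      ∀ t : ℝ, 0 < t →
        (Summable fun J : PIdl L => Ψ (gen J) * ((V ((Ideal.absNorm J.1 : ℝ) * t) : ℝ) : ℂ)) ∧
        hc Ψ t = c * ∑' J : PIdl L, Ψ (gen J) * ((V ((Ideal.absNorm J.1 : ℝ) * t) : ℝ) : ℂ))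
    {μ : InfinitePlace L → ℝ} {η : Ideal (𝓞 L) →*₀ ℂ} (h : IsHk L μ η) {𝔟 : Ideal (𝓞 L)} (hb : 𝔟 ≠ ⊥)
    {X : ℝ} (hX : 0 < X) :
    hc (fun x => ind 𝔟 x * pw μ (x : L)) (1 / ((Ideal.absNorm 𝔟 : ℝ) * X)) =
      c * (η 𝔟 * ∑' 𝔞 : Sc 𝔟, η 𝔞 * ((V ((Ideal.absNorm (𝔞 : Ideal (𝓞 L)) : ℝ) / X) : ℝ) : ℂ)) := by
  have hN := absNorm_pos' hb
  obtain ⟨-, h1⟩ := hU (fun x => ind 𝔟 x * pw μ (x : L)) 1 (fun x => by
    rw [norm_mul, norm_pw, mul_one]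
    exact norm_ind_le 𝔟 x) (fun u x => by
      rw [ind_unit]
      by_cases hx : x = 0
      · rw [hx, mul_zero]
      · congr 1
        have h2 : (((u : 𝓞 L) * x : 𝓞 L) : L) = ((u : 𝓞 L) : L) * (x : L) := map_mul (algebraMap (𝓞 L) L) _ _
        rw [h2, pw_mul μ (by simp) (by simpa using hx), pw_unit h, one_mul])
    (1 / ((Ideal.absNorm 𝔟 : ℝ) * X)) (by positivity)
  rw [h1]
  congr 1
  have h2 := sum_ind' hb (fun J => η J * ((V ((Ideal.absNorm J : ℝ) * (1 / ((Ideal.absNorm 𝔟 : ℝ) * X))) : ℝ) : ℂ))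
  rw [← tsum_mul_left]
  refine Eq.trans ?_ (h2.trans ?_)
  · refine tsum_congr fun J => ?_
    have h3 : η J.1 = pw μ ((gen J : 𝓞 L) : L) := by
      rw [← h (gen J) (gen_ne_zero J), span_gen]
    rw [h3]
    ring
  · refine tsum_congr fun 𝔞 => ?_
    rw [map_mul, map_mul]
    have e : ((Ideal.absNorm (𝔞 : Ideal (𝓞 L)) * Ideal.absNorm 𝔟 : ℕ) : ℝ) * (1 / ((Ideal.absNorm 𝔟 : ℝ) * X)) =
        (Ideal.absNorm (𝔞 : Ideal (𝓞 L)) : ℝ) / X := by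
      push_cast
      field_simp
    rw [e]
    ring

theorem Ph_mul {μ : InfinitePlace L → ℝ} (y : InfinitePlace L → ℝ) (x : L) :
    pw μ x * Ph (fun _ => (0 : ℝ)) (fun w => Real.exp (y w / 2) * w x) =
      Complex.exp (((-(∑ w, μ w * (y w / 2)) : ℝ) : ℂ) * I) * Ph μ (fun w => Real.exp (y w / 2) * w x) := by
  by_cases hx : x = 0
  · obtain ⟨w₀⟩ : Nonempty (InfinitePlace L) := inferInstance
    have h0 : ∀ ν : InfinitePlace L → ℝ, Ph ν (fun w => Real.exp (y w / 2) * w x) = 0 := by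
      intro ν
      unfold Ph
      refine Finset.prod_eq_zero (Finset.mem_univ w₀) ?_
      simp [hx, ph]
    rw [h0, h0, mul_zero, mul_zero]
  · unfold Ph
    have h1 : Complex.exp (((-(∑ w, μ w * (y w / 2)) : ℝ) : ℂ) * I) =
        ∏ w, Complex.exp (((-(μ w * (y w / 2)) : ℝ) : ℂ) * I) := by
      rw [← Complex.exp_sum]
      congr 1
      push_cast
      rw [← Finset.sum_mul, Finset.sum_neg_distrib]
    rw [h1, ← Finset.prod_mul_distrib]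
    unfold pw
    rw [← Finset.prod_mul_distrib]
    refine Finset.prod_congr rfl fun w _ => ?_
    have hw : 0 < w x := by
      rw [InfinitePlace.pos_iff]
      exact hx
    have h2 : Real.log |Real.exp (y w / 2) * w x| = y w / 2 + Real.log (w x) := by
      rw [Real.log_abs, Real.log_mul (Real.exp_pos _).ne' hw.ne', Real.log_exp]
    rw [h2, zero_mul]
    have h3 : Complex.exp (((μ w * Real.log (w x) : ℝ) : ℂ) * I) =
        Complex.exp (((-(μ w * (y w / 2)) : ℝ) : ℂ) * I) *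
          Complex.exp (((μ w * (y w / 2 + Real.log (w x)) : ℝ) : ℂ) * I) := by
      rw [← Complex.exp_add]
      congr 1
      push_cast
      ring
    rw [h3]
    simp only [Complex.ofReal_zero, zero_mul, Complex.exp_zero, mul_one]
    ring

/-- Step B -/
theorem stepB {μ : InfinitePlace L → ℝ} (𝔟 : Ideal (𝓞 L)) (y : InfinitePlace L → ℝ) :
    tc (fun _ => 0) (fun x => ind 𝔟 x * pw μ (x : L)) y =
      Complex.exp (((-(∑ w, μ w * (y w / 2)) : ℝ) : ℂ) * I) * tc μ (ind 𝔟) y := by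
  unfold tc
  rw [← tsum_mul_left]
  refine tsum_congr fun x => ?_
  have h := Ph_mul (μ := μ) y (x : L)
  rw [mul_assoc, h]
  ring

end Pool.Agent.J4H78.HG
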