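import Pool.Agent.J4H78.HG.Th1

/-!
# Project HG: TH, second part
-/

set_option autoImplicit false

open NumberField Complex Filter Topology MeasureTheory
open Pool.Agent.Y773 (VM cc PIdl gen Sc Reps exists_unique_class span_gen gen_ne_zero el cube)

namespace Pool.Agent.J4H78.HG

open Pool.Agent.J4H78.GP (QD BQ eta cj res gg IsCf Spl ind PS IsCl NonTriv)
open Pool.Agent.J4H57.GP (absNorm_pos' exists_reps orth sum_dec triv triv_of_ne)

variable {L : Type} [Field L] [NumberField L]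

/-- the integral of the character over the cube -/
noncomputable def ZZ (μ : InfinitePlace L → ℝ) : ℂ :=
  ∫ θ in cube L, Complex.exp (((-(∑ w, μ w * (el L ((0 : ℝ), θ) w / 2)) : ℝ) : ℂ) * I)

theorem Ph_cont (hP : S_PHL) (hc : Fintype.card (InfinitePlace L) = 4) (μ : InfinitePlace L → ℝ) :
    Continuous (Ph μ) := by
  obtain ⟨C, hC, h⟩ := hP
  obtain ⟨h1, -⟩ := h (InfinitePlace L) hc μ
  exact (LipschitzWith.of_dist_le' (K := C * (1 + ∑ w, |μ w|)) (fun x y => by
    rw [dist_eq_norm, dist_eq_norm]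
    exact h1 x y)).continuous

theorem cube_vol : volume (cube L) = 1 := by
  rw [measure_congr (Pool.Agent.Y773.cube_ae L), Pool.Agent.Y773.volume_cube]

theorem el_cont (τ : ℝ) : Continuous fun θ : Fin (NumberField.Units.rank L) → ℝ => el L (τ, θ) := by
  have h4 : Continuous (el L) := (el L).continuous_of_finiteDimensional
  exact h4.comp (by fun_prop)

theorem el_split' (τ : ℝ) (θ : Fin (NumberField.Units.rank L) → ℝ) (w : InfinitePlace L) :
    el L (τ, θ) w = τ + el L ((0 : ℝ), θ) w := by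
  simp only [el, LinearMap.coe_mk, AddHom.coe_mk, zero_add]

/-- Step C -/
theorem stepC [IsTotallyReal L] (hn : Module.finrank ℚ L = 4) (hP : S_PHL) {CL : ℝ}
    (hL : ∀ (μ : InfinitePlace L → ℝ) (𝔟 : Ideal (𝓞 L)), 𝔟 ≠ ⊥ → ∀ (y : InfinitePlace L → ℝ) (X : ℝ),
      Real.exp (-4) ≤ X → X * (Ideal.absNorm 𝔟 * Real.exp (∑ w, y w / 2)) = 1 →
      (Summable fun x : 𝓞 L => ind 𝔟 x * Ph μ (fun w => Real.exp (y w / 2) * w (x : L))) ∧
      ‖tc μ (ind 𝔟) y - kap μ * ((X / Real.sqrt |(discr L : ℝ)| : ℝ) : ℂ)‖ ≤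
        CL * (1 + ∑ w, |μ w|) * |(discr L : ℝ)| ^ 4 * X ^ (3 / 4 : ℝ))
    (μ : InfinitePlace L → ℝ) {𝔟 : Ideal (𝓞 L)} (hb : 𝔟 ≠ ⊥) {X : ℝ} (hX : Real.exp (-4) ≤ X) :
    ‖hc (fun x => ind 𝔟 x * pw μ (x : L)) (1 / ((Ideal.absNorm 𝔟 : ℝ) * X)) -
      Complex.exp (((-((∑ w, μ w) * (Real.log (1 / ((Ideal.absNorm 𝔟 : ℝ) * X)) / 4)) : ℝ) : ℂ) * I) *
        (kap μ * ((X / Real.sqrt |(discr L : ℝ)| : ℝ) : ℂ)) * ZZ μ‖ ≤
      CL * (1 + ∑ w, |μ w|) * |(discr L : ℝ)| ^ 4 * X ^ (3 / 4 : ℝ) := by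
  have hcard : Fintype.card (InfinitePlace L) = 4 := by rw [Pool.Agent.Y773.card_place, hn]
  have hX0 : 0 < X := (Real.exp_pos _).trans_le hX
  have hN := absNorm_pos' hb
  set t : ℝ := 1 / ((Ideal.absNorm 𝔟 : ℝ) * X) with ht
  have ht0 : 0 < t := by positivity
  set τ : ℝ := (1 / 2) * Real.log t with hτ
  set E : ℝ := CL * (1 + ∑ w, |μ w|) * |(discr L : ℝ)| ^ 4 * X ^ (3 / 4 : ℝ) with hE
  set k : ℂ := kap μ * ((X / Real.sqrt |(discr L : ℝ)| : ℝ) : ℂ) with hk
  have hsum : ∀ θ : Fin (NumberField.Units.rank L) → ℝ, ∑ w, el L (τ, θ) w / 2 = Real.log t := by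
    intro θ
    rw [← Finset.sum_div, Pool.Agent.Y773.sum_el, hn, hτ]
    push_cast
    ring
  have hXt : ∀ θ : Fin (NumberField.Units.rank L) → ℝ,
      X * (Ideal.absNorm 𝔟 * Real.exp (∑ w, el L (τ, θ) w / 2)) = 1 := by
    intro θ
    rw [hsum, Real.exp_log ht0, ht]
    field_simp
  have hLθ := fun θ : Fin (NumberField.Units.rank L) → ℝ => hL μ 𝔟 hb (el L (τ, θ)) X hX (hXt θ)
  -- the phase
  set e : (Fin (NumberField.Units.rank L) → ℝ) → ℂ := fun θ =>
    Complex.exp (((-(∑ w, μ w * (el L (τ, θ) w / 2)) : ℝ) : ℂ) * I) with he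
  have hec : Continuous e := by
    have h1 := el_cont (L := L) τ
    have h2 : ∀ w, Continuous fun θ : Fin (NumberField.Units.rank L) → ℝ => el L (τ, θ) w :=
      fun w => (continuous_apply w).comp h1
    rw [he]
    fun_prop
  have hPc := Ph_cont hP hcard μ
  -- measurability of the lattice sum
  have hmeas : AEStronglyMeasurable (fun θ : Fin (NumberField.Units.rank L) → ℝ => tc μ (ind 𝔟) (el L (τ, θ)))
      (volume.restrict (cube L)) := by
    have hcount : Countable (𝓞 L) := (Pool.Agent.Y773.coE L).countable_iff.mpr inferInstance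
    refine aestronglyMeasurable_of_tendsto_ae (u := (atTop : Filter (Finset (𝓞 L))))
      (f := fun s θ => ∑ x ∈ s, ind 𝔟 x * Ph μ (fun w => Real.exp (el L (τ, θ) w / 2) * w (x : L))) ?_ ?_
    · intro s
      have h1 := el_cont (L := L) τ
      have h2 : ∀ w, Continuous fun θ : Fin (NumberField.Units.rank L) → ℝ => el L (τ, θ) w :=
        fun w => (continuous_apply w).comp h1
      refine Continuous.aestronglyMeasurable ?_
      refine continuous_finsetSum _ fun x _ => continuous_const.mul (hPc.comp ?_)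
      refine continuous_pi fun w => ?_
      have := h2 w
      fun_prop
    · exact Eventually.of_forall fun θ => (hLθ θ).1.hasSum
  have hfin : IsFiniteMeasure (volume.restrict (cube L)) :=
    ⟨by rw [Measure.restrict_apply_univ, cube_vol]; exact ENNReal.one_lt_top⟩
  have hbd : ∀ θ : Fin (NumberField.Units.rank L) → ℝ, ‖tc μ (ind 𝔟) (el L (τ, θ))‖ ≤ E + ‖k‖ := by
    intro θ
    have h1 := (hLθ θ).2
    calc ‖tc μ (ind 𝔟) (el L (τ, θ))‖ = ‖(tc μ (ind 𝔟) (el L (τ, θ)) - k) + k‖ := by rw [sub_add_cancel]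
      _ ≤ ‖tc μ (ind 𝔟) (el L (τ, θ)) - k‖ + ‖k‖ := norm_add_le _ _
      _ ≤ E + ‖k‖ := by
        gcongr
  have he1 : ∀ θ, ‖e θ‖ = 1 := fun θ => norm_cexp_I _
  have hif : Integrable (fun θ => e θ * tc μ (ind 𝔟) (el L (τ, θ))) (volume.restrict (cube L)) := by
    refine Integrable.of_bound (C := E + ‖k‖) (hec.aestronglyMeasurable.mul hmeas) ?_
    refine Eventually.of_forall fun θ => ?_
    rw [norm_mul, he1, one_mul]
    exact hbd θ
  have hig : Integrable (fun θ => e θ * k) (volume.restrict (cube L)) := by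
    refine Integrable.of_bound (C := ‖k‖) (hec.aestronglyMeasurable.mul aestronglyMeasurable_const) ?_
    refine Eventually.of_forall fun θ => ?_
    rw [norm_mul, he1, one_mul]
  have h1 : hc (fun x => ind 𝔟 x * pw μ (x : L)) t = ∫ θ in cube L, e θ * tc μ (ind 𝔟) (el L (τ, θ)) := by
    unfold hc
    refine integral_congr_ae (Eventually.of_forall fun θ => ?_)
    simp only
    rw [stepB]
  have h2 : Complex.exp (((-((∑ w, μ w) * (Real.log t / 4)) : ℝ) : ℂ) * I) * k * ZZ μ =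
      ∫ θ in cube L, e θ * k := by
    unfold ZZ
    rw [← integral_const_mul]
    refine integral_congr_ae (Eventually.of_forall fun θ => ?_)
    simp only [he]
    have h3 : Complex.exp (((-(∑ w, μ w * (el L (τ, θ) w / 2)) : ℝ) : ℂ) * I) =
        Complex.exp (((-((∑ w, μ w) * (Real.log t / 4)) : ℝ) : ℂ) * I) *
          Complex.exp (((-(∑ w, μ w * (el L ((0 : ℝ), θ) w / 2)) : ℝ) : ℂ) * I) := by
      rw [← Complex.exp_add, ← add_mul, ← Complex.ofReal_add]
      congr 3
      have h4 : ∑ w, μ w * (el L (τ, θ) w / 2) = (∑ w, μ w) * (Real.log t / 4) +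
          ∑ w, μ w * (el L ((0 : ℝ), θ) w / 2) := by
        rw [Finset.sum_mul, ← Finset.sum_add_distrib]
        refine Finset.sum_congr rfl fun w _ => ?_
        rw [el_split' τ θ w, hτ]
        ring
      rw [h4]
      ring
    rw [h3]
    ring
  rw [h1, h2, ← integral_sub hif hig]
  have h5 : ‖∫ θ in cube L, (e θ * tc μ (ind 𝔟) (el L (τ, θ)) - e θ * k)‖ ≤ E * (volume.restrict (cube L)).real Set.univ := by
    refine norm_integral_le_of_norm_le_const (Eventually.of_forall fun θ => ?_)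
    rw [← mul_sub, norm_mul, he1, one_mul]
    exact (hLθ θ).2
  have h6 : (volume.restrict (cube L)).real Set.univ = 1 := by
    rw [Measure.real, Measure.restrict_apply_univ, cube_vol]
    simp
  rw [h6, mul_one] at h5
  exact h5

end Pool.Agent.J4H78.HG
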