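import Pool.Agent.J4H78.HG.Stm3
import Pool.Agent.J4H78.HG.Den

/-!
# Project HG3: UPB
-/

set_option autoImplicit false

open NumberField Complex

namespace Pool.Agent.J4H78.HG

open Pool.Agent.J4H78.GP (QD S_HB)
open Pool.Agent.J4H21.GP (ext ext_apply)
open Pool.Agent.J4H57.GP (triv triv_of_ne isCl_ext)

theorem t_UPB : S_MAJ → S_EXT → S_NNW → S_NRM → S_UPB := by
  intro hMAJ hEXT hNNW hNRM
  refine ⟨100, by norm_num, ?_⟩
  intro p K _ _ hp hK w w' hw R hReg S hS n m T r t l hT hr hl hlR hgap 𝔟 h𝔟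
  classical
  obtain ⟨hR1, ⟨u₀, hu₀⟩, hun⟩ := hReg
  have hR : 0 < R := by linarith
  have hpl : ∀ v, v = w ∨ v = w' := by
    intro v
    by_contra hcon
    push Not at hcon
    have h1 : Fintype.card (InfinitePlace K) ≤ 2 := by
      have h2 := NumberField.InfinitePlace.card_add_two_mul_card_eq_rank K
      have h3 := NumberField.InfinitePlace.card_eq_nrRealPlaces_add_nrComplexPlaces (K := K)
      have h4 := hK.1
      omega
    have h2 : ({v, w, w'} : Finset (InfinitePlace K)).card ≤ Fintype.card (InfinitePlace K) :=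
      Finset.card_le_univ _
    rw [Finset.card_eq_three.mpr ⟨v, w, w', hcon.1, hcon.2, hw, rfl⟩] at h2
    omega
  obtain ⟨g, hg0, hgn, hgt⟩ := hMAJ n (t / R) ((t + l) / R) r hr (by gcongr; linarith) (by
    have h1 : (t + l) / R - t / R = l / R := by field_simp; ring
    rw [h1]
    have h2 : l / R + 2 * r = (l + 2 * r * R) / R := by field_simp
    rw [h2, div_le_one hR]
    exact hlR)
  have hg0' : g 0 = ((l / R + 2 * r : ℝ) : ℂ) := by
    rw [hg0]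
    congr 1
    field_simp
    ring
  -- the Hecke characters
  have hex : ∀ k : ℤ, ∃ ψ : Ideal (𝓞 K) →*₀ ℂ, IsHk K (asy w (2 * Real.pi * k / R)) ψ := by
    intro k
    apply hEXT
    intro u
    rw [pw_asy hw hpl]
    obtain ⟨k', hk'⟩ := hun u
    rw [hk', Complex.exp_eq_one_iff]
    refine ⟨k * k', ?_⟩
    push_cast
    have : (R : ℂ) ≠ 0 := by exact_mod_cast hR.ne'
    field_simp
  choose ψ' hψ' using hex
  set Ψ : ℤ → (Ideal (𝓞 K) →*₀ ℂ) := fun k => if k = 0 then triv K else ψ' k with hΨdef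
  have hΨ0 : Ψ 0 = triv K := by simp [hΨdef]
  have hΨ : ∀ k : ℤ, IsHk K (asy w (2 * Real.pi * k / R)) (Ψ k) := by
    intro k
    by_cases hk : k = 0
    · subst hk
      rw [hΨ0]
      intro x hx
      have h0 : (Ideal.span {x} : Ideal (𝓞 K)) ≠ ⊥ := by
        rw [Ne, Ideal.span_singleton_eq_bot]
        exact hx
      rw [triv_of_ne h0, pw_asy hw hpl]
      simp
    · simp only [hΨdef, if_neg hk]
      exact hψ' k
  have := Pool.Agent.J4H74.GP.finite_chars (ClassGroup (𝓞 K))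
  have : Fintype (ClassGroup (𝓞 K) →* ℂˣ) := Fintype.ofFinite _
  set Ξ : (ClassGroup (𝓞 K) →* ℂˣ) × ℤ → (Ideal (𝓞 K) →*₀ ℂ) := fun x => Ψ x.2 * ext x.1 with hΞdef
  have hΞ : ∀ x, IsHk K (asy w (2 * Real.pi * x.2 / R)) (Ξ x) := fun x => isHk_mul (hΨ x.2) x.1
  have hΞn : ∀ x, ∀ 𝔞 : Ideal (𝓞 K), 𝔞 ≠ ⊥ → ‖Ξ x 𝔞‖ = 1 := fun x 𝔞 h => hNRM K _ _ (hΞ x) 𝔞 h
  have hΨn : ∀ k, ∀ 𝔞 : Ideal (𝓞 K), 𝔞 ≠ ⊥ → ‖Ψ k 𝔞‖ = 1 := fun k 𝔞 h => hNRM K _ _ (hΨ k) 𝔞 h
  -- the index set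
  set X : Finset ((ClassGroup (𝓞 K) →* ℂˣ) × ℤ) := Finset.univ ×ˢ Finset.Icc (-(n : ℤ)) n with hXdef
  have hX0 : ((1, 0) : (ClassGroup (𝓞 K) →* ℂˣ) × ℤ) ∈ X := by
    rw [hXdef, Finset.mem_product, Finset.mem_Icc]
    refine ⟨Finset.mem_univ _, ?_, ?_⟩ <;> simp
  set h : ℝ := (Nat.card (ClassGroup (𝓞 K)) : ℝ) with hhdef
  have hh0 : 0 ≤ h := Nat.cast_nonneg _
  have hXcard : (X.card : ℝ) = h * (2 * n + 1) := by
    rw [hXdef, Finset.card_product, Finset.card_univ, ← Nat.card_eq_fintype_card,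
      CommGroup.card_monoidHom_of_hasEnoughRootsOfUnity (ClassGroup (𝓞 K)) ℂ, Int.card_Icc]
    have h1 : ((n : ℤ) + 1 - (-(n : ℤ))).toNat = 2 * n + 1 := by omega
    rw [h1]
    push_cast
    rfl
  -- the coefficients
  set A : (ClassGroup (𝓞 K) →* ℂˣ) × ℤ → ℂ := fun x => g x.2 * (starRingEnd ℂ) (Ξ x 𝔟) with hAdef
  have hAn : ∀ x ∈ X, ‖A x‖ ≤ 1 := by
    intro x hx
    simp only [hAdef]
    rw [norm_mul, RCLike.norm_conj, hΞn x 𝔟 h𝔟, mul_one]
    exact hgn _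
  have hA0 : A (1, 0) = ((l / R + 2 * r : ℝ) : ℂ) := by
    simp only [hAdef]
    have h1 : Ξ (1, 0) 𝔟 = 1 := by
      change Ψ 0 𝔟 * ext 1 𝔟 = 1
      rw [hΨ0, triv_of_ne h𝔟, one_mul]
      have h2 := ext_apply (1 : ClassGroup (𝓞 K) →* ℂˣ) ⟨𝔟, mem_nonZeroDivisors_of_ne_zero h𝔟⟩
      rw [MonoidHom.one_apply, Units.val_one] at h2
      exact h2
    rw [h1, map_one, mul_one, hg0']
  -- the sum over the tuples
  set N : ℝ := (S.card : ℝ) with hNdef
  have hN0 : 0 ≤ N := Nat.cast_nonneg _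
  set P : (Fin m → (S : Set (Ideal (𝓞 K)))) → Ideal (𝓞 K) := fun f => ∏ j, (f j : Ideal (𝓞 K)) with hPdef
  have hP0 : ∀ f, P f ≠ ⊥ := by
    intro f
    rw [hPdef]
    change (∏ j, (f j : Ideal (𝓞 K))) ≠ 0
    rw [Finset.prod_ne_zero_iff]
    intro j _
    exact hS _ (f j).2
  have e1 : ∑ f : Fin m → (S : Set (Ideal (𝓞 K))), ∑ x ∈ X, A x * Ξ x (P f) =
      ∑ x ∈ X, A x * (∑ 𝔮 ∈ S, Ξ x 𝔮) ^ m := by
    rw [Finset.sum_comm]
    refine Finset.sum_congr rfl fun x _ => ?_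
    rw [← Finset.mul_sum]
    congr 1
    have h1 : ∑ 𝔮 ∈ S, Ξ x 𝔮 = ∑ 𝔮 : (S : Set (Ideal (𝓞 K))), Ξ x 𝔮 := by
      rw [← Finset.sum_coe_sort S]
      exact Fintype.sum_equiv (Equiv.refl _) _ _ fun _ => rfl
    rw [h1, Fintype.sum_pow]
    refine Finset.sum_congr rfl fun f _ => ?_
    rw [hPdef]
    exact map_prod (Ξ x) _ _
  have e2 : ‖∑ x ∈ X, A x * (∑ 𝔮 ∈ S, Ξ x 𝔮) ^ m - (((l / R + 2 * r) * N ^ m : ℝ) : ℂ)‖ ≤
      h * (2 * n + 1) * T ^ m := by
    have h1 : A (1, 0) * (∑ 𝔮 ∈ S, Ξ (1, 0) 𝔮) ^ m = (((l / R + 2 * r) * N ^ m : ℝ) : ℂ) := by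
      rw [hA0]
      have h2 : ∑ 𝔮 ∈ S, Ξ (1, 0) 𝔮 = (S.card : ℂ) := by
        rw [Finset.card_eq_sum_ones, Nat.cast_sum]
        refine Finset.sum_congr rfl fun 𝔮 h𝔮 => ?_
        change Ψ 0 𝔮 * ext 1 𝔮 = _
        rw [hΨ0, triv_of_ne (hS 𝔮 h𝔮), one_mul, Nat.cast_one]
        have h2 := ext_apply (1 : ClassGroup (𝓞 K) →* ℂˣ) ⟨𝔮, mem_nonZeroDivisors_of_ne_zero (hS 𝔮 h𝔮)⟩
        rw [MonoidHom.one_apply, Units.val_one] at h2
        exact h2
      rw [h2, hNdef]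
      push_cast
      rfl
    rw [← Finset.add_sum_erase X _ hX0, h1, add_sub_cancel_left]
    calc ‖∑ x ∈ X.erase (1, 0), A x * (∑ 𝔮 ∈ S, Ξ x 𝔮) ^ m‖
        ≤ ∑ x ∈ X.erase (1, 0), ‖A x * (∑ 𝔮 ∈ S, Ξ x 𝔮) ^ m‖ := norm_sum_le _ _
      _ ≤ ∑ x ∈ X.erase (1, 0), T ^ m := by
          refine Finset.sum_le_sum fun x hx => ?_
          rw [Finset.mem_erase] at hx
          rw [norm_mul, norm_pow]
          have h2 : ‖∑ 𝔮 ∈ S, Ξ x 𝔮‖ ≤ T := by
            refine hgap _ _ (hΞ x) ?_ ?_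
            · by_contra hcon
              obtain ⟨h3, h4⟩ := notNorm_asy hNNW hp hK hw (hΞ x) hcon
              apply hx.1
              have h5 : (x.2 : ℝ) = 0 := by
                have hpi := Real.pi_pos
                rw [div_eq_zero_iff] at h3
                rcases h3 with h3 | h3
                · rcases mul_eq_zero.mp h3 with h6 | h6
                  · linarith
                  · exact h6
                · linarith
              have h6 : x.2 = 0 := by exact_mod_cast h5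
              have h7 : x.1 = 1 := by
                apply char_one_of
                intro 𝔞 h𝔞
                have h8 := h4 𝔞 h𝔞
                change Ψ x.2 𝔞 * ext x.1 𝔞 = 1 at h8
                rw [h6, hΨ0, triv_of_ne h𝔞, one_mul] at h8
                exact h8
              exact Prod.ext h7 h6
            · intro v
              rw [hXdef, Finset.mem_product, Finset.mem_Icc] at hx
              have h3 : |(x.2 : ℝ)| ≤ n := by
                rw [abs_le]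
                constructor
                · exact_mod_cast hx.2.2.1
                · exact_mod_cast hx.2.2.2
              have h4 : |asy w (2 * Real.pi * x.2 / R) v| = 2 * Real.pi * |(x.2 : ℝ)| / R := by
                have h5 : |2 * Real.pi * (x.2 : ℝ) / R| = 2 * Real.pi * |(x.2 : ℝ)| / R := by
                  rw [abs_div, abs_mul, abs_of_pos hR, abs_of_pos (by positivity : 0 < 2 * Real.pi)]
                unfold asy
                split_ifs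
                · exact h5
                · rw [abs_neg]
                  exact h5
              rw [h4, div_le_iff₀ hR]
              have h5 : Real.pi ≤ 4 := Real.pi_le_four
              have h6 : 2 * Real.pi * |(x.2 : ℝ)| ≤ 8 * (n + 1) := by
                have h7 : 0 ≤ |(x.2 : ℝ)| := abs_nonneg _
                nlinarith [Real.pi_pos]
              have h7 : 8 * ((n : ℝ) + 1) ≤ 100 * (n + 1) * R := by nlinarith
              linarith
          calc ‖A x‖ * ‖∑ 𝔮 ∈ S, Ξ x 𝔮‖ ^ m ≤ 1 * T ^ m := by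
                gcongr
                exact hAn x hx.2
            _ = T ^ m := one_mul _
      _ = ((X.erase (1, 0)).card : ℝ) * T ^ m := by rw [Finset.sum_const, nsmul_eq_mul]
      _ ≤ (X.card : ℝ) * T ^ m := by
          gcongr
          exact Finset.erase_subset _ _
      _ = h * (2 * n + 1) * T ^ m := by rw [hXcard]
  -- the dual side
  have e3 : ∀ f : Fin m → (S : Set (Ideal (𝓞 K))), ∑ x ∈ X, A x * Ξ x (P f) =
      (∑ k ∈ Finset.Icc (-(n : ℤ)) n, g k * (Ψ k (P f) * (starRingEnd ℂ) (Ψ k 𝔟))) *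
        (if ClassGroup.mk0 (⟨P f, mem_nonZeroDivisors_of_ne_zero (hP0 f)⟩ : nonZeroDivisors (Ideal (𝓞 K))) *
          (ClassGroup.mk0 ⟨𝔟, mem_nonZeroDivisors_of_ne_zero h𝔟⟩)⁻¹ = 1 then (Nat.card (ClassGroup (𝓞 K)) : ℂ)
          else 0) := by
    intro f
    rw [← Pool.Agent.J4H74.GP.orth]
    rw [hXdef, Finset.sum_product, Finset.sum_mul_sum, Finset.sum_comm]
    refine Finset.sum_congr rfl fun k _ => ?_
    refine Finset.sum_congr rfl fun χ _ => ?_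
    simp only [hAdef]
    have h2 : Ξ (χ, k) (P f) = Ψ k (P f) * ((χ (ClassGroup.mk0 ⟨P f, mem_nonZeroDivisors_of_ne_zero (hP0 f)⟩) : ℂˣ) : ℂ) := by
      change Ψ k (P f) * ext χ (P f) = _
      congr 1
      exact ext_apply χ ⟨P f, mem_nonZeroDivisors_of_ne_zero (hP0 f)⟩
    have h3 : Ξ (χ, k) 𝔟 = Ψ k 𝔟 * ((χ (ClassGroup.mk0 ⟨𝔟, mem_nonZeroDivisors_of_ne_zero h𝔟⟩) : ℂˣ) : ℂ) := by
      change Ψ k 𝔟 * ext χ 𝔟 = _
      congr 1
      exact ext_apply χ ⟨𝔟, mem_nonZeroDivisors_of_ne_zero h𝔟⟩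
    rw [map_mul, map_inv, Units.val_mul, Units.val_inv_eq_inv_val]
    have h4 : (((χ (ClassGroup.mk0 ⟨𝔟, mem_nonZeroDivisors_of_ne_zero h𝔟⟩) : ℂˣ) : ℂ))⁻¹ =
        (starRingEnd ℂ) ((χ (ClassGroup.mk0 ⟨𝔟, mem_nonZeroDivisors_of_ne_zero h𝔟⟩) : ℂˣ) : ℂ) := by
      rw [Complex.inv_def, Complex.normSq_eq_norm_sq, Pool.Agent.J4H74.GP.norm_char]
      simp
    rw [h2, h3, h4, map_mul]
    ring
  have e3' : ∀ (f : Fin m → (S : Set (Ideal (𝓞 K)))) (a b : 𝓞 K), a ≠ 0 → b ≠ 0 →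
      Ideal.span {a} * P f = Ideal.span {b} * 𝔟 →
      ∑ k ∈ Finset.Icc (-(n : ℤ)) n, g k * (Ψ k (P f) * (starRingEnd ℂ) (Ψ k 𝔟)) =
        tp g n (la w w' ((b : K) / (a : K)) / R) := by
    intro f a b ha hb hab
    unfold tp
    refine Finset.sum_congr rfl fun k _ => ?_
    rw [pair_val hw hpl (hΨ k) (hΨn k 𝔟 h𝔟) ha hb hab]
    congr 3
    push_cast
    have : (R : ℂ) ≠ 0 := by exact_mod_cast hR.ne'
    field_simp
  have hcn : ∀ z : ℂ, (z * (Nat.card (ClassGroup (𝓞 K)) : ℂ)).re = h * z.re := by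
    intro z
    have h6 : ((Nat.card (ClassGroup (𝓞 K)) : ℂ)).re = h := by simp [hhdef]
    have h7 : ((Nat.card (ClassGroup (𝓞 K)) : ℂ)).im = 0 := by simp
    rw [Complex.mul_re, h6, h7, mul_zero, sub_zero, mul_comm]
  have e4 : ∀ f : Fin m → (S : Set (Ideal (𝓞 K))), 0 ≤ (∑ x ∈ X, A x * Ξ x (P f)).re := by
    intro f
    rw [e3 f]
    split_ifs with hg1
    · rw [mul_inv_eq_one, ClassGroup.mk0_eq_mk0_iff] at hg1
      obtain ⟨a, b, ha, hb, hab⟩ := hg1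
      rw [e3' f a b ha hb hab, hcn]
      exact mul_nonneg hh0 (hgt _).2.1
    · rw [mul_zero, Complex.zero_re]
  have e5 : ∀ f : Fin m → (S : Set (Ideal (𝓞 K))), (∃ a b : 𝓞 K, a ≠ 0 ∧ b ≠ 0 ∧
      Ideal.span {a} * ∏ j, (f j : Ideal (𝓞 K)) = Ideal.span {b} * 𝔟 ∧
      t ≤ la w w' ((b : K) / (a : K)) ∧ la w w' ((b : K) / (a : K)) ≤ t + l) →
      h * (1 - 1 / (4 * (n + 1) * r ^ 2)) ≤ (∑ x ∈ X, A x * Ξ x (P f)).re := by
    rintro f ⟨a, b, ha, hb, hab, hl1, hl2⟩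
    have hab' : Ideal.span {a} * P f = Ideal.span {b} * 𝔟 := hab
    rw [e3 f, if_pos, e3' f a b ha hb hab', hcn]
    · have h1 := (hgt (la w w' ((b : K) / (a : K)) / R)).2.2 0 (by
        rw [Int.cast_zero, sub_zero]
        gcongr) (by
        rw [Int.cast_zero, sub_zero]
        gcongr)
      gcongr
    · rw [mul_inv_eq_one, ClassGroup.mk0_eq_mk0_iff]
      exact ⟨a, b, ha, hb, hab'⟩
  -- conclusion
  have e6 : h * (1 - 1 / (4 * (n + 1) * r ^ 2)) * cnt w w' (S : Set (Ideal (𝓞 K))) m 𝔟 t l ≤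
      (∑ f : Fin m → (S : Set (Ideal (𝓞 K))), ∑ x ∈ X, A x * Ξ x (P f)).re := by
    rw [Complex.re_sum]
    unfold cnt
    rw [Nat.card_eq_fintype_card, Fintype.card_subtype, mul_comm, ← nsmul_eq_mul, ← Finset.sum_const]
    refine (Finset.sum_le_sum (g := fun f => (∑ x ∈ X, A x * Ξ x (P f)).re) ?_).trans ?_
    · intro f hf
      rw [Finset.mem_filter] at hf
      exact e5 f hf.2
    · exact Finset.sum_le_sum_of_subset_of_nonneg (Finset.subset_univ _) fun f _ _ => e4 f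
  have e7 : (∑ f : Fin m → (S : Set (Ideal (𝓞 K))), ∑ x ∈ X, A x * Ξ x (P f)).re ≤
      N ^ m * (l / R + 2 * r) + h * (2 * n + 1) * T ^ m := by
    rw [e1]
    have h1 := Complex.abs_re_le_norm (∑ x ∈ X, A x * (∑ 𝔮 ∈ S, Ξ x 𝔮) ^ m - (((l / R + 2 * r) * N ^ m : ℝ) : ℂ))
    rw [Complex.sub_re, Complex.ofReal_re] at h1
    have h2 := (abs_le.mp (h1.trans e2)).2
    linarith
  exact e6.trans e7

end Pool.Agent.J4H78.HG
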